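import Pool.Agent.Work.MP_6229d2_co.DelCon

set_option autoImplicit false

namespace Pool.Agent.Work.MP_6229d2_co

open scoped Classical
open Finset

variable {V : Type} [Fintype V]

/-- neighbours of `v` -/
noncomputable def nbr (G : SimpleGraph V) (v : V) : Finset V := univ.filter fun x => G.Adj v x

lemma mem_nbr {G : SimpleGraph V} {v x : V} : x ∈ nbr G v ↔ G.Adj v x := by simp [nbr]

/-- delete all edges at `v` -/
def iso (G : SimpleGraph V) (v : V) : SimpleGraph V where
  Adj x y := G.Adj x y ∧ x ≠ v ∧ y ≠ v
  symm := ⟨fun _ _ h => ⟨h.1.symm, h.2.2, h.2.1⟩⟩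
  loopless := ⟨fun x h => G.loopless.irrefl x h.1⟩

omit [Fintype V] in
lemma iso_adj {G : SimpleGraph V} {v x y : V} :
    (iso G v).Adj x y ↔ G.Adj x y ∧ x ≠ v ∧ y ≠ v := Iff.rfl

omit [Fintype V] in
lemma iso_le (G : SimpleGraph V) (v : V) : iso G v ≤ G := fun _ _ h => h.1

/-- all edges have their ends in `s` -/
def InS (G : SimpleGraph V) (s : Finset V) : Prop := ∀ x y, G.Adj x y → x ∈ s

/-- the vertices of `s` are pairwise connected -/
def Conn (G : SimpleGraph V) (s : Finset V) : Prop := ∀ x ∈ s, ∀ y ∈ s, G.Reachable x y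

omit [Fintype V] in
lemma iso_inS {G : SimpleGraph V} {v : V} {s : Finset V} (h : InS G (insert v s)) :
    InS (iso G v) s := by
  intro x y hxy
  have := h x y hxy.1
  rw [Finset.mem_insert] at this
  exact this.resolve_left hxy.2.1

lemma ind_v (ord : LinearOrder (Sym2 V)) (s : Finset V) (v : V) (hv : v ∉ s)
    (H : SimpleGraph V) (B : ℚ)
    (hB : ∀ T, H ≤ T → InS T s → (bb T ord : ℚ) ≤ B * aa T ord) :
    ∀ (d : ℕ) (G : SimpleGraph V), InS G (insert v s) → iso G v = H → (nbr G v).card = d →
      (bb G ord : ℚ) ≤ B * aa G ord - (aa G ord - aa H ord) ∧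
        (1 + (d : ℤ)) * aa H ord ≤ aa G ord := by
  intro d
  induction d with
  | zero =>
    intro G hG hH hd
    have hGH : G = H := by
      rw [← hH]
      ext x y
      rw [iso_adj]
      constructor
      · intro h
        have hno : ∀ z, ¬ G.Adj v z := by
          intro z hz
          rw [Finset.card_eq_zero] at hd
          have : z ∈ nbr G v := mem_nbr.2 hz
          rw [hd] at this
          simp at this
        refine ⟨h, ?_, ?_⟩
        · rintro rfl; exact hno y h
        · rintro rfl; exact hno x h.symm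
      · exact fun h => h.1
    have hHs : InS H s := by rw [← hH]; exact iso_inS hG
    rw [hGH]
    refine ⟨?_, by simp⟩
    have := hB H le_rfl hHs
    simpa using this
  | succ d ih =>
    intro G hG hH hd
    have hne : (nbr G v).Nonempty := by rw [← Finset.card_pos, hd]; omega
    obtain ⟨w, hw⟩ := hne
    have hvw : G.Adj v w := mem_nbr.1 hw
    have hws : w ∈ s := by
      have := hG w v hvw.symm
      rw [Finset.mem_insert] at this
      exact this.resolve_left hvw.ne'
    -- the deletion
    have h1 : InS (del G v w) (insert v s) := fun x y hxy => hG x y hxy.1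
    have h2 : iso (del G v w) v = H := by
      rw [← hH]
      ext x y
      rw [iso_adj, iso_adj]
      constructor
      · rintro ⟨h, hx, hy⟩; exact ⟨h.1, hx, hy⟩
      · rintro ⟨h, hx, hy⟩; exact ⟨⟨h, fun h' => hx h'.1, fun h' => hy h'.2⟩, hx, hy⟩
    have h3 : (nbr (del G v w) v).card = d := by
      have : nbr (del G v w) v = (nbr G v).erase w := by
        ext x
        rw [Finset.mem_erase, mem_nbr, mem_nbr]
        constructor
        · rintro ⟨h, h', _⟩; exact ⟨fun h'' => h' ⟨rfl, h''⟩, h⟩
        · rintro ⟨h, h'⟩; exact ⟨h', fun h'' => h h''.2, fun h'' => hvw.ne h''.1⟩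
      rw [this, Finset.card_erase_of_mem hw, hd]; rfl
    obtain ⟨i1, i2⟩ := ih _ h1 h2 h3
    -- the contraction
    have h4 : H ≤ con G v w := by
      rw [← hH]
      intro x y hxy
      exact ⟨hxy.1.ne, hxy.2.1, hxy.2.2, Or.inl hxy.1⟩
    have h5 : InS (con G v w) s := by
      rintro x y ⟨_, hx, hy, h⟩
      rcases h with h | ⟨rfl, _⟩ | ⟨_, h⟩
      · have := hG x y h
        rw [Finset.mem_insert] at this
        exact this.resolve_left hx
      · exact hws
      · have := hG x v h.symm
        rw [Finset.mem_insert] at this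
        exact this.resolve_left hx
    have h6 := hB _ h4 h5
    have h7 := aa_mono h4 ord
    rw [aa_rec G ord hvw, bb_rec G ord hvw]
    push_cast at i1 i2 ⊢
    constructor
    · linarith
    · linarith

lemma clique_v (ord : LinearOrder (Sym2 V)) (v : V) (H : SimpleGraph V) :
    ∀ (d : ℕ) (G : SimpleGraph V), iso G v = H → (nbr G v).card = d →
      (∀ x ∈ nbr G v, ∀ y ∈ nbr G v, x ≠ y → H.Adj x y) →
      aa G ord = (1 + (d : ℤ)) * aa H ord ∧
        bb G ord = (1 + (d : ℤ)) * bb H ord - d * aa H ord := by
  intro d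
  induction d with
  | zero =>
    intro G hH hd _
    have hGH : G = H := by
      rw [← hH]
      ext x y
      rw [iso_adj]
      constructor
      · intro h
        have hno : ∀ z, ¬ G.Adj v z := by
          intro z hz
          rw [Finset.card_eq_zero] at hd
          have : z ∈ nbr G v := mem_nbr.2 hz
          rw [hd] at this
          simp at this
        refine ⟨h, ?_, ?_⟩
        · rintro rfl; exact hno y h
        · rintro rfl; exact hno x h.symm
      · exact fun h => h.1
    rw [hGH]
    simp
  | succ d ih =>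
    intro G hH hd hcl
    have hne : (nbr G v).Nonempty := by rw [← Finset.card_pos, hd]; omega
    obtain ⟨w, hw⟩ := hne
    have hvw : G.Adj v w := mem_nbr.1 hw
    have h2 : iso (del G v w) v = H := by
      rw [← hH]
      ext x y
      rw [iso_adj, iso_adj]
      constructor
      · rintro ⟨h, hx, hy⟩; exact ⟨h.1, hx, hy⟩
      · rintro ⟨h, hx, hy⟩; exact ⟨⟨h, fun h' => hx h'.1, fun h' => hy h'.2⟩, hx, hy⟩
    have hnb : nbr (del G v w) v = (nbr G v).erase w := by
      ext x
      rw [Finset.mem_erase, mem_nbr, mem_nbr]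
      constructor
      · rintro ⟨h, h', _⟩; exact ⟨fun h'' => h' ⟨rfl, h''⟩, h⟩
      · rintro ⟨h, h'⟩; exact ⟨h', fun h'' => h h''.2, fun h'' => hvw.ne h''.1⟩
    have h3 : (nbr (del G v w) v).card = d := by
      rw [hnb, Finset.card_erase_of_mem hw, hd]; rfl
    have h3' : ∀ x ∈ nbr (del G v w) v, ∀ y ∈ nbr (del G v w) v, x ≠ y → H.Adj x y := by
      intro x hx y hy hxy
      rw [hnb] at hx hy
      exact hcl x (Finset.mem_of_mem_erase hx) y (Finset.mem_of_mem_erase hy) hxy
    obtain ⟨i1, i2⟩ := ih _ h2 h3 h3'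
    have h4 : con G v w = H := by
      ext x y
      constructor
      · rintro ⟨hxy, hx, hy, h⟩
        rcases h with h | ⟨rfl, h⟩ | ⟨rfl, h⟩
        · rw [← hH]; exact ⟨h, hx, hy⟩
        · exact hcl x hw y (mem_nbr.2 h) hxy
        · exact (hcl y hw x (mem_nbr.2 h) hxy.symm).symm
      · intro h
        rw [← hH] at h
        exact ⟨h.1.ne, h.2.1, h.2.2, Or.inl h.1⟩
    rw [aa_rec G ord hvw, bb_rec G ord hvw, h4, i1, i2]
    push_cast
    constructor <;> ring

/-! ### Edge counts -/

lemma card_edg_iso (G : SimpleGraph V) (v : V) :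
    (edg G).card = (edg (iso G v)).card + (nbr G v).card := by
  have h1 : edg G = edg (iso G v) ∪ (nbr G v).image (fun x => s(v, x)) := by
    ext e
    rw [Finset.mem_union, mem_edg, mem_edg, Finset.mem_image]
    induction e using Sym2.ind with
    | _ x y =>
      rw [SimpleGraph.mem_edgeSet, SimpleGraph.mem_edgeSet]
      constructor
      · intro h
        by_cases hx : x = v
        · right
          exact ⟨y, mem_nbr.2 (hx ▸ h), by rw [hx]⟩
        · by_cases hy : y = v
          · right
            exact ⟨x, mem_nbr.2 (hy ▸ h.symm), by rw [hy, Sym2.eq_swap]⟩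
          · left; exact ⟨h, hx, hy⟩
      · rintro (h | ⟨z, hz, hzz⟩)
        · exact h.1
        · rw [mem_nbr] at hz
          rw [← SimpleGraph.mem_edgeSet, ← hzz, SimpleGraph.mem_edgeSet]
          exact hz
  rw [h1, Finset.card_union_of_disjoint]
  · rw [Finset.card_image_of_injective]
    intro x y hxy
    have h2 : x = y ∨ v = y ∧ x = v := by simpa using hxy
    rcases h2 with h2 | ⟨h2, h3⟩
    · exact h2
    · rw [h3, h2]
  · rw [Finset.disjoint_left]
    intro e he he'
    rw [Finset.mem_image] at he'
    obtain ⟨z, _, rfl⟩ := he'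
    rw [mem_edg, SimpleGraph.mem_edgeSet] at he
    exact he.2.1 rfl

lemma card_edg_mono {H G : SimpleGraph V} (h : H ≤ G) : (edg H).card ≤ (edg G).card := by
  apply Finset.card_le_card
  intro e he
  rw [mem_edg] at he ⊢
  exact SimpleGraph.edgeSet_mono h he

/-! ### A non-cut vertex of small degree -/

omit [Fintype V] in
lemma mem_of_reachable {G : SimpleGraph V} {s : Finset V} (hG : InS G s) {x y : V} (hx : x ∈ s)
    (h : G.Reachable x y) : y ∈ s := by
  obtain ⟨p⟩ := h
  induction p with
  | nil => exact hx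
  | cons hadj p ih => exact ih (hG _ _ hadj.symm)

/-- there is a non-cut vertex -/
lemma exists_noncut {G : SimpleGraph V} {s : Finset V} (hG : InS G s) (hc : Conn G s)
    (hs : s.Nonempty) : ∃ v ∈ s, Conn (iso G v) (s.erase v) := by
  obtain ⟨x0, hx0⟩ := hs
  obtain ⟨v, hv, hmax⟩ := Finset.exists_max_image s (fun x => G.dist x0 x) ⟨x0, hx0⟩
  refine ⟨v, hv, ?_⟩
  have key : ∀ (k : ℕ) (y : V), y ∈ s → y ≠ v → G.dist x0 y = k →
      (iso G v).Reachable x0 y := by
    intro k
    induction k with
    | zero =>
      intro y hy _ hd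
      have hr := hc x0 hx0 y hy
      have := (hr.dist_eq_zero_iff).1 hd
      rw [this]
    | succ k ih =>
      intro y hy hyv hd
      have hr := hc x0 hx0 y hy
      obtain ⟨p, hp⟩ := hr.exists_walk_length_eq_dist
      have hnil : ¬ p.Nil := by
        intro h
        rw [← SimpleGraph.Walk.length_eq_zero_iff] at h
        omega
      have hadj : G.Adj p.penultimate y := p.adj_penultimate hnil
      have hz : p.penultimate ∈ s := hG _ _ hadj
      have hle : G.dist x0 p.penultimate ≤ k := by
        have h1 := SimpleGraph.dist_le (p.dropLast)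
        have h2 : p.dropLast.length = k := by
          rw [SimpleGraph.Walk.length_dropLast]
          omega
        omega
      have hge : k + 1 ≤ G.dist x0 p.penultimate + 1 := by
        have hrz := hc x0 hx0 _ hz
        obtain ⟨q, hq⟩ := hrz.exists_walk_length_eq_dist
        have h1 := SimpleGraph.dist_le (q.concat hadj)
        rw [SimpleGraph.Walk.length_concat] at h1
        omega
      have hdz : G.dist x0 p.penultimate = k := by omega
      have hzv : p.penultimate ≠ v := by
        intro h
        have h1 := hmax y hy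
        rw [hd, ← h, hdz] at h1
        omega
      have h3 := ih _ hz hzv hdz
      exact h3.trans (SimpleGraph.Adj.reachable ⟨hadj, hzv, hyv⟩)
  intro x hx y hy
  rw [Finset.mem_erase] at hx hy
  exact (key _ x hx.2 hx.1 rfl).symm.trans (key _ y hy.2 hy.1 rfl)

/-- if every non-cut vertex has degree at least `D`, there are many edges -/
lemma edges_ge (D : ℕ) : ∀ (s : Finset V) (G : SimpleGraph V), InS G s → Conn G s →
    s.Nonempty → (∀ v ∈ s, Conn (iso G v) (s.erase v) → D ≤ (nbr G v).card) →
    D * (D - 1) / 2 + s.card ≤ (edg G).card + 1 := by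
  have base : ∀ (n : ℕ) (s : Finset V) (G : SimpleGraph V), s.card = n → InS G s → Conn G s →
      s.Nonempty → s.card ≤ (edg G).card + 1 := by
    intro n
    induction n with
    | zero => intro s G h _ _ _; omega
    | succ n ih =>
      intro s G h hG hc hs
      obtain ⟨v, hv, hcv⟩ := exists_noncut hG hc hs
      by_cases hn : n = 0
      · omega
      · have h1 : (s.erase v).card = n := by rw [Finset.card_erase_of_mem hv, h]; rfl
        have h2 : (s.erase v).Nonempty := by rw [← Finset.card_pos]; omega
        have h3 : InS (iso G v) (s.erase v) := by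
          apply iso_inS; rw [Finset.insert_erase hv]; exact hG
        have h4 := ih _ _ h1 h3 hcv h2
        rw [card_edg_iso G v]
        have h5 : 0 < (nbr G v).card := by
          rw [Finset.card_pos]
          obtain ⟨x, hx⟩ := h2
          rw [Finset.mem_erase] at hx
          obtain ⟨p⟩ := hc v hv x hx.2
          cases p with
          | nil => exact absurd rfl hx.1
          | cons hadj p => exact ⟨_, mem_nbr.2 hadj⟩
        omega
  induction D with
  | zero =>
    intro s G hG hc hs _
    have := base _ s G rfl hG hc hs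
    simpa using this
  | succ D ih =>
    intro s G hG hc hs hD
    by_cases hD0 : D = 0
    · rw [hD0]
      have := base _ s G rfl hG hc hs
      simpa using this
    · obtain ⟨v, hv, hcv⟩ := exists_noncut hG hc hs
      have hdv := hD v hv hcv
      have h3 : InS (iso G v) (s.erase v) := by
        apply iso_inS; rw [Finset.insert_erase hv]; exact hG
      have hnb : ∀ z ∈ nbr G v, z ∈ s.erase v := by
        intro z hz
        rw [mem_nbr] at hz
        rw [Finset.mem_erase]
        exact ⟨hz.ne', hG z v hz.symm⟩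
      have h2 : (s.erase v).Nonempty := by
        have : 0 < (nbr G v).card := by omega
        rw [Finset.card_pos] at this
        obtain ⟨z, hz⟩ := this
        exact ⟨z, hnb z hz⟩
      have h4 : ∀ w ∈ s.erase v, Conn (iso (iso G v) w) ((s.erase v).erase w) →
          D ≤ (nbr (iso G v) w).card := by
        intro w hw hcw
        have hw' := Finset.mem_erase.1 hw
        have hnc : Conn (iso G w) (s.erase w) := by
          have hle : iso (iso G v) w ≤ iso G w := by
            intro x y hxy
            exact ⟨hxy.1.1, hxy.2.1, hxy.2.2⟩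
          -- a neighbour of `v` other than `w`
          have hz : ∃ z ∈ nbr G v, z ≠ w := by
            by_contra hcon
            push Not at hcon
            have : nbr G v ⊆ {w} := fun z hz => Finset.mem_singleton.2 (hcon z hz)
            have := Finset.card_le_card this
            rw [Finset.card_singleton] at this
            omega
          obtain ⟨z, hz, hzw⟩ := hz
          have hzs : z ∈ (s.erase v).erase w := Finset.mem_erase.2 ⟨hzw, hnb z hz⟩
          have hvz : (iso G w).Adj v z := ⟨mem_nbr.1 hz, hw'.1.symm, hzw⟩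
          have hto : ∀ x ∈ s.erase w, (iso G w).Reachable z x := by
            intro x hx
            rw [Finset.mem_erase] at hx
            by_cases hxv : x = v
            · rw [hxv]; exact hvz.symm.reachable
            · have hx' : x ∈ (s.erase v).erase w :=
                Finset.mem_erase.2 ⟨hx.1, Finset.mem_erase.2 ⟨hxv, hx.2⟩⟩
              exact (hcw z hzs x hx').mono hle
          intro x hx y hy
          exact (hto x hx).symm.trans (hto y hy)
        have hdw := hD w hw'.2 hnc
        have hsub : nbr G w ⊆ insert v (nbr (iso G v) w) := by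
          intro x hx
          rw [mem_nbr] at hx
          rw [Finset.mem_insert]
          by_cases hxv : x = v
          · exact Or.inl hxv
          · exact Or.inr (mem_nbr.2 ⟨hx, hw'.1, hxv⟩)
        have h5 := Finset.card_le_card hsub
        have h6 := Finset.card_insert_le v (nbr (iso G v) w)
        omega
      have h5 := ih (s.erase v) (iso G v) h3 hcv h2 h4
      rw [Finset.card_erase_of_mem hv] at h5
      rw [card_edg_iso G v]
      have hs1 : 0 < s.card := Finset.card_pos.2 hs
      obtain ⟨E, rfl⟩ : ∃ E, D = E + 1 := ⟨D - 1, by omega⟩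
      have e1 : (E + 1 + 1) * (E + 1 + 1 - 1) / 2 = (E + 1) * (E + 1 - 1) / 2 + (E + 1) := by
        have : (E + 1 + 1) * (E + 1 + 1 - 1) = (E + 1) * (E + 1 - 1) + (E + 1) * 2 := by
          simp only [Nat.add_sub_cancel]; ring
        rw [this, Nat.add_mul_div_right _ _ (by norm_num)]
      omega

/-- a non-cut vertex of small degree -/
lemma exists_good {G : SimpleGraph V} {s : Finset V} (hG : InS G s) (hc : Conn G s)
    (hs : s.Nonempty) : ∃ v ∈ s, Conn (iso G v) (s.erase v) ∧
      (nbr G v).card * ((nbr G v).card - 1) / 2 + s.card ≤ (edg G).card + 1 := by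
  obtain ⟨v0, hv0, hcv0⟩ := exists_noncut hG hc hs
  obtain ⟨v, hv, hmin⟩ := Finset.exists_min_image
    (s.filter fun v => Conn (iso G v) (s.erase v)) (fun v => (nbr G v).card)
    ⟨v0, Finset.mem_filter.2 ⟨hv0, hcv0⟩⟩
  rw [Finset.mem_filter] at hv
  refine ⟨v, hv.1, hv.2, ?_⟩
  exact edges_ge _ s G hG hc hs (fun w hw hcw => hmin w (Finset.mem_filter.2 ⟨hw, hcw⟩))

/-! ### The loss function -/

/-- the loss of a vertex with back-degree `m + 1` -/
def ell (m : ℕ) : ℚ := 1 / 2 - 1 / (m + 2)

/-- the total loss -/
def Lam (s p : ℕ) : ℚ := ∑ i ∈ Finset.range s, ell (i + 1) + ell p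

lemma ell_zero : ell 0 = 0 := by norm_num [ell]

lemma ell_mono {a b : ℕ} (h : a ≤ b) : ell a ≤ ell b := by
  unfold ell
  have h1 : (0 : ℚ) < (a : ℚ) + 2 := by positivity
  have h2 : (a : ℚ) + 2 ≤ (b : ℚ) + 2 := by
    have : (a : ℚ) ≤ b := by exact_mod_cast h
    linarith
  have := one_div_le_one_div_of_le h1 h2
  linarith

/-- concavity: if `a + b = c + d` and `a ≤ c, d` then `ell a + ell b ≤ ell c + ell d` -/
lemma ell_conc {a b c d : ℕ} (hsum : a + b = c + d) (hac : a ≤ c) (had : a ≤ d) :
    ell a + ell b ≤ ell c + ell d := by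
  unfold ell
  obtain ⟨x, rfl⟩ : ∃ x, c = a + x := ⟨c - a, by omega⟩
  obtain ⟨y, rfl⟩ : ∃ y, d = a + y := ⟨d - a, by omega⟩
  obtain rfl : b = a + x + y := by omega
  push_cast
  have ha : (0 : ℚ) ≤ a := by positivity
  have hx : (0 : ℚ) ≤ x := by positivity
  have hy : (0 : ℚ) ≤ y := by positivity
  generalize (a : ℚ) = a' at *
  generalize (x : ℚ) = x' at *
  generalize (y : ℚ) = y' at *
  have h1 : (0 : ℚ) < a' + 2 := by linarith
  have h2 : (0 : ℚ) < a' + x' + 2 := by linarith
  have h3 : (0 : ℚ) < a' + y' + 2 := by linarith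
  have h4 : (0 : ℚ) < a' + x' + y' + 2 := by linarith
  have key : 1 / (a' + x' + 2) + 1 / (a' + y' + 2) ≤ 1 / (a' + 2) + 1 / (a' + x' + y' + 2) := by
    rw [div_add_div _ _ h2.ne' h3.ne', div_add_div _ _ h1.ne' h4.ne',
      div_le_div_iff₀ (by positivity) (by positivity)]
    have : 0 ≤ x' * y' * (2 * a' + x' + y' + 4) := by positivity
    nlinarith
  linarith

lemma ell_nonneg (m : ℕ) : 0 ≤ ell m := by
  have := ell_mono (Nat.zero_le m)
  rwa [ell_zero] at this

lemma Lam_succ (s : ℕ) : Lam (s + 1) 0 = Lam s (s + 1) := by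
  unfold Lam
  rw [Finset.sum_range_succ, ell_zero, add_zero]

lemma Lam_mono_left {s t : ℕ} (h : s ≤ t) : Lam s 0 ≤ Lam t 0 := by
  unfold Lam
  rw [ell_zero, add_zero, add_zero]
  apply Finset.sum_le_sum_of_subset_of_nonneg
  · exact Finset.range_mono h
  · intro i _ _; exact ell_nonneg _

/-- the key inequality for the loss function -/
lemma Lam_step (s p m j : ℕ) (hp : p ≤ s) (hj : s * (s + 1) / 2 + p ≤ j)
    (hm : m * (m + 1) / 2 ≤ j) :
    ∃ s' p', p' ≤ s' ∧ s' * (s' + 1) / 2 + p' + m ≤ j ∧ Lam s p ≤ Lam s' p' + ell m := by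
  have tri : ∀ k : ℕ, (k + 1) * (k + 1 + 1) / 2 = k * (k + 1) / 2 + (k + 1) := by
    intro k
    have : (k + 1) * (k + 1 + 1) = k * (k + 1) + (k + 1) * 2 := by ring
    rw [this, Nat.add_mul_div_right _ _ (by norm_num)]
  have trimono : ∀ a b : ℕ, a ≤ b → a * (a + 1) / 2 ≤ b * (b + 1) / 2 := by
    intro a b hab
    exact Nat.div_le_div_right (Nat.mul_le_mul hab (by omega))
  by_cases h1 : m ≤ p
  · refine ⟨s, p - m, by omega, by omega, ?_⟩
    have := ell_conc (a := 0) (b := p) (c := p - m) (d := m) (by omega) (by omega) (by omega)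
    rw [ell_zero] at this
    unfold Lam
    linarith
  · by_cases h2 : m ≤ s
    · obtain ⟨t, rfl⟩ : ∃ t, s = t + 1 := ⟨s - 1, by omega⟩
      refine ⟨t, t + 1 + p - m, by omega, ?_, ?_⟩
      · have := tri t
        omega
      · have := ell_conc (a := p) (b := t + 1) (c := t + 1 + p - m) (d := m)
          (by omega) (by omega) (by omega)
        unfold Lam
        rw [Finset.sum_range_succ]
        linarith
    · obtain ⟨t, rfl⟩ : ∃ t, m = t + 1 := ⟨m - 1, by omega⟩
      refine ⟨t, 0, by omega, ?_, ?_⟩
      · have := tri t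
        omega
      · have e1 : Lam t 0 + ell (t + 1) = Lam (t + 1) 0 := by
          rw [Lam_succ]; unfold Lam; rw [ell_zero]; ring
        rw [e1]
        have e2 : Lam s p ≤ Lam (s + 1) 0 := by
          rw [Lam_succ]
          unfold Lam
          have := ell_mono (show p ≤ s + 1 by omega)
          linarith
        exact e2.trans (Lam_mono_left (by omega))

/-! ### The main bound -/

lemma bcf_bot (ord : LinearOrder (Sym2 V)) : brokenCycleFree (⊥ : SimpleGraph V) ord = {∅} := by
  ext F
  rw [mem_bcf, Finset.mem_singleton, Finset.mem_powerset]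
  have h1 : edg (⊥ : SimpleGraph V) = ∅ := by
    ext e; rw [mem_edg]; simp
  rw [h1, Finset.subset_empty]
  constructor
  · exact fun h => h.1
  · intro h
    refine ⟨h, ?_⟩
    rw [Finset.eq_empty_iff_forall_notMem]
    intro e he
    obtain ⟨v, c, hc, hec, _⟩ := mem_missing.1 he
    have := c.edges_subset_edgeSet hec
    simp at this

lemma aa_bot (ord : LinearOrder (Sym2 V)) : aa (⊥ : SimpleGraph V) ord = 1 := by
  rw [aa, bcf_bot]; simp

lemma bb_bot (ord : LinearOrder (Sym2 V)) : bb (⊥ : SimpleGraph V) ord = Fintype.card V := by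
  rw [bb, bcf_bot]; simp

theorem main_bound (ord : LinearOrder (Sym2 V)) : ∀ (n : ℕ) (s : Finset V) (G : SimpleGraph V),
    s.card = n + 1 → InS G s → Conn G s → ∀ (S P : ℕ), P ≤ S →
      S * (S + 1) / 2 + P + n ≤ (edg G).card →
      (bb G ord : ℚ) ≤ aa G ord * (Fintype.card V - n / 2 - Lam S P) := by
  intro n
  induction n with
  | zero =>
    intro s G hs hG hc S P hP hj
    have hbot : G = ⊥ := by
      ext x y
      simp only [SimpleGraph.bot_adj, iff_false]
      intro h
      have h1 := hG x y h
      have h2 := hG y x h.symm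
      rw [Finset.card_eq_one] at hs
      obtain ⟨z, rfl⟩ := hs
      rw [Finset.mem_singleton] at h1 h2
      exact h.ne (h1.trans h2.symm)
    have h1 : edg (⊥ : SimpleGraph V) = ∅ := by
      ext e; rw [mem_edg]; simp
    rw [hbot, h1, Finset.card_empty] at hj
    have hP0 : P = 0 := by omega
    have hS0 : S = 0 := by
      by_contra hne
      have h2 : 1 ≤ S := Nat.one_le_iff_ne_zero.2 hne
      have h3 : 1 * (1 + 1) / 2 ≤ S * (S + 1) / 2 :=
        Nat.div_le_div_right (Nat.mul_le_mul h2 (by omega))
      omega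
    rw [hbot, aa_bot, bb_bot, hP0, hS0]
    simp [Lam, ell_zero]
  | succ n ih =>
    intro s G hs hG hc S P hP hj
    have hsne : s.Nonempty := by rw [← Finset.card_pos]; omega
    obtain ⟨v, hv, hcv, hdeg⟩ := exists_good hG hc hsne
    obtain ⟨d, hd⟩ : ∃ d, (nbr G v).card = d := ⟨_, rfl⟩
    rw [hd] at hdeg
    have hs' : (s.erase v).card = n + 1 := by rw [Finset.card_erase_of_mem hv, hs]; rfl
    have hins : InS G (insert v (s.erase v)) := by rw [Finset.insert_erase hv]; exact hG
    have hd0 : 0 < d := by
      rw [← hd, Finset.card_pos]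
      have h2 : (s.erase v).Nonempty := by rw [← Finset.card_pos]; omega
      obtain ⟨x, hx⟩ := h2
      rw [Finset.mem_erase] at hx
      obtain ⟨p⟩ := hc v hv x hx.2
      cases p with
      | nil => exact absurd rfl hx.1
      | cons hadj p => exact ⟨_, mem_nbr.2 hadj⟩
    obtain ⟨m, rfl⟩ : ∃ m, d = m + 1 := ⟨d - 1, by omega⟩
    have hedge := card_edg_iso G v
    rw [hd] at hedge
    -- choose the parameters for the smaller graph
    have hj1 : S * (S + 1) / 2 + P ≤ (edg G).card - (n + 1) := by omega
    have hm1 : m * (m + 1) / 2 ≤ (edg G).card - (n + 1) := by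
      have : (m + 1) * (m + 1 - 1) / 2 = m * (m + 1) / 2 := by
        rw [Nat.add_sub_cancel, Nat.mul_comm]
      omega
    obtain ⟨S', P', hP', hj', hL⟩ := Lam_step S P m ((edg G).card - (n + 1)) hP hj1 hm1
    have hB : ∀ T, iso G v ≤ T → InS T (s.erase v) →
        (bb T ord : ℚ) ≤ (Fintype.card V - n / 2 - Lam S' P') * aa T ord := by
      intro T hT hTs
      have hTc : Conn T (s.erase v) := fun x hx y hy => (hcv x hx y hy).mono hT
      have h1 := card_edg_mono hT
      have := ih (s.erase v) T hs' hTs hTc S' P' hP' (by omega)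
      rw [mul_comm]; exact this
    obtain ⟨i1, i2⟩ := ind_v ord (s.erase v) v (Finset.notMem_erase _ _) (iso G v) _ hB (m + 1) G
      hins rfl hd
    have ha : (0 : ℚ) < aa G ord := by exact_mod_cast aa_pos G ord
    have i2' : (1 + ((m : ℚ) + 1)) * aa (iso G v) ord ≤ aa G ord := by exact_mod_cast i2
    have i3 : (aa (iso G v) ord : ℚ) ≤ aa G ord * (1 / ((m : ℚ) + 2)) := by
      have hm : (0 : ℚ) < (m : ℚ) + 2 := by positivity
      rw [mul_one_div, le_div_iff₀ hm]
      linarith
    have e1 : ell m = 1 / 2 - 1 / ((m : ℚ) + 2) := rfl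
    push_cast
    calc (bb G ord : ℚ) ≤ (Fintype.card V - n / 2 - Lam S' P') * aa G ord -
          (aa G ord - aa (iso G v) ord) := i1
      _ ≤ (Fintype.card V - n / 2 - Lam S' P') * aa G ord -
          (aa G ord - aa G ord * (1 / ((m : ℚ) + 2))) := by linarith
      _ = aa G ord * (Fintype.card V - (n + 1) / 2 - (Lam S' P' + ell m)) := by
          rw [e1]; ring
      _ ≤ aa G ord * (Fintype.card V - (n + 1) / 2 - Lam S P) := by
          apply mul_le_mul_of_nonneg_left _ ha.le
          linarith

end Pool.Agent.Work.MP_6229d2_co
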