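import Mathlib

/-!
# Broken-cycle-free edge sets and the mean size `ε(G)`

Definitions for problem MP_6229d2_co.
-/

set_option autoImplicit false

namespace Pool.Agent.Work.MP_6229d2_co

open scoped Classical

/-- `IsBrokenCycle G ord B`: with respect to the total order `ord` on edges, `B` is the edge set
of a cycle of `G` with its largest edge removed. -/
def IsBrokenCycle {V : Type} (G : SimpleGraph V) (ord : LinearOrder (Sym2 V))
    (B : Finset (Sym2 V)) : Prop :=
  ∃ (v : V) (c : G.Walk v v) (e : Sym2 V), c.IsCycle ∧ e ∈ c.edges ∧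
    (∀ f ∈ c.edges, ord.le f e) ∧ B = c.edges.toFinset.erase e

/-- The broken-cycle-free edge sets of `G` with respect to the total order `ord`: the sets `F` of
edges of `G` that contain no broken cycle. -/
noncomputable def brokenCycleFree {V : Type} [Fintype V] (G : SimpleGraph V)
    (ord : LinearOrder (Sym2 V)) : Finset (Finset (Sym2 V)) :=
  Finset.univ.filter fun F =>
    (∀ e ∈ F, e ∈ G.edgeSet) ∧ ∀ B, IsBrokenCycle G ord B → ¬ B ⊆ F

/-- `a_i(G)`: the number of broken-cycle-free edge sets of size `i`. -/
noncomputable def numBCF {V : Type} [Fintype V] (G : SimpleGraph V)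
    (ord : LinearOrder (Sym2 V)) (i : ℕ) : ℕ :=
  ((brokenCycleFree G ord).filter fun F => F.card = i).card

/-- The mean size `ε(G) = (∑ i, i * a_i(G)) / (∑ i, a_i(G))` of the broken-cycle-free spanning
subgraphs of `G`, each counted once. (A set of edges has at most `|Sym2 V|` elements, so both sums
run over all sizes.) -/
noncomputable def eps {V : Type} [Fintype V] (G : SimpleGraph V)
    (ord : LinearOrder (Sym2 V)) : ℚ :=
  (∑ i ∈ Finset.range (Fintype.card (Sym2 V) + 1), (i : ℚ) * numBCF G ord i) /
    ∑ i ∈ Finset.range (Fintype.card (Sym2 V) + 1), (numBCF G ord i : ℚ)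

end Pool.Agent.Work.MP_6229d2_co
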