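import Pool.Agent.Work.MP_6229d2_co.Whitney

set_option autoImplicit false

namespace Pool.Agent.Work.MP_6229d2_co

open scoped Classical
open Finset

variable {V : Type} [Fintype V]

/-! ### Independence of the order -/

lemma poly_eq_of_eval (P Q : Polynomial ℤ)
    (h : ∀ m : ℕ, m ≠ 0 → P.eval (m : ℤ) = Q.eval (m : ℤ)) : P = Q := by
  apply Polynomial.eq_of_infinite_eval_eq
  have hinf : Set.Infinite (Set.range fun m : ℕ => ((m + 1 : ℕ) : ℤ)) := by
    apply Set.infinite_range_of_injective
    intro a b hab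
    simp only [Nat.cast_inj] at hab
    omega
  refine hinf.mono ?_
  rintro _ ⟨m, rfl⟩
  exact h (m + 1) (Nat.succ_ne_zero m)

lemma chrom_indep (G : SimpleGraph V) (ord ord' : LinearOrder (Sym2 V)) :
    chrom G ord = chrom G ord' := by
  apply poly_eq_of_eval
  intro m hm
  have : NeZero m := ⟨hm⟩
  rw [eval_chrom, eval_chrom]

/-- the number of broken-cycle-free sets -/
noncomputable def aa (G : SimpleGraph V) (ord : LinearOrder (Sym2 V)) : ℤ :=
  (brokenCycleFree G ord).card

/-- the total number of components of all broken-cycle-free spanning subgraphs -/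
noncomputable def bb (G : SimpleGraph V) (ord : LinearOrder (Sym2 V)) : ℤ :=
  ∑ F ∈ brokenCycleFree G ord, ((Fintype.card V : ℤ) - F.card)

lemma eval_neg_one (G : SimpleGraph V) (ord : LinearOrder (Sym2 V)) :
    (chrom G ord).eval (-1) = (-1) ^ Fintype.card V * aa G ord := by
  rw [chrom, Polynomial.eval_finsetSum, aa, Finset.card_eq_sum_ones, Nat.cast_sum, Finset.mul_sum]
  apply Finset.sum_congr rfl
  intro F hF
  simp only [Polynomial.eval_mul, Polynomial.eval_C, Polynomial.eval_pow, Polynomial.eval_X,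
    Nat.cast_one, mul_one]
  rw [← pow_add, Nat.add_sub_cancel' (card_le_of_bcf hF)]

lemma eval_derivative_neg_one (G : SimpleGraph V) (ord : LinearOrder (Sym2 V)) :
    (Polynomial.derivative (chrom G ord)).eval (-1) = - (-1) ^ Fintype.card V * bb G ord := by
  rw [chrom, Polynomial.derivative_sum, Polynomial.eval_finsetSum, bb, Finset.mul_sum]
  apply Finset.sum_congr rfl
  intro F hF
  have hle := card_le_of_bcf hF
  rw [Polynomial.derivative_C_mul_X_pow]
  simp only [Polynomial.eval_mul, Polynomial.eval_C, Polynomial.eval_pow, Polynomial.eval_X]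
  rcases Nat.eq_or_lt_of_le hle with h | h
  · rw [h]; simp
  · obtain ⟨r, hr⟩ : ∃ r, Fintype.card V = F.card + (r + 1) := ⟨Fintype.card V - F.card - 1, by omega⟩
    have e1 : Fintype.card V - F.card = r + 1 := by omega
    have e2 : Fintype.card V - F.card - 1 = r := by omega
    rw [e1, hr]
    simp only [Nat.add_sub_cancel]
    rw [pow_add, pow_succ]
    push_cast
    ring

lemma aa_indep (G : SimpleGraph V) (ord ord' : LinearOrder (Sym2 V)) :
    aa G ord = aa G ord' := by
  have h1 := eval_neg_one G ord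
  have h2 := eval_neg_one G ord'
  rw [chrom_indep G ord ord', h2] at h1
  have : ((-1 : ℤ) ^ Fintype.card V) ≠ 0 := pow_ne_zero _ (by norm_num)
  exact (mul_left_cancel₀ this h1).symm

lemma bb_indep (G : SimpleGraph V) (ord ord' : LinearOrder (Sym2 V)) :
    bb G ord = bb G ord' := by
  have h1 := eval_derivative_neg_one G ord
  have h2 := eval_derivative_neg_one G ord'
  rw [chrom_indep G ord ord', h2] at h1
  have : (-(-1 : ℤ) ^ Fintype.card V) ≠ 0 := neg_ne_zero.2 (pow_ne_zero _ (by norm_num))
  exact (mul_left_cancel₀ this h1).symm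

/-! ### Deletion-contraction -/

/-- delete the edge `vw` -/
def del (G : SimpleGraph V) (v w : V) : SimpleGraph V where
  Adj x y := G.Adj x y ∧ ¬ (x = v ∧ y = w) ∧ ¬ (x = w ∧ y = v)
  symm := ⟨fun _ _ h => ⟨h.1.symm, fun h' => h.2.2 ⟨h'.2, h'.1⟩, fun h' => h.2.1 ⟨h'.2, h'.1⟩⟩⟩
  loopless := ⟨fun x h => G.loopless.irrefl x h.1⟩

/-- contract the edge `vw` into `w`, keeping `v` as an isolated vertex -/
def con (G : SimpleGraph V) (v w : V) : SimpleGraph V where
  Adj x y := x ≠ y ∧ x ≠ v ∧ y ≠ v ∧ (G.Adj x y ∨ (x = w ∧ G.Adj v y) ∨ (y = w ∧ G.Adj v x))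
  symm := ⟨fun x y h => ⟨h.1.symm, h.2.2.1, h.2.1, by
    rcases h.2.2.2 with h1 | h1 | h1
    · exact Or.inl h1.symm
    · exact Or.inr (Or.inr h1)
    · exact Or.inr (Or.inl h1)⟩⟩
  loopless := ⟨fun x h => h.1 rfl⟩

lemma card_col_del (C : Type) [Fintype C] (G : SimpleGraph V) {v w : V} (h : G.Adj v w) :
    (col C (del G v w)).card =
      (col C G).card + ((col C (del G v w)).filter fun f => f v = f w).card := by
  rw [← Finset.card_filter_add_card_filter_not (s := col C (del G v w)) (fun f => f v = f w),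
    add_comm]
  congr 2
  ext f
  rw [Finset.mem_filter, mem_col, mem_col]
  constructor
  · rintro ⟨h1, h2⟩ x y hxy
    by_cases h3 : x = v ∧ y = w
    · rw [h3.1, h3.2]; exact h2
    · by_cases h4 : x = w ∧ y = v
      · rw [h4.1, h4.2]; exact fun h5 => h2 h5.symm
      · exact h1 x y ⟨hxy, h3, h4⟩
  · intro h1
    exact ⟨fun x y hxy => h1 x y hxy.1, h1 v w h⟩

lemma filter_del_eq (C : Type) [Fintype C] (G : SimpleGraph V) {v w : V} (h : G.Adj v w) :
    (col C (del G v w)).filter (fun f => f v = f w) =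
      (col C (con G v w)).filter fun f => f v = f w := by
  ext f
  rw [Finset.mem_filter, Finset.mem_filter, mem_col, mem_col]
  constructor
  · rintro ⟨h1, h2⟩
    refine ⟨?_, h2⟩
    rintro x y ⟨hxy, hx, hy, h3⟩
    rcases h3 with h3 | ⟨rfl, h3⟩ | ⟨rfl, h3⟩
    · exact h1 x y ⟨h3, fun h4 => hx h4.1, fun h4 => hy h4.2⟩
    · rw [← h2]
      exact h1 v y ⟨h3, fun h4 => hxy h4.2.symm, fun h4 => hy h4.2⟩
    · rw [← h2]
      exact fun h5 => h1 v x ⟨h3, fun h4 => hxy h4.2, fun h4 => hx h4.2⟩ h5.symm
  · rintro ⟨h1, h2⟩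
    refine ⟨?_, h2⟩
    rintro x y ⟨hxy, h3, h4⟩
    have hne := hxy.ne
    by_cases hx : x = v
    · have hyw : w ≠ y := fun h5 => h3 ⟨hx, h5.symm⟩
      rw [hx, h2]
      refine h1 w y ⟨hyw, h.ne', ?_, Or.inr (Or.inl ⟨rfl, ?_⟩)⟩
      · rw [← hx]; exact hne.symm
      · rw [← hx]; exact hxy
    · by_cases hy : y = v
      · have hxw : w ≠ x := fun h5 => h4 ⟨h5.symm, hy⟩
        rw [hy, h2]
        refine fun h6 => h1 w x ⟨hxw, h.ne', ?_, Or.inr (Or.inl ⟨rfl, ?_⟩)⟩ h6.symm
        · exact hx
        · rw [← hy]; exact hxy.symm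
      · exact h1 x y ⟨hne, hx, hy, Or.inl hxy⟩

/-- if `v` is isolated then colours at `v` are free -/
lemma card_col_isolated (C : Type) [Fintype C] (T : SimpleGraph V) {v w : V}
    (hv : ∀ x, ¬ T.Adj v x) (hvw : v ≠ w) :
    (col C T).card = ((col C T).filter fun f => f v = f w).card * Fintype.card C := by
  rw [← Finset.card_univ (α := C), ← Finset.card_product]
  have key : ∀ (f : V → C) (t : C), f ∈ col C T → Function.update f v t ∈ col C T := by
    intro f t hf
    rw [mem_col] at hf ⊢
    intro x y hxy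
    have hx : x ≠ v := by rintro rfl; exact hv y hxy
    have hy : y ≠ v := by rintro rfl; exact hv x hxy.symm
    rw [Function.update_of_ne hx, Function.update_of_ne hy]
    exact hf x y hxy
  refine Finset.card_nbij' (fun f => (Function.update f v (f w), f v))
    (fun p => Function.update p.1 v p.2) ?_ ?_ ?_ ?_
  · intro f hf
    rw [Finset.mem_coe] at hf
    rw [Finset.mem_coe, Finset.mem_product, Finset.mem_filter]
    refine ⟨⟨key f _ hf, ?_⟩, Finset.mem_univ _⟩
    show Function.update f v (f w) v = Function.update f v (f w) w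
    rw [Function.update_self, Function.update_of_ne hvw.symm]
  · rintro ⟨f, t⟩ hp
    rw [Finset.mem_coe, Finset.mem_product, Finset.mem_filter] at hp
    exact key f t hp.1.1
  · intro f _
    simp
  · rintro ⟨f, t⟩ hp
    rw [Finset.mem_coe, Finset.mem_product, Finset.mem_filter] at hp
    have h1 : f v = f w := hp.1.2
    ext1
    · funext x
      by_cases hx : x = v
      · rw [hx]; simp [Function.update_of_ne hvw.symm, h1]
      · simp [Function.update_of_ne hx]
    · simp

omit [Fintype V] in
lemma con_isolated (G : SimpleGraph V) (v w : V) : ∀ x, ¬ (con G v w).Adj v x :=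
  fun _ h => h.2.1 rfl

lemma card_identity (C : Type) [Fintype C] (G : SimpleGraph V) {v w : V} (h : G.Adj v w) :
    (Fintype.card C : ℤ) * (col C G).card =
      Fintype.card C * (col C (del G v w)).card - (col C (con G v w)).card := by
  rw [card_col_del C G h, filter_del_eq C G h,
    card_col_isolated C (con G v w) (con_isolated G v w) h.ne]
  push_cast
  ring

lemma poly_identity (G : SimpleGraph V) (ord : LinearOrder (Sym2 V)) {v w : V}
    (h : G.Adj v w) :
    Polynomial.X * chrom G ord =
      Polynomial.X * chrom (del G v w) ord - chrom (con G v w) ord := by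
  apply poly_eq_of_eval
  intro m hm
  have : NeZero m := ⟨hm⟩
  rw [Polynomial.eval_sub, Polynomial.eval_mul, Polynomial.eval_mul, Polynomial.eval_X,
    eval_chrom, eval_chrom, eval_chrom]
  have := card_identity (ZMod m) G h
  rw [ZMod.card] at this
  exact this

lemma aa_rec (G : SimpleGraph V) (ord : LinearOrder (Sym2 V)) {v w : V} (h : G.Adj v w) :
    aa G ord = aa (del G v w) ord + aa (con G v w) ord := by
  have h1 := congrArg (Polynomial.eval (-1 : ℤ)) (poly_identity G ord h)
  rw [Polynomial.eval_sub, Polynomial.eval_mul, Polynomial.eval_mul, Polynomial.eval_X,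
    eval_neg_one, eval_neg_one, eval_neg_one] at h1
  have h2 : ((-1 : ℤ) ^ Fintype.card V) ≠ 0 := pow_ne_zero _ (by norm_num)
  apply mul_left_cancel₀ h2
  linarith

lemma bb_rec (G : SimpleGraph V) (ord : LinearOrder (Sym2 V)) {v w : V} (h : G.Adj v w) :
    bb G ord = bb (del G v w) ord + bb (con G v w) ord - aa (con G v w) ord := by
  have h1 := congrArg (fun P => Polynomial.eval (-1 : ℤ) (Polynomial.derivative P))
    (poly_identity G ord h)
  simp only [Polynomial.derivative_sub, Polynomial.derivative_mul, Polynomial.derivative_X,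
    one_mul, Polynomial.eval_sub, Polynomial.eval_add, Polynomial.eval_mul, Polynomial.eval_X,
    eval_neg_one, eval_derivative_neg_one] at h1
  have h2 : ((-1 : ℤ) ^ Fintype.card V) ≠ 0 := pow_ne_zero _ (by norm_num)
  have h3 := aa_rec G ord h
  apply mul_left_cancel₀ h2
  rw [h3] at h1
  linarith

/-! ### Monotonicity of the number of broken-cycle-free sets -/

/-- a total order in which the edges of `H` come last -/
noncomputable def lastOrder (H : SimpleGraph V) : LinearOrder (Sym2 V) :=
  LinearOrder.lift' (fun e : Sym2 V => toLex (decide (e ∈ H.edgeSet), Fintype.equivFin (Sym2 V) e))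
    (by
      intro a b hab
      have := congrArg (fun p => (ofLex p).2) hab
      exact (Fintype.equivFin (Sym2 V)).injective this)

lemma lastOrder_not_le (H : SimpleGraph V) {e f : Sym2 V} (he : e ∉ H.edgeSet)
    (hf : f ∈ H.edgeSet) : ¬ (lastOrder H).le f e := by
  intro h
  have h1 : toLex (decide (f ∈ H.edgeSet), Fintype.equivFin (Sym2 V) f) ≤
      toLex (decide (e ∈ H.edgeSet), Fintype.equivFin (Sym2 V) e) := h
  rw [Prod.Lex.le_iff] at h1
  simp [he, hf] at h1
  exact absurd h1 (by decide)

lemma aa_mono {H G : SimpleGraph V} (hle : H ≤ G) (ord : LinearOrder (Sym2 V)) :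
    aa H ord ≤ aa G ord := by
  rw [aa_indep H ord (lastOrder H), aa_indep G ord (lastOrder H)]
  unfold aa
  rw [Nat.cast_le]
  apply Finset.card_le_card
  intro F hF
  rw [mem_bcf] at hF ⊢
  obtain ⟨h1, h2⟩ := hF
  rw [Finset.mem_powerset] at h1
  have hFG : ∀ e ∈ F, e ∈ G.edgeSet :=
    fun e he => SimpleGraph.edgeSet_mono hle (mem_edg.1 (h1 he))
  refine ⟨Finset.mem_powerset.2 fun e he => mem_edg.2 (hFG e he), ?_⟩
  rw [Finset.eq_empty_iff_forall_notMem]
  intro e he
  obtain ⟨v, c, hc, hec, hmax, hsub⟩ := mem_missing.1 he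
  by_cases heH : e ∈ H.edgeSet
  · -- the whole cycle lies in `H`
    have hcH : ∀ f ∈ c.edges, f ∈ H.edgeSet := by
      intro f hf
      by_cases hfe : f = e
      · rw [hfe]; exact heH
      · exact mem_edg.1 (h1 (hsub (by rw [Finset.mem_erase, List.mem_toFinset]; exact ⟨hfe, hf⟩)))
    have : e ∈ missing H (lastOrder H) F := by
      rw [mem_missing]
      refine ⟨v, c.transfer H hcH, hc.transfer hcH, ?_, ?_, ?_⟩
      · rw [SimpleGraph.Walk.edges_transfer]; exact hec
      · intro f hf
        rw [SimpleGraph.Walk.edges_transfer] at hf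
        exact hmax f hf
      · rw [SimpleGraph.Walk.edges_transfer]; exact hsub
    rw [h2] at this
    simp at this
  · -- another edge of the cycle lies in `H` and is larger
    have hlen : 3 ≤ c.edges.toFinset.card := by
      rw [List.toFinset_card_of_nodup hc.edges_nodup, SimpleGraph.Walk.length_edges]
      exact hc.three_le_length
    have hne : (c.edges.toFinset.erase e).Nonempty := by
      rw [← Finset.card_pos, Finset.card_erase_of_mem (List.mem_toFinset.2 hec)]
      omega
    obtain ⟨f, hf⟩ := hne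
    have hfH : f ∈ H.edgeSet := mem_edg.1 (h1 (hsub hf))
    exact lastOrder_not_le H heH hfH (hmax f (List.mem_toFinset.1 (Finset.mem_of_mem_erase hf)))

lemma aa_pos (G : SimpleGraph V) (ord : LinearOrder (Sym2 V)) : 0 < aa G ord := by
  unfold aa
  rw [Nat.cast_pos, Finset.card_pos]
  refine ⟨∅, ?_⟩
  rw [mem_bcf]
  refine ⟨by simp, ?_⟩
  rw [Finset.eq_empty_iff_forall_notMem]
  intro e he
  obtain ⟨v, c, hc, hec, hmax, hsub⟩ := mem_missing.1 he
  have hlen : 3 ≤ c.edges.toFinset.card := by
    rw [List.toFinset_card_of_nodup hc.edges_nodup, SimpleGraph.Walk.length_edges]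
    exact hc.three_le_length
  have := Finset.card_le_card hsub
  rw [Finset.card_erase_of_mem (List.mem_toFinset.2 hec)] at this
  simp at this
  omega

end Pool.Agent.Work.MP_6229d2_co
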