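import Pool.Agent.Work.MP_6229d2_co.Bound

set_option autoImplicit false

namespace Pool.Agent.Work.MP_6229d2_co

open scoped Classical
open Finset

/-! ### `eps` in terms of `aa` and `bb` -/

lemma eps_eq {V : Type} [Fintype V] (G : SimpleGraph V) (ord : LinearOrder (Sym2 V)) :
    eps G ord = Fintype.card V - bb G ord / aa G ord := by
  have hmaps : ∀ F ∈ brokenCycleFree G ord,
      F.card ∈ Finset.range (Fintype.card (Sym2 V) + 1) := by
    intro F _
    rw [Finset.mem_range]
    have := Finset.card_le_univ F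
    omega
  have h1 : ∑ i ∈ Finset.range (Fintype.card (Sym2 V) + 1), (numBCF G ord i : ℚ) =
      aa G ord := by
    rw [← Nat.cast_sum, aa, Int.cast_natCast, Nat.cast_inj]
    exact (Finset.card_eq_sum_card_fiberwise hmaps).symm
  have h2 : ∑ i ∈ Finset.range (Fintype.card (Sym2 V) + 1), (i : ℚ) * numBCF G ord i =
      ∑ F ∈ brokenCycleFree G ord, (F.card : ℚ) := by
    rw [← Finset.sum_fiberwise_of_maps_to hmaps]
    apply Finset.sum_congr rfl
    intro i _
    rw [numBCF, Finset.sum_congr rfl (g := fun _ => (i : ℚ))]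
    · rw [Finset.sum_const, nsmul_eq_mul, mul_comm]
    · intro F hF
      rw [Finset.mem_filter] at hF
      rw [hF.2]
  have h3 : (bb G ord : ℚ) = Fintype.card V * aa G ord -
      ∑ F ∈ brokenCycleFree G ord, (F.card : ℚ) := by
    rw [bb, aa]
    push_cast
    rw [Finset.sum_sub_distrib, Finset.sum_const, nsmul_eq_mul]
    ring
  have ha : (0 : ℚ) < aa G ord := by exact_mod_cast aa_pos G ord
  rw [eps, h1, h2, h3]
  field_simp
  ring

/-! ### The extremal graphs -/

/-- vertex `i` of the graph is joined to the vertices `j < d i`; only the vertices below `t`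
have been attached yet -/
def ext (n : ℕ) (d : ℕ → ℕ) (t : ℕ) : SimpleGraph (Fin n) where
  Adj i j := (j < i ∧ i.val < t ∧ j.val < d i.val) ∨ (i < j ∧ j.val < t ∧ i.val < d j.val)
  symm := ⟨fun _ _ h => Or.symm h⟩
  loopless := ⟨fun i h => by
    rcases h with h | h
    · exact lt_irrefl _ h.1
    · exact lt_irrefl _ h.1⟩

lemma ext_zero (n : ℕ) (d : ℕ → ℕ) : ext n d 0 = ⊥ := by
  ext i j
  simp [ext]

lemma iso_ext (n : ℕ) (d : ℕ → ℕ) (t : ℕ) (ht : t < n) :
    iso (ext n d (t + 1)) ⟨t, ht⟩ = ext n d t := by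
  ext i j
  rw [iso_adj]
  simp only [ext, ne_eq, Fin.ext_iff, Fin.lt_def]
  omega

lemma nbr_ext (n : ℕ) (d : ℕ → ℕ) (t : ℕ) (ht : t < n) (hd : d t ≤ t) :
    nbr (ext n d (t + 1)) ⟨t, ht⟩ = univ.filter fun j : Fin n => j.val < d t := by
  ext j
  rw [mem_nbr, Finset.mem_filter]
  simp only [ext, Fin.lt_def, Finset.mem_univ, true_and]
  constructor
  · rintro (h | h)
    · exact h.2.2
    · omega
  · intro h
    left
    exact ⟨by omega, by omega, h⟩

lemma card_filter_lt (n m : ℕ) (h : m ≤ n) :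
    (univ.filter fun j : Fin n => j.val < m).card = m := by
  have : (univ.filter fun j : Fin n => j.val < m) =
      (Finset.univ : Finset (Fin m)).map (Fin.castLEEmb h) := by
    ext j
    simp only [Finset.mem_filter, Finset.mem_univ, true_and, Finset.mem_map, Fin.castLEEmb_apply]
    constructor
    · intro hj; exact ⟨⟨j.val, hj⟩, rfl⟩
    · rintro ⟨i, rfl⟩; exact i.isLt
  rw [this, Finset.card_map, Finset.card_univ, Fintype.card_fin]

section

variable (n : ℕ) (d : ℕ → ℕ) (hd : ∀ t, d t ≤ t) (hcl : ∀ t a b, a < b → b < d t → a < d b)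

include hd hcl in
lemma ext_step (ord : LinearOrder (Sym2 (Fin n))) (t : ℕ) (ht : t < n) :
    aa (ext n d (t + 1)) ord = (1 + (d t : ℤ)) * aa (ext n d t) ord ∧
      bb (ext n d (t + 1)) ord =
        (1 + (d t : ℤ)) * bb (ext n d t) ord - d t * aa (ext n d t) ord := by
  apply clique_v ord ⟨t, ht⟩ (ext n d t) (d t) (ext n d (t + 1)) (iso_ext n d t ht)
  · rw [nbr_ext n d t ht (hd t)]
    exact card_filter_lt n _ ((hd t).trans ht.le)
  · intro x hx y hy hxy
    rw [nbr_ext n d t ht (hd t), Finset.mem_filter] at hx hy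
    have h1 := hd t
    rcases lt_or_gt_of_ne hxy with h | h
    · right
      exact ⟨h, by omega, hcl t _ _ h hy.2⟩
    · left
      exact ⟨h, by omega, hcl t _ _ h hx.2⟩

include hd in
lemma ext_edges (t : ℕ) (ht : t ≤ n) :
    (edg (ext n d t)).card = ∑ i ∈ Finset.range t, d i := by
  induction t with
  | zero =>
    rw [ext_zero]
    have : edg (⊥ : SimpleGraph (Fin n)) = ∅ := by
      ext e; rw [mem_edg]; simp
    rw [this]; simp
  | succ t ih =>
    rw [card_edg_iso (ext n d (t + 1)) ⟨t, ht⟩, iso_ext n d t ht, nbr_ext n d t ht (hd t),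
      card_filter_lt n _ ((hd t).trans (Nat.le_of_succ_le ht)), ih (Nat.le_of_succ_le ht),
      Finset.sum_range_succ]

include hd hcl in
lemma ext_ratio (ord : LinearOrder (Sym2 (Fin n))) (t : ℕ) (ht : t ≤ n) :
    (bb (ext n d t) ord : ℚ) =
      aa (ext n d t) ord * (n - ∑ i ∈ Finset.range t, (d i : ℚ) / (1 + d i)) := by
  induction t with
  | zero =>
    rw [ext_zero, aa_bot, bb_bot]
    simp
  | succ t ih =>
    obtain ⟨h1, h2⟩ := ext_step n d hd hcl ord t ht
    have h3 := ih (Nat.le_of_succ_le ht)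
    rw [h1, h2]
    push_cast
    rw [h3, Finset.sum_range_succ]
    have h4 : (0 : ℚ) < 1 + d t := by positivity
    field_simp
    ring

end

/-- the back-degree sequence of the extremal graph -/
def dseq (s p i : ℕ) : ℕ := if i ≤ s + 1 then i else if i = s + 2 then p + 1 else 1

lemma dseq_le (s p : ℕ) (hp : p ≤ s) (t : ℕ) : dseq s p t ≤ t := by
  unfold dseq; split_ifs <;> omega

lemma dseq_cl (s p : ℕ) (hp : p ≤ s) (t a b : ℕ) (hab : a < b) (hb : b < dseq s p t) :
    a < dseq s p b := by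
  have : b ≤ s + 1 := by
    unfold dseq at hb; split_ifs at hb <;> omega
  unfold dseq
  rw [if_pos this]
  exact hab

lemma sum_dseq_small (s p t : ℕ) (ht : t ≤ s + 1) :
    ∑ i ∈ Finset.range (t + 1), dseq s p i = t * (t + 1) / 2 := by
  induction t with
  | zero => simp [dseq]
  | succ t ih =>
    rw [Finset.sum_range_succ, ih (by omega)]
    have : (t + 1) * (t + 1 + 1) = t * (t + 1) + (t + 1) * 2 := by ring
    rw [this, Nat.add_mul_div_right _ _ (by norm_num)]
    unfold dseq
    rw [if_pos ht]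

lemma sum_dseq (s p r : ℕ) :
    ∑ i ∈ Finset.range (s + 3 + r), dseq s p i = (s + 1) * (s + 2) / 2 + (p + 1) + r := by
  induction r with
  | zero =>
    rw [add_zero, Finset.sum_range_succ, sum_dseq_small s p (s + 1) le_rfl]
    have : dseq s p (s + 2) = p + 1 := by unfold dseq; rw [if_neg (by omega), if_pos rfl]
    rw [this, add_zero]
  | succ r ih =>
    rw [← add_assoc, Finset.sum_range_succ, ih]
    have : dseq s p (s + 3 + r) = 1 := by
      unfold dseq; rw [if_neg (by omega), if_neg (by omega)]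
    rw [this]
    omega

lemma sum_ratio_small (s p t : ℕ) (ht : t ≤ s + 1) :
    ∑ i ∈ Finset.range (t + 1), (dseq s p i : ℚ) / (1 + dseq s p i) =
      t / 2 + ∑ i ∈ Finset.range t, ell i := by
  induction t with
  | zero => simp [dseq]
  | succ t ih =>
    rw [Finset.sum_range_succ, ih (by omega), Finset.sum_range_succ]
    have : dseq s p (t + 1) = t + 1 := by unfold dseq; rw [if_pos ht]
    rw [this, ell]
    push_cast
    have h2 : (0 : ℚ) < (t : ℚ) + 2 := by positivity
    have h3 : (1 + ((t : ℚ) + 1)) ≠ 0 := by positivity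
    field_simp
    ring

lemma sum_ratio (s p r : ℕ) :
    ∑ i ∈ Finset.range (s + 3 + r), (dseq s p i : ℚ) / (1 + dseq s p i) =
      (s + 2 + r) / 2 + Lam s p := by
  induction r with
  | zero =>
    rw [add_zero, Finset.sum_range_succ, sum_ratio_small s p (s + 1) le_rfl]
    have : dseq s p (s + 2) = p + 1 := by unfold dseq; rw [if_neg (by omega), if_pos rfl]
    rw [this, Lam, Finset.sum_range_succ' (fun i => ell i) s, ell_zero, ell]
    push_cast
    have h3 : (1 + ((p : ℚ) + 1)) ≠ 0 := by positivity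
    field_simp
    ring
  | succ r ih =>
    rw [← add_assoc, Finset.sum_range_succ, ih]
    have : dseq s p (s + 3 + r) = 1 := by
      unfold dseq; rw [if_neg (by omega), if_neg (by omega)]
    rw [this]
    push_cast
    ring

lemma ext_connected (n s p : ℕ) (hn : 0 < n) : (ext n (dseq s p) n).Connected := by
  have h0 : ∀ i : Fin n, (ext n (dseq s p) n).Reachable ⟨0, hn⟩ i := by
    intro i
    by_cases hi : i.val = 0
    · have : i = ⟨0, hn⟩ := Fin.ext hi
      rw [this]
    · apply SimpleGraph.Adj.reachable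
      right
      refine ⟨by rw [Fin.lt_def]; simp only []; omega, i.isLt, ?_⟩
      show 0 < dseq s p i.val
      unfold dseq
      split_ifs <;> omega
  have : Nonempty (Fin n) := ⟨⟨0, hn⟩⟩
  exact ⟨fun i j => (h0 i).symm.trans (h0 j)⟩

lemma ncard_edgeSet {V : Type} [Fintype V] (G : SimpleGraph V) :
    G.edgeSet.ncard = (edg G).card := by
  rw [← Set.ncard_coe_finset]
  congr 1
  ext e
  rw [Finset.mem_coe, mem_edg]

/-- existence of the parameters -/
lemma exists_params (j : ℕ) : ∃ s p, p ≤ s ∧ j = s * (s + 1) / 2 + p := by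
  induction j with
  | zero => exact ⟨0, 0, le_rfl, rfl⟩
  | succ j ih =>
    obtain ⟨s, p, hp, hj⟩ := ih
    by_cases h : p < s
    · exact ⟨s, p + 1, h, by omega⟩
    · refine ⟨s + 1, 0, by omega, ?_⟩
      have : (s + 1) * (s + 1 + 1) = s * (s + 1) + (s + 1) * 2 := by ring
      rw [this, Nat.add_mul_div_right _ _ (by norm_num)]
      omega

theorem lower_bound (n k s p : ℕ) (hn : 0 < n) (hp : p ≤ s) (hk : k = n - 1 + s * (s + 1) / 2 + p)
    (G : SimpleGraph (Fin n)) (ord : LinearOrder (Sym2 (Fin n))) (hG : G.Connected)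
    (hc : G.edgeSet.ncard = k) : ((n : ℚ) - 1) / 2 + Lam s p ≤ eps G ord := by
  have h1 := main_bound ord (n - 1) univ G (by rw [Finset.card_univ, Fintype.card_fin]; omega)
    (fun x _ _ => Finset.mem_univ x) (fun x _ y _ => hG.preconnected x y) s p hp
    (by rw [← ncard_edgeSet, hc]; omega)
  have ha : (0 : ℚ) < aa G ord := by exact_mod_cast aa_pos G ord
  rw [eps_eq, Fintype.card_fin]
  rw [Fintype.card_fin, mul_comm, ← div_le_iff₀ ha] at h1
  have h2 : ((n - 1 : ℕ) : ℚ) = (n : ℚ) - 1 := by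
    rw [Nat.cast_sub hn]; simp
  rw [h2] at h1
  linarith

theorem attained (n k s p : ℕ) (hp : p ≤ s) (hk : k = n - 1 + s * (s + 1) / 2 + p)
    (hlt : k < n.choose 2) :
    ∃ G : SimpleGraph (Fin n), G.Connected ∧ G.edgeSet.ncard = k ∧
      ∀ ord, eps G ord = ((n : ℚ) - 1) / 2 + Lam s p := by
  have hn3 : s + 3 ≤ n := by
    by_contra hcon
    have h1 : n ≤ s + 2 := by omega
    rw [Nat.choose_two_right] at hlt
    rcases Nat.eq_zero_or_pos n with h0 | h0
    · rw [h0] at hlt; simp at hlt
    · obtain ⟨m, rfl⟩ : ∃ m, n = m + 1 := ⟨n - 1, by omega⟩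
      rw [Nat.add_sub_cancel] at hk hlt
      rcases Nat.eq_zero_or_pos m with h2 | h2
      · rw [h2] at hlt; simp at hlt
      · obtain ⟨q, rfl⟩ : ∃ q, m = q + 1 := ⟨m - 1, by omega⟩
        have h3 : (q + 1 + 1) * (q + 1) = q * (q + 1) + (q + 1) * 2 := by ring
        rw [h3, Nat.add_mul_div_right _ _ (by norm_num)] at hlt
        have h4 : q * (q + 1) / 2 ≤ s * (s + 1) / 2 :=
          Nat.div_le_div_right (Nat.mul_le_mul (by omega) (by omega))
        omega
  obtain ⟨r, rfl⟩ : ∃ r, n = s + 3 + r := ⟨n - (s + 3), by omega⟩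
  refine ⟨ext (s + 3 + r) (dseq s p) (s + 3 + r), ext_connected _ s p (by omega), ?_, ?_⟩
  · rw [ncard_edgeSet, ext_edges _ _ (dseq_le s p hp) _ le_rfl, sum_dseq, hk]
    have : (s + 1) * (s + 2) = s * (s + 1) + (s + 1) * 2 := by ring
    rw [this, Nat.add_mul_div_right _ _ (by norm_num)]
    omega
  · intro ord
    have h1 := ext_ratio _ _ (dseq_le s p hp) (dseq_cl s p hp) ord (s + 3 + r) le_rfl
    have ha : (0 : ℚ) < aa (ext (s + 3 + r) (dseq s p) (s + 3 + r)) ord := by
      exact_mod_cast aa_pos _ ord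
    rw [eps_eq, h1, sum_ratio, Fintype.card_fin]
    push_cast
    field_simp
    ring

end Pool.Agent.Work.MP_6229d2_co
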