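import Pool.Agent.Work.MP_6229d2_co.Extremal

set_option autoImplicit false

/-! The maximum of `ε` when at most `n / 2` edges are missing: bounds for graphs with few missing
edges. -/

namespace Pool.Agent.Work.MP_6229d2_co

open scoped Classical
open Finset

variable {V : Type} [Fintype V]

/-- the missing edges inside `s` -/
def ms (G : SimpleGraph V) (s : Finset V) : SimpleGraph V where
  Adj x y := x ∈ s ∧ y ∈ s ∧ x ≠ y ∧ ¬ G.Adj x y
  symm := ⟨fun _ _ h => ⟨h.2.1, h.1, h.2.2.1.symm, fun h' => h.2.2.2 h'.symm⟩⟩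
  loopless := ⟨fun _ h => h.2.2.1 rfl⟩

omit [Fintype V] in
lemma ms_adj {G : SimpleGraph V} {s : Finset V} {x y : V} :
    (ms G s).Adj x y ↔ x ∈ s ∧ y ∈ s ∧ x ≠ y ∧ ¬ G.Adj x y := Iff.rfl

/-- the number of missing edges inside `s` -/
noncomputable def mc (G : SimpleGraph V) (s : Finset V) : ℕ := (edg (ms G s)).card

/-- add an edge -/
def addE (G : SimpleGraph V) (a b : V) : SimpleGraph V where
  Adj x y := G.Adj x y ∨ (x ≠ y ∧ ((x = a ∧ y = b) ∨ (x = b ∧ y = a)))
  symm := ⟨by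
    intro x y h
    rcases h with h | ⟨h, h' | h'⟩
    · exact Or.inl h.symm
    · exact Or.inr ⟨h.symm, Or.inr ⟨h'.2, h'.1⟩⟩
    · exact Or.inr ⟨h.symm, Or.inl ⟨h'.2, h'.1⟩⟩⟩
  loopless := ⟨fun x h => h.elim (fun h' => G.loopless.irrefl x h') fun h' => h'.1 rfl⟩

omit [Fintype V] in
lemma addE_adj {G : SimpleGraph V} {a b x y : V} :
    (addE G a b).Adj x y ↔ G.Adj x y ∨ (x ≠ y ∧ ((x = a ∧ y = b) ∨ (x = b ∧ y = a))) := Iff.rfl

omit [Fintype V] in
lemma le_addE (G : SimpleGraph V) (a b : V) : G ≤ addE G a b := fun _ _ h => Or.inl h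

omit [Fintype V] in
lemma addE_self {G : SimpleGraph V} {a b : V} (h : a ≠ b) : (addE G a b).Adj a b :=
  Or.inr ⟨h, Or.inl ⟨rfl, rfl⟩⟩

omit [Fintype V] in
lemma del_addE {G : SimpleGraph V} {a b : V} (h : ¬ G.Adj a b) : del (addE G a b) a b = G := by
  ext x y
  constructor
  · rintro ⟨h1 | ⟨_, h1 | h1⟩, h2, h3⟩
    · exact h1
    · exact absurd h1 h2
    · exact absurd h1 h3
  · intro h1
    refine ⟨Or.inl h1, ?_, ?_⟩
    · rintro ⟨rfl, rfl⟩; exact h h1
    · rintro ⟨rfl, rfl⟩; exact h h1.symm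

omit [Fintype V] in
lemma addE_inS {G : SimpleGraph V} {s : Finset V} {a b : V} (hG : InS G s) (ha : a ∈ s)
    (hb : b ∈ s) : InS (addE G a b) s := by
  rintro x y (h | ⟨_, ⟨rfl, _⟩ | ⟨rfl, _⟩⟩)
  · exact hG x y h
  · exact ha
  · exact hb

omit [Fintype V] in
lemma con_inS {G : SimpleGraph V} {s : Finset V} {a b : V} (hG : InS G s) (hb : b ∈ s)
    (hab : a ≠ b) : InS (con G a b) (s.erase a) := by
  rintro x y ⟨_, hx, hy, h⟩
  rw [mem_erase]
  rcases h with h | ⟨rfl, _⟩ | ⟨_, h⟩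
  · exact ⟨hx, hG x y h⟩
  · exact ⟨hx, hb⟩
  · exact ⟨hx, hG x a h.symm⟩

omit [Fintype V] in
lemma iso_inS' {G : SimpleGraph V} {s : Finset V} {a : V} (hG : InS G s) :
    InS (iso G a) (s.erase a) := by
  rintro x y ⟨h, hx, _⟩
  exact mem_erase.mpr ⟨hx, hG x y h⟩

omit [Fintype V] in
lemma iso_le_con (G : SimpleGraph V) (a b : V) : iso G a ≤ con G a b :=
  fun _ _ h => ⟨h.1.ne, h.2.1, h.2.2, Or.inl h.1⟩

lemma mc_addE {G : SimpleGraph V} {s : Finset V} {a b : V} (h : (ms G s).Adj a b) :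
    mc (addE G a b) s + 1 = mc G s := by
  unfold mc
  have h1 : edg (ms (addE G a b) s) = (edg (ms G s)).erase s(a, b) := by
    ext e
    rw [mem_erase, mem_edg, mem_edg]
    induction e using Sym2.ind with
    | _ x y =>
      rw [SimpleGraph.mem_edgeSet, SimpleGraph.mem_edgeSet, ms_adj, ms_adj, addE_adj]
      constructor
      · rintro ⟨hx, hy, hxy, h2⟩
        push Not at h2
        refine ⟨fun h3 => ?_, hx, hy, hxy, h2.1⟩
        rcases Sym2.eq_iff.mp h3 with ⟨rfl, rfl⟩ | ⟨rfl, rfl⟩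
        · exact (h2.2 hxy).1 rfl rfl
        · exact (h2.2 hxy).2 rfl rfl
      · rintro ⟨h3, hx, hy, hxy, h2⟩
        refine ⟨hx, hy, hxy, ?_⟩
        rintro (h4 | ⟨_, ⟨rfl, rfl⟩ | ⟨rfl, rfl⟩⟩)
        · exact h2 h4
        · exact h3 rfl
        · exact h3 Sym2.eq_swap
  rw [h1, card_erase_add_one]
  rw [mem_edg]
  exact h

omit [Fintype V] in
lemma ms_iso {G : SimpleGraph V} {s : Finset V} (a : V) :
    ms (iso G a) (s.erase a) = iso (ms G s) a := by
  ext x y
  rw [ms_adj, iso_adj, iso_adj, ms_adj, mem_erase, mem_erase]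
  constructor
  · rintro ⟨⟨hxa, hx⟩, ⟨hya, hy⟩, hxy, h⟩
    exact ⟨⟨hx, hy, hxy, fun h' => h ⟨h', hxa, hya⟩⟩, hxa, hya⟩
  · rintro ⟨⟨hx, hy, hxy, h⟩, hxa, hya⟩
    exact ⟨⟨hxa, hx⟩, ⟨hya, hy⟩, hxy, fun h' => h h'.1⟩

lemma mc_iso (G : SimpleGraph V) (s : Finset V) (a : V) :
    mc (iso G a) (s.erase a) + (nbr (ms G s) a).card = mc G s := by
  unfold mc
  rw [ms_iso, card_edg_iso (ms G s) a]

lemma mc_mono {H T : SimpleGraph V} (h : H ≤ T) (s : Finset V) : mc T s ≤ mc H s := by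
  unfold mc
  exact card_edg_mono fun x y h' => ⟨h'.1, h'.2.1, h'.2.2.1, fun h'' => h'.2.2.2 (h h'')⟩

lemma mc_con_le (G : SimpleGraph V) (s : Finset V) (a b : V) :
    mc (con G a b) (s.erase a) ≤ mc G s :=
  (mc_mono (iso_le_con G a b) _).trans (by have := mc_iso G s a; omega)

/-- the number `b` in the normalisation of graphs on `N` vertices -/
noncomputable def be (ord : LinearOrder (Sym2 V)) (N : ℕ) (G : SimpleGraph V) : ℚ :=
  bb G ord - ((Fintype.card V : ℚ) - N) * aa G ord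

lemma aa_add (ord : LinearOrder (Sym2 V)) {G : SimpleGraph V} {a b : V} (h : ¬ G.Adj a b)
    (hab : a ≠ b) :
    (aa G ord : ℚ) = aa (addE G a b) ord - aa (con (addE G a b) a b) ord := by
  have h1 := aa_rec (addE G a b) ord (addE_self hab)
  rw [del_addE h] at h1
  rw [h1]
  push_cast
  ring

lemma be_add (ord : LinearOrder (Sym2 V)) (N : ℕ) {G : SimpleGraph V} {a b : V} (h : ¬ G.Adj a b)
    (hab : a ≠ b) :
    be ord (N + 1) G = be ord (N + 1) (addE G a b) - be ord N (con (addE G a b) a b) := by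
  have h1 := aa_rec (addE G a b) ord (addE_self hab)
  have h2 := bb_rec (addE G a b) ord (addE_self hab)
  rw [del_addE h] at h1 h2
  unfold be
  rw [h1, h2]
  push_cast
  ring

/-- a graph without missing edges -/
lemma complete_val (ord : LinearOrder (Sym2 V)) : ∀ (n : ℕ) (s : Finset V) (G : SimpleGraph V),
    s.card = n → InS G s → mc G s = 0 →
      (aa G ord : ℚ) = n.factorial ∧ be ord n G = harmonic n * n.factorial := by
  intro n
  induction n with
  | zero =>
    intro s G hs hG _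
    have hbot : G = ⊥ := by
      ext x y
      simp only [SimpleGraph.bot_adj, iff_false]
      intro h
      have := hG x y h
      rw [card_eq_zero.mp hs] at this
      simp at this
    subst hbot
    unfold be
    rw [aa_bot, bb_bot]
    simp
  | succ n ih =>
    intro s G hs hG hm
    have hne : s.Nonempty := by rw [← card_pos]; omega
    obtain ⟨v, hv⟩ := hne
    have hs' : (s.erase v).card = n := by rw [card_erase_of_mem hv]; omega
    have hmi := mc_iso G s v
    obtain ⟨i1, i2⟩ := ih (s.erase v) (iso G v) hs' (iso_inS' hG) (by omega)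
    have hno : ∀ x y, x ∈ s → y ∈ s → x ≠ y → G.Adj x y := by
      intro x y hx hy hxy
      by_contra hcon
      have h1 : s(x, y) ∈ edg (ms G s) := by
        rw [mem_edg]
        exact ⟨hx, hy, hxy, hcon⟩
      unfold mc at hm
      rw [card_eq_zero] at hm
      rw [hm] at h1
      simp at h1
    have hnb : nbr G v = s.erase v := by
      ext x
      rw [mem_nbr, mem_erase]
      constructor
      · intro h; exact ⟨h.ne', hG x v h.symm⟩
      · rintro ⟨h1, h2⟩; exact hno v x hv h2 h1.symm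
    obtain ⟨c1, c2⟩ := clique_v ord v (iso G v) n G rfl (by rw [hnb, hs']) (by
      intro x hx y hy hxy
      rw [hnb, mem_erase] at hx hy
      exact ⟨hno x y hx.2 hy.2 hxy, hx.1, hy.1⟩)
    unfold be at i2 ⊢
    rw [c2, c1]
    push_cast
    rw [i1] at i2 ⊢
    have i3 : (bb (iso G v) ord : ℚ) = harmonic n * n.factorial +
        ((Fintype.card V : ℚ) - n) * n.factorial := by linarith
    rw [i3, harmonic_succ, Nat.factorial_succ]
    push_cast
    have : ((n : ℚ) + 1) ≠ 0 := by positivity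
    constructor
    · ring
    · field_simp
      ring

/-- bounds for graphs on `n + 1` vertices with `t` missing edges -/
def Core (ord : LinearOrder (Sym2 V)) (n : ℕ) : Prop :=
  ∀ (t : ℕ) (s : Finset V) (G : SimpleGraph V), s.card = n + 1 → InS G s → mc G s = t →
    (n.factorial : ℚ) * (n + 1 - t) ≤ aa G ord ∧ (aa G ord : ℚ) ≤ (n + 1).factorial ∧
    (2 * t ≤ n + 1 → harmonic (n + 1) * aa G ord ≤ be ord (n + 1) G ∧
      be ord (n + 1) G ≤ (harmonic n + 1 / ((n : ℚ) + 1 - t)) * aa G ord)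

lemma core_complete (ord : LinearOrder (Sym2 V)) {n : ℕ} {s : Finset V} {G : SimpleGraph V}
    (hs : s.card = n + 1) (hG : InS G s) (hm : mc G s = 0) :
    (n.factorial : ℚ) * (n + 1 - (0 : ℕ)) ≤ aa G ord ∧ (aa G ord : ℚ) ≤ (n + 1).factorial ∧
    (2 * 0 ≤ n + 1 → harmonic (n + 1) * aa G ord ≤ be ord (n + 1) G ∧
      be ord (n + 1) G ≤ (harmonic n + 1 / ((n : ℚ) + 1 - (0 : ℕ))) * aa G ord) := by
  obtain ⟨h1, h2⟩ := complete_val ord (n + 1) s G hs hG hm
  rw [h1, h2]
  refine ⟨?_, le_rfl, fun _ => ⟨le_rfl, ?_⟩⟩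
  · rw [Nat.factorial_succ]
    push_cast
    linarith
  · rw [harmonic_succ]
    push_cast
    rw [sub_zero, one_div]

lemma exists_missing {G : SimpleGraph V} {s : Finset V} (h : 0 < mc G s) :
    ∃ a b, (ms G s).Adj a b := by
  unfold mc at h
  rw [card_pos] at h
  obtain ⟨e, he⟩ := h
  rw [mem_edg] at he
  induction e using Sym2.ind with
  | _ x y => exact ⟨x, y, he⟩

/-- the contracted graph has a small quotient -/
lemma K_bound_lt {ord : LinearOrder (Sym2 V)} {k t : ℕ} (hc : Core ord k) {s : Finset V}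
    {K : SimpleGraph V} (hs : s.card = k + 1) (hK : InS K s) (hm : mc K s ≤ t)
    (ht : 2 * (t + 1) ≤ k + 2) : be ord (k + 1) K < harmonic (k + 2) * aa K ord := by
  obtain ⟨_, _, h3⟩ := hc (mc K s) s K hs hK rfl
  obtain ⟨_, h4⟩ := h3 (by omega)
  refine h4.trans_lt ?_
  have ha : (0 : ℚ) < aa K ord := by exact_mod_cast (aa_pos K ord)
  refine mul_lt_mul_of_pos_right ?_ ha
  rw [show k + 2 = (k + 1) + 1 from rfl, harmonic_succ, harmonic_succ, add_assoc]
  refine add_lt_add_of_le_of_lt le_rfl ?_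
  have hmq : (mc K s : ℚ) ≤ k / 2 := by
    have : 2 * mc K s ≤ k := by omega
    have h5 : (2 : ℚ) * mc K s ≤ k := by exact_mod_cast this
    linarith
  have hk : (0 : ℚ) ≤ k := Nat.cast_nonneg k
  have h5 : 1 / ((k : ℚ) + 1 - mc K s) ≤ 1 / (((k : ℚ) + 2) / 2) :=
    one_div_le_one_div_of_le (by positivity) (by linarith)
  refine h5.trans_lt ?_
  have h6 : 1 / (((k : ℚ) + 2) / 2) = 1 / ((k : ℚ) + 2) + 1 / ((k : ℚ) + 2) := by
    field_simp
    norm_num
  rw [h6]
  push_cast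
  refine add_lt_add_of_lt_of_le ?_ ?_
  · rw [← one_div]
    exact one_div_lt_one_div_of_lt (by positivity) (by linarith)
  · rw [← one_div]
    exact one_div_le_one_div_of_le (by positivity) (by linarith)

lemma K_bound {ord : LinearOrder (Sym2 V)} {k t : ℕ} (hc : Core ord k) {s : Finset V}
    {K : SimpleGraph V} (hs : s.card = k + 1) (hK : InS K s) (hm : mc K s ≤ t)
    (ht : 2 * (t + 1) ≤ k + 2) : be ord (k + 1) K ≤ harmonic (k + 2) * aa K ord :=
  (K_bound_lt hc hs hK hm ht).le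

theorem core (ord : LinearOrder (Sym2 V)) : ∀ n : ℕ, Core ord n := by
  intro n
  induction n with
  | zero =>
    intro t s G hs hG hm
    rcases Nat.eq_zero_or_pos t with h0 | h0
    · subst h0
      exact core_complete ord hs hG hm
    · exfalso
      obtain ⟨a, b, hab⟩ := exists_missing (G := G) (s := s) (by omega)
      rw [zero_add, card_eq_one] at hs
      obtain ⟨z, rfl⟩ := hs
      obtain ⟨ha, hb, hne, _⟩ := hab
      rw [mem_singleton] at ha hb
      exact hne (ha.trans hb.symm)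
  | succ k ihn =>
    intro t
    induction t with
    | zero => intro s G hs hG hm; exact core_complete ord hs hG hm
    | succ t iht =>
      intro s G hs hG hm
      obtain ⟨a, b, hab⟩ := exists_missing (G := G) (s := s) (by omega)
      have hmp : mc (addE G a b) s = t := by have := mc_addE hab; omega
      obtain ⟨ha, hb, hne, hnadj⟩ := hab
      have hGp : InS (addE G a b) s := addE_inS hG ha hb
      obtain ⟨p1, p2, p3⟩ := iht s (addE G a b) hs hGp hmp
      have hK : InS (con (addE G a b) a b) (s.erase a) := con_inS hGp hb hne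
      have hs' : (s.erase a).card = k + 1 := by rw [card_erase_of_mem ha, hs]; rfl
      have hmK : mc (con (addE G a b) a b) (s.erase a) ≤ t := hmp ▸ mc_con_le _ s a b
      obtain ⟨k1, k2, k3⟩ := ihn _ (s.erase a) _ hs' hK rfl
      have eA := aa_add ord hnadj hne
      have eB := be_add ord (k + 1) hnadj hne
      have hKpos : (0 : ℚ) < aa (con (addE G a b) a b) ord := by exact_mod_cast aa_pos _ ord
      obtain ⟨A0, hA0⟩ : ∃ x : ℚ, x = aa (addE G a b) ord := ⟨_, rfl⟩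
      obtain ⟨AK, hAK⟩ : ∃ x : ℚ, x = aa (con (addE G a b) a b) ord := ⟨_, rfl⟩
      obtain ⟨B0, hB0⟩ : ∃ x : ℚ, x = be ord (k + 1 + 1) (addE G a b) := ⟨_, rfl⟩
      obtain ⟨BK, hBK⟩ : ∃ x : ℚ, x = be ord (k + 1) (con (addE G a b) a b) := ⟨_, rfl⟩
      rw [← hA0, ← hAK] at eA
      rw [← hB0, ← hBK] at eB
      rw [← hA0] at p1 p2 p3
      rw [← hB0] at p3
      rw [← hAK] at k1 k2 k3 hKpos
      rw [← hBK] at k3
      rw [eA, eB]
      refine ⟨?_, ?_, fun ht => ?_⟩
      · push_cast at p1 ⊢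
        have : ((k + 1).factorial : ℚ) * (k + 1 + 1 - (t + 1)) =
            ((k + 1).factorial : ℚ) * (k + 1 + 1 - t) - (k + 1).factorial := by ring
        rw [this]
        linarith
      · linarith
      · obtain ⟨q1, q2⟩ := p3 (by omega)
        have hKb := K_bound ihn hs' hK hmK (by omega)
        rw [← hBK, ← hAK] at hKb
        obtain ⟨r1, _⟩ := k3 (by omega)
        constructor
        · have e1 : harmonic (k + 1 + 1) * (A0 - AK) = harmonic (k + 1 + 1) * A0 -
              harmonic (k + 2) * AK := by ring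
          rw [e1]
          linarith
        · have htq : (2 : ℚ) * (t + 1) ≤ k + 2 := by exact_mod_cast ht
          have hk0 : (0 : ℚ) ≤ k := Nat.cast_nonneg k
          have ht0 : (0 : ℚ) ≤ t := Nat.cast_nonneg t
          have hd1 : (0 : ℚ) < k + 1 + 1 - t := by linarith
          have hd2 : (0 : ℚ) < k + 1 + 1 - (t + 1) := by linarith
          have hfac : (0 : ℚ) ≤ (k + 1).factorial := by positivity
          push_cast at p1 q2 ⊢
          have h1 : B0 - BK ≤ harmonic (k + 1) * (A0 - AK) + A0 / (k + 1 + 1 - t) := by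
            have : (harmonic (k + 1) + 1 / ((k : ℚ) + 1 + 1 - t)) * A0 =
                harmonic (k + 1) * A0 + A0 / (k + 1 + 1 - t) := by ring
            rw [this] at q2
            linarith
          have h2 : A0 / (k + 1 + 1 - t) ≤ (A0 - AK) / (k + 1 + 1 - (t + 1)) := by
            rw [div_le_div_iff₀ hd1 hd2]
            have h3 : ((k : ℚ) + 1 + 1 - t) * AK ≤ A0 := by
              refine le_trans ?_ p1
              rw [mul_comm]
              exact mul_le_mul_of_nonneg_right k2 hd1.le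
            linarith
          have e2 : (harmonic (k + 1) + 1 / ((k : ℚ) + 1 + 1 - (t + 1))) * (A0 - AK) =
              harmonic (k + 1) * (A0 - AK) + (A0 - AK) / (k + 1 + 1 - (t + 1)) := by ring
          rw [e2]
          linarith

/-- adding one edge -/
lemma mono_step (ord : LinearOrder (Sym2 V)) {n : ℕ} {s : Finset V} {G : SimpleGraph V}
    (hs : s.card = n + 1) (hG : InS G s) {a b : V} (hab : (ms G s).Adj a b)
    (ht : 2 * mc G s ≤ n + 1) :
    be ord (n + 1) (addE G a b) * aa G ord ≤ be ord (n + 1) G * aa (addE G a b) ord := by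
  have hmp := mc_addE hab
  obtain ⟨ha, hb, hne, hnadj⟩ := hab
  obtain ⟨k, rfl⟩ : ∃ k, n = k + 1 := by
    refine ⟨n - 1, ?_⟩
    have h2 : 1 < s.card := one_lt_card.mpr ⟨a, ha, b, hb, hne⟩
    omega
  have hGp : InS (addE G a b) s := addE_inS hG ha hb
  have hs' : (s.erase a).card = k + 1 := by rw [card_erase_of_mem ha, hs]; rfl
  have hKb := K_bound (core ord k) hs' (con_inS hGp hb hne) (mc_con_le (addE G a b) s a b)
    (by omega)
  obtain ⟨_, _, h3⟩ := core ord (k + 1) _ s G hs hG rfl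
  obtain ⟨h4, _⟩ := h3 ht
  have eA := aa_add ord hnadj hne
  have eB := be_add ord (k + 1) hnadj hne
  have hA : (0 : ℚ) < aa G ord := by exact_mod_cast aa_pos G ord
  have hK : (0 : ℚ) < aa (con (addE G a b) a b) ord := by exact_mod_cast aa_pos _ ord
  have e1 : be ord (k + 1 + 1) (addE G a b) =
      be ord (k + 1 + 1) G + be ord (k + 1) (con (addE G a b) a b) := by linarith
  have e2 : (aa (addE G a b) ord : ℚ) = aa G ord + aa (con (addE G a b) a b) ord := by linarith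
  rw [e1, e2]
  have h5 : be ord (k + 1) (con (addE G a b) a b) * aa G ord ≤
      be ord (k + 1 + 1) G * aa (con (addE G a b) a b) ord := by
    calc be ord (k + 1) (con (addE G a b) a b) * aa G ord
        ≤ (harmonic (k + 2) * aa (con (addE G a b) a b) ord) * aa G ord :=
          mul_le_mul_of_nonneg_right hKb hA.le
      _ = (harmonic (k + 1 + 1) * aa G ord) * aa (con (addE G a b) a b) ord := by ring
      _ ≤ _ := mul_le_mul_of_nonneg_right h4 hK.le
  linarith

/-- monotonicity -/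
lemma mono (ord : LinearOrder (Sym2 V)) {n : ℕ} {s : Finset V} (hs : s.card = n + 1)
    {T : SimpleGraph V} (hT : InS T s) : ∀ (t : ℕ) (H : SimpleGraph V), mc H s = t → H ≤ T →
    2 * t ≤ n + 1 → be ord (n + 1) T * aa H ord ≤ be ord (n + 1) H * aa T ord := by
  intro t
  induction t with
  | zero =>
    intro H hm hHT _
    have : H = T := by
      refine le_antisymm hHT fun x y hxy => ?_
      by_contra hcon
      have h1 : s(x, y) ∈ edg (ms H s) := by
        rw [mem_edg]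
        exact ⟨hT x y hxy, hT y x hxy.symm, hxy.ne, hcon⟩
      unfold mc at hm
      rw [card_eq_zero] at hm
      rw [hm] at h1
      simp at h1
    rw [this]
  | succ t ih =>
    intro H hm hHT ht
    by_cases heq : H = T
    · rw [heq]
    · obtain ⟨a, b, hab, hnab⟩ : ∃ a b, T.Adj a b ∧ ¬ H.Adj a b := by
        by_contra hcon
        push Not at hcon
        exact heq (le_antisymm hHT fun x y hxy => hcon x y hxy)
      have hmiss : (ms H s).Adj a b := ⟨hT a b hab, hT b a hab.symm, hab.ne, hnab⟩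
      have hmp := mc_addE hmiss
      have hle : addE H a b ≤ T := by
        rintro x y (h | ⟨_, ⟨rfl, rfl⟩ | ⟨rfl, rfl⟩⟩)
        · exact hHT h
        · exact hab
        · exact hab.symm
      have h1 := ih (addE H a b) (by omega) hle (by omega)
      have h2 := mono_step ord hs (fun x y h => hT x y (hHT h)) hmiss (by omega)
      have p1 : (0 : ℚ) < aa (addE H a b) ord := by exact_mod_cast aa_pos _ ord
      have p2 : (0 : ℚ) < aa H ord := by exact_mod_cast aa_pos _ ord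
      have p3 : (0 : ℚ) < aa T ord := by exact_mod_cast aa_pos _ ord
      refine le_of_mul_le_mul_right ?_ p1
      calc be ord (n + 1) T * aa H ord * aa (addE H a b) ord
          = (be ord (n + 1) T * aa (addE H a b) ord) * aa H ord := by ring
        _ ≤ (be ord (n + 1) (addE H a b) * aa T ord) * aa H ord :=
            mul_le_mul_of_nonneg_right h1 p2.le
        _ = (be ord (n + 1) (addE H a b) * aa H ord) * aa T ord := by ring
        _ ≤ (be ord (n + 1) H * aa (addE H a b) ord) * aa T ord :=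
            mul_le_mul_of_nonneg_right h2 p3.le
        _ = _ := by ring

omit [Fintype V] in
lemma con_eq_iso {G : SimpleGraph V} {s : Finset V} (hG : InS G s) {v w : V}
    (hfull : ∀ x ∈ s, x ≠ w → G.Adj w x) : con G v w = iso G v := by
  ext x y
  constructor
  · rintro ⟨hxy, hx, hy, h | ⟨rfl, h⟩ | ⟨rfl, h⟩⟩
    · exact ⟨h, hx, hy⟩
    · exact ⟨hfull y (hG y v h.symm) hxy.symm, hx, hy⟩
    · exact ⟨(hfull x (hG x v h.symm) hxy).symm, hx, hy⟩
  · intro h
    exact iso_le_con G v w h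

omit [Fintype V] in
lemma addE_del {G : SimpleGraph V} {a b : V} (h : G.Adj a b) : addE (del G a b) a b = G := by
  ext x y
  constructor
  · rintro (h1 | ⟨_, ⟨rfl, rfl⟩ | ⟨rfl, rfl⟩⟩)
    · exact h1.1
    · exact h
    · exact h.symm
  · intro h1
    by_cases h2 : (x = a ∧ y = b) ∨ (x = b ∧ y = a)
    · exact Or.inr ⟨h1.ne, h2⟩
    · push Not at h2
      refine Or.inl ⟨h1, fun h3 => h2.1 h3.1 h3.2, fun h3 => h2.2 h3.1 h3.2⟩

/-- the move: the missing edge `uv` is replaced by `vw`, where `w` has no missing edge -/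
lemma move (ord : LinearOrder (Sym2 V)) {n : ℕ} {s : Finset V} {G : SimpleGraph V}
    (hs : s.card = n + 1) (hG : InS G s) (ht : 2 * mc G s ≤ n + 1) {u v w : V}
    (huv : (ms G s).Adj v u) (hfull : ∀ x ∈ s, x ≠ w → G.Adj w x) (hvw : v ≠ w) :
    be ord (n + 1) (del (addE G v u) v w) * aa G ord ≤
      be ord (n + 1) G * aa (del (addE G v u) v w) ord := by
  have hmp := mc_addE huv
  obtain ⟨hv, hu, hne, hnadj⟩ := huv
  obtain ⟨k, rfl⟩ : ∃ k, n = k + 1 := by
    refine ⟨n - 1, ?_⟩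
    have h2 : 1 < s.card := one_lt_card.mpr ⟨v, hv, u, hu, hne⟩
    omega
  obtain ⟨G0, hG0⟩ : ∃ G0, G0 = addE G v u := ⟨_, rfl⟩
  rw [← hG0] at hmp ⊢
  have hGp : InS G0 s := by rw [hG0]; exact addE_inS hG hv hu
  have hs' : (s.erase v).card = k + 1 := by rw [card_erase_of_mem hv, hs]; rfl
  have hadj : G0.Adj v w := by rw [hG0]; exact Or.inl (hfull v hv hvw).symm
  have hJ : con G0 v w = iso G0 v := con_eq_iso hGp fun x hx hxw => by
    rw [hG0]; exact Or.inl (hfull x hx hxw)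
  have hJle : iso G0 v ≤ con G0 v u := iso_le_con G0 v u
  have hKS : InS (con G0 v u) (s.erase v) := con_inS hGp hu hne
  have hJS : InS (iso G0 v) (s.erase v) := iso_inS' hGp
  have hmJ : mc (iso G0 v) (s.erase v) ≤ mc G0 s := by have := mc_iso G0 s v; omega
  -- the facts
  have f1 : (aa (iso G0 v) ord : ℚ) ≤ aa (con G0 v u) ord := by exact_mod_cast aa_mono hJle ord
  have f2 := mono ord hs' hKS _ (iso G0 v) rfl hJle (by omega)
  have f3 := K_bound (core ord k) hs' hJS hmJ (by omega)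
  obtain ⟨_, _, h3⟩ := core ord (k + 1) _ s G0 hs hGp rfl
  obtain ⟨f4, _⟩ := h3 (by omega)
  have eA := aa_rec G0 ord hadj
  have eB := bb_rec G0 ord hadj
  have eA' := aa_add ord hnadj hne
  have eB' := be_add ord (k + 1) hnadj hne
  rw [hJ] at eA eB
  rw [← hG0] at eA' eB'
  have gA : (aa (del G0 v w) ord : ℚ) = aa G0 ord - aa (iso G0 v) ord := by
    rw [eA]; push_cast; ring
  have gB : be ord (k + 1 + 1) (del G0 v w) = be ord (k + 1 + 1) G0 - be ord (k + 1) (iso G0 v) := by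
    unfold be
    rw [eA, eB]
    push_cast
    ring
  have p1 : (0 : ℚ) < aa (del G0 v w) ord := by exact_mod_cast aa_pos _ ord
  have pJ : (0 : ℚ) < aa (iso G0 v) ord := by exact_mod_cast aa_pos _ ord
  have p0 : (0 : ℚ) < aa G0 ord := by exact_mod_cast aa_pos _ ord
  rw [gA] at p1
  rw [gA, gB, eA', eB']
  obtain ⟨A0, hA0⟩ : ∃ x : ℚ, x = aa G0 ord := ⟨_, rfl⟩
  obtain ⟨AJ, hAJ⟩ : ∃ x : ℚ, x = aa (iso G0 v) ord := ⟨_, rfl⟩
  obtain ⟨AK, hAK⟩ : ∃ x : ℚ, x = aa (con G0 v u) ord := ⟨_, rfl⟩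
  obtain ⟨B0, hB0⟩ : ∃ x : ℚ, x = be ord (k + 1 + 1) G0 := ⟨_, rfl⟩
  obtain ⟨BJ, hBJ⟩ : ∃ x : ℚ, x = be ord (k + 1) (iso G0 v) := ⟨_, rfl⟩
  obtain ⟨BK, hBK⟩ : ∃ x : ℚ, x = be ord (k + 1) (con G0 v u) := ⟨_, rfl⟩
  rw [← hAJ, ← hAK] at f1
  rw [← hAJ, ← hAK, ← hBJ, ← hBK] at f2
  rw [← hAJ, ← hBJ] at f3
  rw [← hA0, ← hB0] at f4
  rw [← hA0, ← hAJ] at p1
  rw [← hAJ] at pJ
  rw [← hA0] at p0
  rw [← hA0, ← hB0, ← hAJ, ← hBJ, ← hAK, ← hBK]
  have f5 : A0 * BJ ≤ B0 * AJ := by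
    calc A0 * BJ ≤ A0 * (harmonic (k + 2) * AJ) := mul_le_mul_of_nonneg_left f3 p0.le
      _ = (harmonic (k + 1 + 1) * A0) * AJ := by ring
      _ ≤ B0 * AJ := mul_le_mul_of_nonneg_right f4 pJ.le
  have f6 : 0 ≤ (B0 * AJ - A0 * BJ) * (AK - AJ) :=
    mul_nonneg (by linarith) (by linarith)
  have f7 : 0 ≤ (BJ * AK - BK * AJ) * (A0 - AJ) := mul_nonneg (by linarith) p1.le
  have f8 : AJ * ((B0 - BJ) * (A0 - AK)) ≤ AJ * ((B0 - BK) * (A0 - AJ)) := by nlinarith
  exact le_of_mul_le_mul_left f8 pJ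

/-- the strict form of the move -/
lemma move_lt (ord : LinearOrder (Sym2 V)) {n : ℕ} {s : Finset V} {G : SimpleGraph V}
    (hs : s.card = n + 1) (hG : InS G s) (ht : 2 * mc G s ≤ n + 1) {u v w : V}
    (huv : (ms G s).Adj v u) (hfull : ∀ x ∈ s, x ≠ w → G.Adj w x) (hvw : v ≠ w) {z : V} (hz1 : (ms G s).Adj u z)
    (hz2 : z ≠ v) (hz3 : ¬ (ms G s).Adj v z) :
    be ord (n + 1) (del (addE G v u) v w) * aa G ord <
      be ord (n + 1) G * aa (del (addE G v u) v w) ord := by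
  have hmp := mc_addE huv
  obtain ⟨hv, hu, hne, hnadj⟩ := huv
  obtain ⟨k, rfl⟩ : ∃ k, n = k + 1 := by
    refine ⟨n - 1, ?_⟩
    have h2 : 1 < s.card := one_lt_card.mpr ⟨v, hv, u, hu, hne⟩
    omega
  obtain ⟨G0, hG0⟩ : ∃ G0, G0 = addE G v u := ⟨_, rfl⟩
  rw [← hG0] at hmp ⊢
  have hGp : InS G0 s := by rw [hG0]; exact addE_inS hG hv hu
  have hs' : (s.erase v).card = k + 1 := by rw [card_erase_of_mem hv, hs]; rfl
  have hadj : G0.Adj v w := by rw [hG0]; exact Or.inl (hfull v hv hvw).symm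
  have hJ : con G0 v w = iso G0 v := con_eq_iso hGp fun x hx hxw => by
    rw [hG0]; exact Or.inl (hfull x hx hxw)
  have hJle : iso G0 v ≤ con G0 v u := iso_le_con G0 v u
  have hKS : InS (con G0 v u) (s.erase v) := con_inS hGp hu hne
  have hJS : InS (iso G0 v) (s.erase v) := iso_inS' hGp
  have hmJ : mc (iso G0 v) (s.erase v) ≤ mc G0 s := by have := mc_iso G0 s v; omega
  -- the facts
  have hzs : z ∈ s := hz1.2.1
  have hvz : G.Adj v z := by
    by_contra hcon
    exact hz3 ⟨hv, hzs, hz2.symm, hcon⟩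
  have f1 : (aa (iso G0 v) ord : ℚ) < aa (con G0 v u) ord := by
    have g1 : ¬ (iso G0 v).Adj u z := by
      rintro ⟨h, _, _⟩
      rw [hG0] at h
      rcases h with h | ⟨_, ⟨h1, h2⟩ | ⟨h1, h2⟩⟩
      · exact hz1.2.2.2 h
      · exact hne h1.symm
      · exact hz2 h2
    have g2 : addE (iso G0 v) u z ≤ con G0 v u := by
      rintro x y (h | ⟨hxy, ⟨rfl, rfl⟩ | ⟨rfl, rfl⟩⟩)
      · exact hJle h
      · exact ⟨hxy, hne.symm, hz2, Or.inr (Or.inl ⟨rfl, by rw [hG0]; exact Or.inl hvz⟩)⟩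
      · exact ⟨hxy, hz2, hne.symm, Or.inr (Or.inr ⟨rfl, by rw [hG0]; exact Or.inl hvz⟩)⟩
    have g3 := aa_add ord g1 hz1.2.2.1
    have g4 : (aa (addE (iso G0 v) u z) ord : ℚ) ≤ aa (con G0 v u) ord := by
      exact_mod_cast aa_mono g2 ord
    have g5 : (0 : ℚ) < aa (con (addE (iso G0 v) u z) u z) ord := by exact_mod_cast aa_pos _ ord
    linarith
  have f2 := mono ord hs' hKS _ (iso G0 v) rfl hJle (by omega)
  have f3 := K_bound_lt (core ord k) hs' hJS hmJ (by omega)
  obtain ⟨_, _, h3⟩ := core ord (k + 1) _ s G0 hs hGp rfl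
  obtain ⟨f4, _⟩ := h3 (by omega)
  have eA := aa_rec G0 ord hadj
  have eB := bb_rec G0 ord hadj
  have eA' := aa_add ord hnadj hne
  have eB' := be_add ord (k + 1) hnadj hne
  rw [hJ] at eA eB
  rw [← hG0] at eA' eB'
  have gA : (aa (del G0 v w) ord : ℚ) = aa G0 ord - aa (iso G0 v) ord := by
    rw [eA]; push_cast; ring
  have gB : be ord (k + 1 + 1) (del G0 v w) = be ord (k + 1 + 1) G0 - be ord (k + 1) (iso G0 v) := by
    unfold be
    rw [eA, eB]
    push_cast
    ring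
  have p1 : (0 : ℚ) < aa (del G0 v w) ord := by exact_mod_cast aa_pos _ ord
  have pJ : (0 : ℚ) < aa (iso G0 v) ord := by exact_mod_cast aa_pos _ ord
  have p0 : (0 : ℚ) < aa G0 ord := by exact_mod_cast aa_pos _ ord
  rw [gA] at p1
  rw [gA, gB, eA', eB']
  obtain ⟨A0, hA0⟩ : ∃ x : ℚ, x = aa G0 ord := ⟨_, rfl⟩
  obtain ⟨AJ, hAJ⟩ : ∃ x : ℚ, x = aa (iso G0 v) ord := ⟨_, rfl⟩
  obtain ⟨AK, hAK⟩ : ∃ x : ℚ, x = aa (con G0 v u) ord := ⟨_, rfl⟩
  obtain ⟨B0, hB0⟩ : ∃ x : ℚ, x = be ord (k + 1 + 1) G0 := ⟨_, rfl⟩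
  obtain ⟨BJ, hBJ⟩ : ∃ x : ℚ, x = be ord (k + 1) (iso G0 v) := ⟨_, rfl⟩
  obtain ⟨BK, hBK⟩ : ∃ x : ℚ, x = be ord (k + 1) (con G0 v u) := ⟨_, rfl⟩
  rw [← hAJ, ← hAK] at f1
  rw [← hAJ, ← hAK, ← hBJ, ← hBK] at f2
  rw [← hAJ, ← hBJ] at f3
  rw [← hA0, ← hB0] at f4
  rw [← hA0, ← hAJ] at p1
  rw [← hAJ] at pJ
  rw [← hA0] at p0
  rw [← hA0, ← hB0, ← hAJ, ← hBJ, ← hAK, ← hBK]
  have f5 : A0 * BJ < B0 * AJ := by
    calc A0 * BJ < A0 * (harmonic (k + 2) * AJ) := mul_lt_mul_of_pos_left f3 p0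
      _ = (harmonic (k + 1 + 1) * A0) * AJ := by ring
      _ ≤ B0 * AJ := mul_le_mul_of_nonneg_right f4 pJ.le
  have f6 : 0 < (B0 * AJ - A0 * BJ) * (AK - AJ) :=
    mul_pos (by linarith) (by linarith)
  have f7 : 0 ≤ (BJ * AK - BK * AJ) * (A0 - AJ) := mul_nonneg (by linarith) p1.le
  have f8 : AJ * ((B0 - BJ) * (A0 - AK)) < AJ * ((B0 - BK) * (A0 - AJ)) := by nlinarith
  exact lt_of_mul_lt_mul_left f8 pJ.le

end Pool.Agent.Work.MP_6229d2_co
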