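import Pool.Agent.Work.MP_6229d2_co.MaxMatching

set_option autoImplicit false

/-! The value of `M(n,k)` for `k ≥ n.choose 2 - n / 2`. -/

namespace Pool.Agent.Work.MP_6229d2_co

open scoped Classical
open Finset

/-- the matching `{0,1}, {2,3}, ...` with `t` edges -/
def mat (n t : ℕ) : SimpleGraph (Fin n) where
  Adj x y := x ≠ y ∧ x.val / 2 = y.val / 2 ∧ x.val < 2 * t
  symm := ⟨fun x y h => ⟨h.1.symm, h.2.1.symm, by have := h.2.1; have := h.2.2; omega⟩⟩
  loopless := ⟨fun _ h => h.1 rfl⟩

lemma nbr_mat {n t : ℕ} (ht : 2 * t ≤ n) (x : Fin n) :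
    (nbr (mat n t) x).card = if x.val < 2 * t then 1 else 0 := by
  split_ifs with h
  · rw [card_eq_one]
    refine ⟨⟨x.val + 1 - 2 * (x.val % 2), by omega⟩, ?_⟩
    ext y
    rw [mem_nbr, mem_singleton]
    constructor
    · rintro ⟨h1, h2, _⟩
      have h3 : x.val ≠ y.val := fun h' => h1 (Fin.ext h')
      apply Fin.ext
      show y.val = x.val + 1 - 2 * (x.val % 2)
      omega
    · rintro rfl
      refine ⟨fun h' => ?_, ?_, h⟩
      · have := congrArg Fin.val h'
        simp only at this
        omega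
      · show x.val / 2 = (x.val + 1 - 2 * (x.val % 2)) / 2
        omega
  · rw [card_eq_zero, eq_empty_iff_forall_notMem]
    intro y hy
    exact h (mem_nbr.mp hy).2.2

lemma edg_mat {n t : ℕ} (ht : 2 * t ≤ n) : (edg (mat n t)).card = t := by
  have h1 := handshake (mat n t)
  rw [sum_congr rfl fun x _ => nbr_mat ht x] at h1
  have h2 : ∑ x : Fin n, (if x.val < 2 * t then 1 else 0) = 2 * t := by
    rw [← card_filter]
    have h3 := card_filter_lt n (2 * t) ht
    exact h3
  omega

lemma ms_compl {V : Type} [Fintype V] (M : SimpleGraph V) : ms Mᶜ univ = M := by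
  ext x y
  rw [ms_adj, SimpleGraph.compl_adj]
  constructor
  · rintro ⟨_, _, h1, h2⟩
    push Not at h2
    exact h2 h1
  · intro h
    exact ⟨mem_univ _, mem_univ _, h.ne, fun h' => h'.2 h⟩

lemma ms_univ {V : Type} [Fintype V] (G : SimpleGraph V) : ms G univ = Gᶜ := by
  ext x y
  rw [ms_adj, SimpleGraph.compl_adj]
  simp

lemma edg_add_compl {V : Type} [Fintype V] (G : SimpleGraph V) :
    (edg G).card + mc G univ = (Fintype.card V).choose 2 := by
  unfold mc
  rw [ms_univ]
  have h1 : edg G ∪ edg Gᶜ = edg (⊤ : SimpleGraph V) := by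
    ext e
    rw [mem_union, mem_edg, mem_edg, mem_edg]
    induction e using Sym2.ind with
    | _ x y =>
      rw [SimpleGraph.mem_edgeSet, SimpleGraph.mem_edgeSet, SimpleGraph.mem_edgeSet,
        SimpleGraph.compl_adj, SimpleGraph.top_adj]
      constructor
      · rintro (h | h)
        · exact h.ne
        · exact h.1
      · intro h
        by_cases h' : G.Adj x y
        · exact Or.inl h'
        · exact Or.inr ⟨h, h'⟩
  have h2 : Disjoint (edg G) (edg Gᶜ) := by
    rw [disjoint_left]
    intro e he he'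
    rw [mem_edg] at he he'
    induction e using Sym2.ind with
    | _ x y =>
      rw [SimpleGraph.mem_edgeSet] at he he'
      exact he'.2 he
  rw [← card_union_of_disjoint h2, h1]
  have h3 : edg (⊤ : SimpleGraph V) = (⊤ : SimpleGraph V).edgeFinset := by
    ext e
    rw [mem_edg, SimpleGraph.mem_edgeFinset]
  rw [h3, SimpleGraph.card_edgeFinset_top_eq_card_choose_two]

/-- the value -/
noncomputable def topValue (n t : ℕ) : ℚ :=
  n - (∑ j ∈ range (t + 1), (-1) ^ j * (t.choose j : ℚ) * ((n - j).factorial * harmonic (n - j))) /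
    ∑ j ∈ range (t + 1), (-1) ^ j * (t.choose j : ℚ) * (n - j).factorial

theorem topValue_eq (n t : ℕ) : topValue n t =
    n - Df (fun m => harmonic m * m.factorial) n t / Df (fun m => (m.factorial : ℚ)) n t := by
  rw [topValue, Df_eq, Df_eq]
  congr 2
  refine sum_congr rfl fun j _ => ?_
  ring

theorem top_upper {n t : ℕ} (hn : 1 ≤ n) (ht : 2 * t ≤ n) (G : SimpleGraph (Fin n))
    (ord : LinearOrder (Sym2 (Fin n))) (hG : G.edgeSet.ncard + t = n.choose 2) :
    eps G ord ≤ topValue n t := by
  obtain ⟨m, rfl⟩ : ∃ m, n = m + 1 := ⟨n - 1, by omega⟩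
  have hm : mc G univ = t := by
    have h1 := edg_add_compl G
    rw [Fintype.card_fin] at h1
    rw [ncard_edgeSet] at hG
    omega
  have hs : (univ : Finset (Fin (m + 1))).card = m + 1 := by rw [card_univ, Fintype.card_fin]
  obtain ⟨h1, h2⟩ := match_min ord hs ht (fullset G univ).card G (fun x _ _ => mem_univ x) hm le_rfl
  have hA : (0 : ℚ) < aa G ord := by exact_mod_cast aa_pos G ord
  rw [eps_eq, topValue_eq, Fintype.card_fin]
  have h3 : be ord (m + 1) G = bb G ord := by
    unfold be
    rw [Fintype.card_fin]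
    simp
  rw [h3] at h2
  have h4 : Df (fun m => harmonic m * m.factorial) (m + 1) t /
      Df (fun m => (m.factorial : ℚ)) (m + 1) t ≤ bb G ord / aa G ord := by
    rw [div_le_div_iff₀ h1 hA]
    exact h2
  linarith

theorem top_unique {n t : ℕ} (hn : 1 ≤ n) (ht : 2 * t ≤ n) (G : SimpleGraph (Fin n))
    (ord : LinearOrder (Sym2 (Fin n))) (hG : G.edgeSet.ncard + t = n.choose 2)
    (heq : eps G ord = topValue n t) (x y z : Fin n) (hy : Gᶜ.Adj x y) (hz : Gᶜ.Adj x z) :
    y = z := by
  by_contra hne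
  obtain ⟨m, rfl⟩ : ∃ m, n = m + 1 := ⟨n - 1, by omega⟩
  have hm : mc G univ = t := by
    have h1 := edg_add_compl G
    rw [Fintype.card_fin] at h1
    rw [ncard_edgeSet] at hG
    omega
  have hs : (univ : Finset (Fin (m + 1))).card = m + 1 := by rw [card_univ, Fintype.card_fin]
  rw [← ms_univ] at hy hz
  have h2 := match_strict ord hs ht (fun x _ _ => mem_univ x) hm hy hz hne
  obtain ⟨h1, _⟩ := match_min ord hs ht (fullset G univ).card G (fun x _ _ => mem_univ x) hm le_rfl
  have hA : (0 : ℚ) < aa G ord := by exact_mod_cast aa_pos G ord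
  rw [eps_eq, topValue_eq, Fintype.card_fin] at heq
  have h3 : be ord (m + 1) G = bb G ord := by
    unfold be
    rw [Fintype.card_fin]
    simp
  rw [h3] at h2
  have h4 : Df (fun m => harmonic m * m.factorial) (m + 1) t /
      Df (fun m => (m.factorial : ℚ)) (m + 1) t < bb G ord / aa G ord := by
    rw [div_lt_div_iff₀ h1 hA]
    exact h2
  linarith

/-- every complement of a matching has the same value -/
theorem top_of_matching {n t : ℕ} (G : SimpleGraph (Fin n))
    (ord : LinearOrder (Sym2 (Fin n))) (hG : G.edgeSet.ncard + t = n.choose 2)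
    (hmat : ∀ x y z : Fin n, Gᶜ.Adj x y → Gᶜ.Adj x z → y = z) : eps G ord = topValue n t := by
  have hm : mc G univ = t := by
    have h1 := edg_add_compl G
    rw [Fintype.card_fin] at h1
    rw [ncard_edgeSet] at hG
    omega
  obtain ⟨h1, h2⟩ := match_val ord t n univ G (by rw [card_univ, Fintype.card_fin])
    (fun x _ _ => mem_univ x) hm (fun x => by
      rw [ms_univ, card_le_one]
      intro y hy z hz
      exact hmat x y z (mem_nbr.mp hy) (mem_nbr.mp hz))
  rw [eps_eq, topValue_eq, ← h1, ← h2, Fintype.card_fin]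
  unfold be
  rw [Fintype.card_fin]
  simp

theorem top_attained {n t : ℕ} (hn : 4 ≤ n) (ht : 2 * t ≤ n) :
    (mat n t)ᶜ.Connected ∧ (mat n t)ᶜ.edgeSet.ncard + t = n.choose 2 ∧
      ∀ ord, eps (mat n t)ᶜ ord = topValue n t := by
  have hmc : mc (mat n t)ᶜ univ = t := by
    unfold mc
    rw [ms_compl, edg_mat ht]
  refine ⟨?_, ?_, fun ord => ?_⟩
  · have hne : Nonempty (Fin n) := ⟨⟨0, by omega⟩⟩
    refine ⟨fun x y => ?_⟩
    by_cases hxy : x = y
    · rw [hxy]
    by_cases hadj : (mat n t).Adj x y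
    · -- a vertex of another pair
      obtain ⟨z, hz⟩ : ∃ z : Fin n, z.val / 2 ≠ x.val / 2 := by
        by_cases h0 : x.val / 2 = 0
        · exact ⟨⟨2, by omega⟩, by show 2 / 2 ≠ x.val / 2; omega⟩
        · exact ⟨⟨0, by omega⟩, by show 0 / 2 ≠ x.val / 2; omega⟩
      have h1 : (mat n t)ᶜ.Adj x z := by
        rw [SimpleGraph.compl_adj]
        refine ⟨fun h => hz (by rw [h]), fun h => hz h.2.1.symm⟩
      have h2 : (mat n t)ᶜ.Adj z y := by
        rw [SimpleGraph.compl_adj]
        have := hadj.2.1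
        refine ⟨fun h => hz (by rw [h]; exact this.symm), fun h => hz (h.2.1.trans this.symm)⟩
      exact h1.reachable.trans h2.reachable
    · have h1 : (mat n t)ᶜ.Adj x y := by
        rw [SimpleGraph.compl_adj]
        exact ⟨hxy, hadj⟩
      exact h1.reachable
  · have h1 := edg_add_compl (mat n t)ᶜ
    rw [Fintype.card_fin, hmc] at h1
    rw [ncard_edgeSet]
    exact h1
  · obtain ⟨h1, h2⟩ := match_val ord t n univ (mat n t)ᶜ (by rw [card_univ, Fintype.card_fin])
      (fun x _ _ => mem_univ x) hmc (fun x => by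
        rw [ms_compl, nbr_mat ht]
        split_ifs <;> omega)
    rw [eps_eq, topValue_eq, ← h1, ← h2, Fintype.card_fin]
    unfold be
    rw [Fintype.card_fin]
    simp

end Pool.Agent.Work.MP_6229d2_co
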