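import Pool.Agent.Work.MP_6229d2_co.Max

set_option autoImplicit false

/-! Complements of matchings have the largest `ε`. -/

namespace Pool.Agent.Work.MP_6229d2_co

open scoped Classical
open Finset

variable {V : Type} [Fintype V]

/-- iterated differences -/
def Df (f : ℕ → ℚ) : ℕ → ℕ → ℚ
  | n, 0 => f n
  | n, (t + 1) => Df f n t - Df f (n - 1) t

lemma Df_eq (f : ℕ → ℚ) : ∀ t n : ℕ,
    Df f n t = ∑ j ∈ range (t + 1), (-1) ^ j * (t.choose j : ℚ) * f (n - j) := by
  intro t
  induction t with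
  | zero => intro n; simp [Df]
  | succ t ih =>
    intro n
    rw [Df, ih, ih]
    rw [sum_range_succ' (fun j => (-1 : ℚ) ^ j * ((t + 1).choose j : ℚ) * f (n - j))]
    have h1 : ∀ j ∈ range (t + 1), (-1 : ℚ) ^ (j + 1) * ((t + 1).choose (j + 1) : ℚ) * f (n - (j + 1)) =
        -((-1) ^ j * (t.choose j : ℚ) * f (n - 1 - j)) +
          (-1) ^ (j + 1) * (t.choose (j + 1) : ℚ) * f (n - (j + 1)) := by
      intro j _
      rw [Nat.choose_succ_succ, show n - (j + 1) = n - 1 - j by omega]
      push_cast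
      ring
    rw [sum_congr rfl h1, sum_add_distrib, sum_neg_distrib]
    have h2 : ∑ j ∈ range (t + 1), (-1 : ℚ) ^ j * (t.choose j : ℚ) * f (n - j) =
        ∑ j ∈ range (t + 1), (-1 : ℚ) ^ (j + 1) * (t.choose (j + 1) : ℚ) * f (n - (j + 1)) +
          f n := by
      have h3 := sum_range_succ' (fun j => (-1 : ℚ) ^ j * (t.choose j : ℚ) * f (n - j)) (t + 1)
      have h4 := sum_range_succ (fun j => (-1 : ℚ) ^ j * (t.choose j : ℚ) * f (n - j)) (t + 1)
      rw [Nat.choose_succ_self] at h4
      simp only [Nat.cast_zero, mul_zero, zero_mul, add_zero] at h4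
      rw [← h4, h3]
      simp
    rw [h2]
    simp
    ring

omit [Fintype V] in
lemma ms_addE_le (G : SimpleGraph V) (s : Finset V) (a b : V) : ms (addE G a b) s ≤ ms G s :=
  fun _ _ h => ⟨h.1, h.2.1, h.2.2.1, fun h' => h.2.2.2 (Or.inl h')⟩

lemma nbr_mono {G H : SimpleGraph V} (h : G ≤ H) (x : V) : nbr G x ⊆ nbr H x := by
  intro y hy
  rw [mem_nbr] at hy ⊢
  exact h hy

/-- the value for a matching -/
theorem match_val (ord : LinearOrder (Sym2 V)) : ∀ (t n : ℕ) (s : Finset V) (G : SimpleGraph V),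
    s.card = n → InS G s → mc G s = t → (∀ x, (nbr (ms G s) x).card ≤ 1) →
      (aa G ord : ℚ) = Df (fun m => (m.factorial : ℚ)) n t ∧
        be ord n G = Df (fun m => harmonic m * m.factorial) n t := by
  intro t
  induction t with
  | zero =>
    intro n s G hs hG hm _
    exact complete_val ord n s G hs hG hm
  | succ t ih =>
    intro n s G hs hG hm hmat
    obtain ⟨a, b, hab⟩ := exists_missing (G := G) (s := s) (by omega)
    have hmp : mc (addE G a b) s = t := by have := mc_addE hab; omega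
    have hab' := hab
    obtain ⟨ha, hb, hne, hnadj⟩ := hab
    obtain ⟨m, rfl⟩ : ∃ m, n = m + 1 := by
      refine ⟨n - 1, ?_⟩
      have h2 : 1 < s.card := one_lt_card.mpr ⟨a, ha, b, hb, hne⟩
      omega
    have hGp : InS (addE G a b) s := addE_inS hG ha hb
    have hmat' : ∀ x, (nbr (ms (addE G a b) s) x).card ≤ 1 := fun x =>
      (card_le_card (nbr_mono (ms_addE_le G s a b) x)).trans (hmat x)
    obtain ⟨i1, i2⟩ := ih (m + 1) s (addE G a b) hs hGp hmp hmat'
    -- `a` and `b` have no missing edge any more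
    have honly : ∀ x y z, (ms G s).Adj x y → (ms G s).Adj x z → y = z := by
      intro x y z hy hz
      exact card_le_one.mp (hmat x) y (mem_nbr.mpr hy) z (mem_nbr.mpr hz)
    have hfull : ∀ x ∈ s, x ≠ b → (addE G a b).Adj b x := by
      intro x hx hxb
      by_contra hcon
      have h1 : (ms G s).Adj b x := ⟨hb, hx, hxb.symm, fun h => hcon (Or.inl h)⟩
      have h2 := honly b x a h1 hab'.symm
      subst h2
      exact hcon (addE_self hne).symm
    have hcon : con (addE G a b) a b = iso (addE G a b) a := con_eq_iso hGp hfull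
    have hs' : (s.erase a).card = m := by rw [card_erase_of_mem ha, hs]; rfl
    have hdeg : nbr (ms (addE G a b) s) a = ∅ := by
      rw [eq_empty_iff_forall_notMem]
      intro x hx
      rw [mem_nbr] at hx
      have h1 := honly a x b (ms_addE_le G s a b hx) hab'
      subst h1
      exact hx.2.2.2 (addE_self hne)
    have hmi : mc (iso (addE G a b) a) (s.erase a) = t := by
      have := mc_iso (addE G a b) s a
      rw [hdeg, card_empty] at this
      omega
    obtain ⟨j1, j2⟩ := ih m (s.erase a) (iso (addE G a b) a) hs' (iso_inS' hGp) hmi (by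
      intro x
      rw [ms_iso]
      exact (card_le_card (nbr_mono (iso_le _ a) x)).trans (hmat' x))
    have eA := aa_add ord hnadj hne
    have eB := be_add ord m hnadj hne
    rw [hcon] at eA eB
    rw [eA, eB, i1, i2, j1, j2]
    exact ⟨rfl, rfl⟩

/-- the vertices without missing edges -/
noncomputable def fullset (G : SimpleGraph V) (s : Finset V) : Finset V :=
  s.filter fun w => ∀ x ∈ s, x ≠ w → G.Adj w x

lemma mem_fullset {G : SimpleGraph V} {s : Finset V} {w : V} :
    w ∈ fullset G s ↔ w ∈ s ∧ ∀ x ∈ s, x ≠ w → G.Adj w x := by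
  unfold fullset
  rw [mem_filter]

lemma handshake (M : SimpleGraph V) : ∑ x, (nbr M x).card = 2 * (edg M).card := by
  have h1 := M.sum_degrees_eq_twice_card_edges
  have h2 : edg M = M.edgeFinset := by
    ext e
    rw [mem_edg, SimpleGraph.mem_edgeFinset]
  rw [h2, ← h1]
  refine sum_congr rfl fun x _ => ?_
  rw [← SimpleGraph.card_neighborFinset_eq_degree]
  congr 1
  ext y
  rw [mem_nbr, SimpleGraph.mem_neighborFinset]

/-- a vertex without missing edges exists -/
lemma exists_full {G : SimpleGraph V} {s : Finset V} (ht : 2 * mc G s ≤ s.card) {u : V}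
    (hu : 2 ≤ (nbr (ms G s) u).card) : ∃ w, w ∈ fullset G s := by
  by_contra hcon
  push Not at hcon
  have hus : u ∈ s := by
    obtain ⟨x, hx⟩ := card_pos.mp (by omega : 0 < (nbr (ms G s) u).card)
    exact (mem_nbr.mp hx).1
  have h1 : ∀ x ∈ s, 1 ≤ (nbr (ms G s) x).card := by
    intro x hx
    have h2 := hcon x
    rw [mem_fullset] at h2
    push Not at h2
    obtain ⟨y, hy, hyx, hadj⟩ := h2 hx
    rw [Nat.one_le_iff_ne_zero, ← Nat.pos_iff_ne_zero, card_pos]
    exact ⟨y, mem_nbr.mpr ⟨hx, hy, hyx.symm, hadj⟩⟩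
  have h2 : s.card + 1 ≤ ∑ x ∈ s, (nbr (ms G s) x).card := by
    rw [← add_sum_erase s _ hus]
    have h3 : (s.erase u).card ≤ ∑ x ∈ s.erase u, (nbr (ms G s) x).card := by
      rw [card_eq_sum_ones]
      exact sum_le_sum fun x hx => h1 x (mem_of_mem_erase hx)
    have h4 := card_erase_add_one hus
    omega
  have h3 : ∑ x ∈ s, (nbr (ms G s) x).card ≤ ∑ x, (nbr (ms G s) x).card :=
    sum_le_sum_of_subset (subset_univ s)
  rw [handshake] at h3
  unfold mc at ht
  omega

/-- **the lower bound for the number of components** -/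
theorem match_min (ord : LinearOrder (Sym2 V)) {n : ℕ} {s : Finset V} (hs : s.card = n + 1)
    {t : ℕ} (ht : 2 * t ≤ n + 1) : ∀ (z : ℕ) (G : SimpleGraph V), InS G s → mc G s = t →
    (fullset G s).card ≤ z →
    0 < Df (fun m => (m.factorial : ℚ)) (n + 1) t ∧
    Df (fun m => harmonic m * m.factorial) (n + 1) t * aa G ord ≤
      be ord (n + 1) G * Df (fun m => (m.factorial : ℚ)) (n + 1) t := by
  intro z
  induction z with
  | zero =>
    intro G hG hm hz
    have hmat : ∀ x, (nbr (ms G s) x).card ≤ 1 := by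
      intro x
      by_contra hcon
      obtain ⟨w, hw⟩ := exists_full (G := G) (s := s) (by omega) (u := x) (by omega)
      have := card_pos.mpr ⟨w, hw⟩
      omega
    obtain ⟨h1, h2⟩ := match_val ord t (n + 1) s G hs hG hm hmat
    have hA : (0 : ℚ) < aa G ord := by exact_mod_cast aa_pos G ord
    rw [← h1, ← h2]
    exact ⟨hA, le_rfl⟩
  | succ z ih =>
    intro G hG hm hz
    by_cases hmat : ∀ x, (nbr (ms G s) x).card ≤ 1
    · obtain ⟨h1, h2⟩ := match_val ord t (n + 1) s G hs hG hm hmat
      have hA : (0 : ℚ) < aa G ord := by exact_mod_cast aa_pos G ord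
      rw [← h1, ← h2]
      exact ⟨hA, le_rfl⟩
    · push Not at hmat
      obtain ⟨u, hu⟩ := hmat
      obtain ⟨w, hw⟩ := exists_full (G := G) (s := s) (by omega) (u := u) (by omega)
      obtain ⟨hws, hfull⟩ := mem_fullset.mp hw
      obtain ⟨v, hv, v', hv', hvv'⟩ := one_lt_card.mp hu
      rw [mem_nbr] at hv hv'
      have hvu : (ms G s).Adj v u := hv.symm
      have hvw : v ≠ w := by
        rintro rfl
        exact hvu.2.2.2 (hfull u hvu.2.1 hvu.2.2.1.symm)
      have huw : u ≠ w := by
        rintro rfl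
        exact hv.2.2.2 (hfull v hv.2.1 hv.2.2.1.symm)
      have hmove := move ord hs hG (by omega) hvu hfull hvw
      have hGp : InS (addE G v u) s := addE_inS hG hvu.1 hvu.2.1
      have hadj : (addE G v u).Adj v w := Or.inl (hfull v hvu.1 hvw).symm
      have hG' : InS (del (addE G v u) v w) s := fun x y h => hGp x y h.1
      have hmiss : (ms (del (addE G v u) v w) s).Adj v w :=
        ⟨hvu.1, hws, hvw, fun h => h.2.1 ⟨rfl, rfl⟩⟩
      have hm' : mc (del (addE G v u) v w) s = t := by
        have h1 := mc_addE hmiss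
        rw [addE_del hadj] at h1
        have h2 := mc_addE hvu
        omega
      have hfl : fullset (del (addE G v u) v w) s ⊆ (fullset G s).erase w := by
        intro x hx
        obtain ⟨hxs, hxf⟩ := mem_fullset.mp hx
        have hxw : x ≠ w := by
          rintro rfl
          exact (hxf v hvu.1 hvw).2.2 ⟨rfl, rfl⟩
        have hxv : x ≠ v := by
          rintro rfl
          exact (hxf w hws hvw.symm).2.1 ⟨rfl, rfl⟩
        have hxu : x ≠ u := by
          rintro rfl
          rcases (hxf v' hv'.2.1 hv'.2.2.1.symm).1 with h | ⟨_, ⟨h1, h2⟩ | ⟨h1, h2⟩⟩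
          · exact hv'.2.2.2 h
          · exact hvu.2.2.1 h1.symm
          · exact hvv' h2.symm
        refine mem_erase.mpr ⟨hxw, mem_fullset.mpr ⟨hxs, fun y hy hyx => ?_⟩⟩
        rcases (hxf y hy hyx).1 with h | ⟨_, ⟨h1, _⟩ | ⟨h1, _⟩⟩
        · exact h
        · exact absurd h1 hxv
        · exact absurd h1 hxu
      have hcard : (fullset (del (addE G v u) v w) s).card ≤ z := by
        have h1 := card_le_card hfl
        rw [card_erase_of_mem hw] at h1
        omega
      obtain ⟨h1, h2⟩ := ih _ hG' hm' hcard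
      refine ⟨h1, ?_⟩
      have p1 : (0 : ℚ) < aa (del (addE G v u) v w) ord := by exact_mod_cast aa_pos _ ord
      have p2 : (0 : ℚ) < aa G ord := by exact_mod_cast aa_pos _ ord
      refine le_of_mul_le_mul_right ?_ p1
      calc Df (fun m => harmonic m * m.factorial) (n + 1) t * aa G ord *
            aa (del (addE G v u) v w) ord
          = (Df (fun m => harmonic m * m.factorial) (n + 1) t *
              aa (del (addE G v u) v w) ord) * aa G ord := by ring
        _ ≤ (be ord (n + 1) (del (addE G v u) v w) *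
              Df (fun m => (m.factorial : ℚ)) (n + 1) t) * aa G ord :=
            mul_le_mul_of_nonneg_right h2 p2.le
        _ = (be ord (n + 1) (del (addE G v u) v w) * aa G ord) *
              Df (fun m => (m.factorial : ℚ)) (n + 1) t := by ring
        _ ≤ (be ord (n + 1) G * aa (del (addE G v u) v w) ord) *
              Df (fun m => (m.factorial : ℚ)) (n + 1) t :=
            mul_le_mul_of_nonneg_right hmove h1.le
        _ = _ := by ring

lemma move_props {G : SimpleGraph V} {s : Finset V} (hG : InS G s) {u v w : V}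
    (hvu : (ms G s).Adj v u) (hw : w ∈ fullset G s) (hvw : v ≠ w) :
    InS (del (addE G v u) v w) s ∧ mc (del (addE G v u) v w) s = mc G s := by
  obtain ⟨hws, hfull⟩ := mem_fullset.mp hw
  have hGp : InS (addE G v u) s := addE_inS hG hvu.1 hvu.2.1
  have hadj : (addE G v u).Adj v w := Or.inl (hfull v hvu.1 hvw).symm
  have hmiss : (ms (del (addE G v u) v w) s).Adj v w :=
    ⟨hvu.1, hws, hvw, fun h => h.2.1 ⟨rfl, rfl⟩⟩
  refine ⟨fun x y h => hGp x y h.1, ?_⟩
  have h1 := mc_addE hmiss
  rw [addE_del hadj] at h1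
  have h2 := mc_addE hvu
  omega

lemma two_nbrs {G : SimpleGraph V} {s : Finset V} {u v z : V} (h1 : (ms G s).Adj u v)
    (h2 : (ms G s).Adj u z) (h3 : z ≠ v) : 2 ≤ (nbr (ms G s) u).card :=
  one_lt_card.mpr ⟨z, mem_nbr.mpr h2, v, mem_nbr.mpr h1, h3⟩

/-- combination of a move and a bound -/
lemma combine {a b c d x y : ℚ} (hc : 0 < c) (hd : 0 < d) (hy : 0 < y) (h1 : x * c < b * y)
    (h2 : b * d ≤ a * c) : x * d < a * y := by
  refine lt_of_mul_lt_mul_right ?_ hc.le
  calc x * d * c = (x * c) * d := by ring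
    _ < (b * y) * d := mul_lt_mul_of_pos_right h1 hd
    _ = (b * d) * y := by ring
    _ ≤ (a * c) * y := mul_le_mul_of_nonneg_right h2 hy.le
    _ = _ := by ring

lemma combine' {a b c d x y : ℚ} (hc : 0 < c) (hd : 0 < d) (hy : 0 < y) (h1 : x * c ≤ b * y)
    (h2 : b * d < a * c) : x * d < a * y := by
  refine lt_of_mul_lt_mul_right ?_ hc.le
  calc x * d * c = (x * c) * d := by ring
    _ ≤ (b * y) * d := mul_le_mul_of_nonneg_right h1 hd.le
    _ = (b * d) * y := by ring
    _ < (a * c) * y := mul_lt_mul_of_pos_right h2 hy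
    _ = _ := by ring

/-- strictness when the missing edges contain an induced path with three vertices -/
lemma strict_path (ord : LinearOrder (Sym2 V)) {n : ℕ} {s : Finset V} (hs : s.card = n + 1)
    {t : ℕ} (ht : 2 * t ≤ n + 1) {G : SimpleGraph V} (hG : InS G s) (hm : mc G s = t) {u v z : V}
    (huv : (ms G s).Adj v u) (huz : (ms G s).Adj u z) (hzv : z ≠ v) (hvz : ¬ (ms G s).Adj v z) :
    Df (fun m => harmonic m * m.factorial) (n + 1) t * aa G ord <
      be ord (n + 1) G * Df (fun m => (m.factorial : ℚ)) (n + 1) t := by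
  obtain ⟨w, hw⟩ := exists_full (G := G) (s := s) (by omega) (two_nbrs huv.symm huz hzv)
  obtain ⟨hws, hfull⟩ := mem_fullset.mp hw
  have hvw : v ≠ w := by
    rintro rfl
    exact huv.2.2.2 (hfull u huv.2.1 huv.2.2.1.symm)
  obtain ⟨p1, p2⟩ := move_props hG huv hw hvw
  obtain ⟨m1, m2⟩ := match_min ord hs ht _ (del (addE G v u) v w) p1 (p2.trans hm) le_rfl
  have hmove := move_lt ord hs hG (by omega) huv hfull hvw huz hzv hvz
  have q1 : (0 : ℚ) < aa (del (addE G v u) v w) ord := by exact_mod_cast aa_pos _ ord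
  have q2 : (0 : ℚ) < aa G ord := by exact_mod_cast aa_pos _ ord
  exact combine' q1 q2 m1 m2 hmove

/-- strictness when the missing edges are not a matching -/
theorem match_strict (ord : LinearOrder (Sym2 V)) {n : ℕ} {s : Finset V} (hs : s.card = n + 1)
    {t : ℕ} (ht : 2 * t ≤ n + 1) {G : SimpleGraph V} (hG : InS G s) (hm : mc G s = t) {u v v' : V}
    (hv : (ms G s).Adj u v) (hv' : (ms G s).Adj u v') (hvv' : v ≠ v') :
    Df (fun m => harmonic m * m.factorial) (n + 1) t * aa G ord <
      be ord (n + 1) G * Df (fun m => (m.factorial : ℚ)) (n + 1) t := by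
  by_cases hadj : (ms G s).Adj v v'
  · obtain ⟨w, hw⟩ := exists_full (G := G) (s := s) (by omega) (two_nbrs hv hv' hvv'.symm)
    obtain ⟨hws, hfull⟩ := mem_fullset.mp hw
    have hvu : (ms G s).Adj v u := hv.symm
    have hvw : v ≠ w := by
      rintro rfl
      exact hvu.2.2.2 (hfull u hvu.2.1 hvu.2.2.1.symm)
    have huw : u ≠ w := by
      rintro rfl
      exact hv.2.2.2 (hfull v hv.2.1 hv.2.2.1.symm)
    obtain ⟨p1, p2⟩ := move_props hG hvu hw hvw
    have hmove := move ord hs hG (by omega) hvu hfull hvw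
    have h1 : (ms (del (addE G v u) v w) s).Adj u v' := by
      refine ⟨hv'.1, hv'.2.1, hv'.2.2.1, ?_⟩
      rintro ⟨h | ⟨_, ⟨h1, h2⟩ | ⟨h1, h2⟩⟩, _⟩
      · exact hv'.2.2.2 h
      · exact hvu.2.2.1 h1.symm
      · exact hvv' h2.symm
    have h2 : (ms (del (addE G v u) v w) s).Adj v' v := by
      refine ⟨hadj.2.1, hadj.1, hadj.2.2.1.symm, ?_⟩
      rintro ⟨h | ⟨_, ⟨h1, h2⟩ | ⟨h1, h2⟩⟩, _⟩
      · exact hadj.2.2.2 h.symm
      · exact hvv' h1.symm
      · exact hv'.2.2.1 h1.symm
    have h3 : ¬ (ms (del (addE G v u) v w) s).Adj u v := by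
      rintro ⟨_, _, _, h⟩
      refine h ⟨(addE_self hvu.2.2.1).symm, ?_, ?_⟩
      · rintro ⟨h4, _⟩; exact hvu.2.2.1 h4.symm
      · rintro ⟨h4, _⟩; exact huw h4
    have h4 := strict_path ord hs ht p1 (p2.trans hm) h1 h2 hvu.2.2.1 h3
    obtain ⟨m1, _⟩ := match_min ord hs ht _ (del (addE G v u) v w) p1 (p2.trans hm) le_rfl
    have q1 : (0 : ℚ) < aa (del (addE G v u) v w) ord := by exact_mod_cast aa_pos _ ord
    have q2 : (0 : ℚ) < aa G ord := by exact_mod_cast aa_pos _ ord
    exact combine q1 q2 m1 h4 hmove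
  · exact strict_path ord hs ht hG hm hv.symm hv' hvv'.symm hadj

end Pool.Agent.Work.MP_6229d2_co
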