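import Pool.Agent.Work.MP_6229d2_co.Extremal

set_option autoImplicit false

/-! Broken-cycle-free sets of subcubic graphs of large girth. -/

namespace Pool.Agent.Work.MP_6229d2_co

open scoped Classical
open Finset

variable {V : Type} [Fintype V]

/-! ### The path of a cycle around one of its edges -/

omit [Fintype V] in
lemma cycle_path {G : SimpleGraph V} {v : V} (c : G.Walk v v) (hc : c.IsCycle) {x y : V}
    (he : s(x, y) ∈ c.edges) :
    ∃ p : G.Walk x y, p.IsPath ∧ s(x, y) ∉ p.edges ∧ ∀ e ∈ p.edges, e ∈ c.edges := by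
  obtain ⟨H, hH⟩ : ∃ H : SimpleGraph V, H = SimpleGraph.fromEdgeSet {e | e ∈ c.edges} := ⟨_, rfl⟩
  have hedge : ∀ e, e ∈ H.edgeSet ↔ e ∈ c.edges := by
    intro e
    rw [hH, SimpleGraph.edgeSet_fromEdgeSet]
    constructor
    · intro h; exact h.1
    · intro h
      refine ⟨h, ?_⟩
      intro hd
      exact G.not_isDiag_of_mem_edgeSet (c.edges_subset_edgeSet h) hd
  have h1 : ∃ (u : V) (q : H.Walk u u), q.IsCycle ∧ s(x, y) ∈ q.edges := by
    refine ⟨v, c.transfer H fun e h => (hedge e).mpr h, hc.transfer _, ?_⟩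
    rw [SimpleGraph.Walk.edges_transfer]
    exact he
  obtain ⟨_, h2⟩ := SimpleGraph.adj_and_reachable_delete_edges_iff_exists_cycle.mpr h1
  rw [SimpleGraph.reachable_deleteEdges_iff_exists_walk] at h2
  obtain ⟨p, hp⟩ := h2
  have hpG : ∀ e ∈ (p.toPath : H.Walk x y).edges, e ∈ G.edgeSet := fun e h =>
    c.edges_subset_edgeSet ((hedge e).mp ((p.toPath : H.Walk x y).edges_subset_edgeSet h))
  refine ⟨(p.toPath : H.Walk x y).transfer G hpG, p.toPath.2.transfer _, ?_, ?_⟩
  · rw [SimpleGraph.Walk.edges_transfer]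
    intro h
    exact hp (p.edges_toPath_subset_edges h)
  · intro e h
    rw [SimpleGraph.Walk.edges_transfer] at h
    exact (hedge e).mp ((p.toPath : H.Walk x y).edges_subset_edgeSet h)

/-! ### Long paths -/

/-- the edge set `F` contains a path of `G` of length `L` that starts at `v` and avoids `X` -/
def LongP (G : SimpleGraph V) (F : Finset (Sym2 V)) : ℕ → Finset V → V → Prop
  | 0, _, _ => True
  | L + 1, X, v => ∃ c, G.Adj v c ∧ s(v, c) ∈ F ∧ c ∉ insert v X ∧ LongP G F L (insert v X) c

omit [Fintype V] in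
lemma LongP_mono {G : SimpleGraph V} {F F' : Finset (Sym2 V)} (h : F ⊆ F') : ∀ (L : ℕ)
    (X : Finset V) (v : V), LongP G F L X v → LongP G F' L X v := by
  intro L
  induction L with
  | zero => intro X v _; trivial
  | succ L ih =>
    rintro X v ⟨c, h1, h2, h3, h4⟩
    exact ⟨c, h1, h h2, h3, ih _ _ h4⟩

omit [Fintype V] in
/-- edges at a vertex of `X` play no role -/
lemma LongP_indep {G : SimpleGraph V} {F F' : Finset (Sym2 V)} {u : V}
    (h : ∀ e, u ∉ e → (e ∈ F ↔ e ∈ F')) : ∀ (L : ℕ)
    (X : Finset V) (v : V), u ∈ X → v ∉ X → LongP G F L X v → LongP G F' L X v := by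
  intro L
  induction L with
  | zero => intro X v _ _ _; trivial
  | succ L ih =>
    rintro X v hu hv ⟨c, h1, h2, h3, h4⟩
    have hcX : c ∉ X := fun h' => h3 (mem_insert_of_mem h')
    refine ⟨c, h1, (h _ ?_).mp h2, h3, ih _ _ (mem_insert_of_mem hu) h3 h4⟩
    rw [Sym2.mem_iff]
    rintro (rfl | rfl)
    · exact hv hu
    · exact hcX hu

omit [Fintype V] in
/-- a sequence of vertices gives a long path -/
lemma LongP_of_seq {G : SimpleGraph V} {F : Finset (Sym2 V)} : ∀ (L : ℕ) (X : Finset V) (a : ℕ → V),
    (∀ j < L, G.Adj (a j) (a (j + 1)) ∧ s(a j, a (j + 1)) ∈ F) →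
    (∀ i j, i ≤ L → j ≤ L → a i = a j → i = j) → (∀ j, 1 ≤ j → j ≤ L → a j ∉ X) →
    LongP G F L X (a 0) := by
  intro L
  induction L with
  | zero => intro X a _ _ _; trivial
  | succ L ih =>
    intro X a h1 h2 h3
    refine ⟨a 1, (h1 0 (by omega)).1, (h1 0 (by omega)).2, ?_, ?_⟩
    · rw [mem_insert, not_or]
      refine ⟨fun h => ?_, h3 1 le_rfl (by omega)⟩
      have := h2 1 0 (by omega) (by omega) h
      omega
    · refine ih (insert (a 0) X) (fun j => a (j + 1)) (fun j hj => h1 (j + 1) (by omega))
        (fun i j hi hj h => ?_) (fun j hj1 hj2 => ?_)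
      · have := h2 (i + 1) (j + 1) (by omega) (by omega) h
        omega
      · rw [mem_insert, not_or]
        refine ⟨fun h => ?_, h3 (j + 1) (by omega) (by omega)⟩
        have := h2 (j + 1) 0 (by omega) (by omega) h
        omega

omit [Fintype V] in
/-- a long path with at most one bad edge contains a long good path at one of its ends -/
lemma split_path {G : SimpleGraph V} {F : Finset (Sym2 V)} {f : Sym2 V} {x y : V} (p : G.Walk x y)
    (hp : p.IsPath) (hF : ∀ e ∈ p.edges, e ≠ f → e ∈ F) {L : ℕ} (hL : 2 * L ≤ p.length) :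
    LongP G F L {y} x ∨ LongP G F L {x} y := by
  obtain ⟨m, hm⟩ : ∃ m, m = p.length := ⟨_, rfl⟩
  have hinj : ∀ i j, i ≤ m → j ≤ m → p.getVert i = p.getVert j → i = j := by
    intro i j hi hj h
    exact hp.getVert_injOn (by simpa using hm ▸ hi) (by simpa using hm ▸ hj) h
  have hadj : ∀ i < m, G.Adj (p.getVert i) (p.getVert (i + 1)) := fun i hi =>
    p.adj_getVert_succ (hm ▸ hi)
  have hedge : ∀ i < m, s(p.getVert i, p.getVert (i + 1)) ∈ p.edges := by
    intro i hi
    rw [SimpleGraph.Walk.mk_mem_edges_iff_exists]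
    exact ⟨i, hm ▸ hi, rfl⟩
  have h0 : p.getVert 0 = x := p.getVert_zero
  have hmy : p.getVert m = y := by rw [hm]; exact p.getVert_length
  by_cases hall : ∀ j < L, s(p.getVert j, p.getVert (j + 1)) ≠ f
  · left
    rw [← h0]
    refine LongP_of_seq L {y} p.getVert (fun j hj => ⟨hadj j (by omega), hF _ (hedge j (by omega))
      (hall j hj)⟩) (fun i j hi hj h => hinj i j (by omega) (by omega) h) (fun j hj1 hj2 h => ?_)
    have h' := mem_singleton.mp h
    have := hinj j m (by omega) le_rfl (h'.trans hmy.symm)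
    omega
  · right
    push Not at hall
    obtain ⟨i, hi, hif⟩ := hall
    have e0 : y = (fun j => p.getVert (m - j)) 0 := by simp [hmy]
    rw [e0]
    refine LongP_of_seq L {x} (fun j => p.getVert (m - j)) (fun j hj => ?_)
      (fun i j hi hj h => ?_) (fun j hj1 hj2 h => ?_)
    · have e1 : m - j = (m - (j + 1)) + 1 := by omega
      have h1 := hadj (m - (j + 1)) (by omega)
      have h2 := hedge (m - (j + 1)) (by omega)
      rw [← e1] at h1 h2
      refine ⟨h1.symm, ?_⟩
      show s(p.getVert (m - j), p.getVert (m - (j + 1))) ∈ F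
      rw [Sym2.eq_swap]
      refine hF _ h2 fun h3 => ?_
      rw [← hif, Sym2.eq_iff] at h3
      rcases h3 with ⟨h3, _⟩ | ⟨h3, h4⟩
      · have := hinj _ _ (by omega) (by omega) h3
        omega
      · have := hinj _ _ (by omega) (by omega) h3
        have := hinj _ _ (by omega) (by omega) h4
        omega
    · have := hinj _ _ (by omega) (by omega) h
      omega
    · have h' : p.getVert (m - j) = x := mem_singleton.mp h
      have := hinj _ _ (by omega) (by omega) (h'.trans h0.symm)
      omega

/-! ### The fair coin measure -/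

/-- the probability of a family of edge sets -/
noncomputable def pr (U : Finset (Finset (Sym2 V))) : ℚ := U.card / 2 ^ Fintype.card (Sym2 V)

lemma pr_nonneg (U : Finset (Finset (Sym2 V))) : 0 ≤ pr U := by unfold pr; positivity

lemma pr_mono {U U' : Finset (Finset (Sym2 V))} (h : U ⊆ U') : pr U ≤ pr U' := by
  unfold pr
  gcongr

lemma pr_univ : pr (univ : Finset (Finset (Sym2 V))) = 1 := by
  unfold pr
  rw [card_univ, Fintype.card_finset]
  push_cast
  exact div_self (by positivity)

lemma pr_union {A B : Finset (Finset (Sym2 V))} (hA : IsUpperSet (A : Set (Finset (Sym2 V))))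
    (hB : IsUpperSet (B : Set (Finset (Sym2 V)))) : pr (A ∪ B) ≤ pr A + pr B - pr A * pr B := by
  have h1 := hA.le_card_inter_finset hB
  have h2 := card_union_add_card_inter A B
  have h3 : (0 : ℚ) < 2 ^ Fintype.card (Sym2 V) := by positivity
  have h1' : (A.card : ℚ) * B.card ≤ 2 ^ Fintype.card (Sym2 V) * (A ∩ B).card := by
    exact_mod_cast h1
  have h2' : ((A ∪ B).card : ℚ) + (A ∩ B).card = A.card + B.card := by exact_mod_cast h2
  have h4 : pr A * pr B ≤ pr (A ∩ B) := by
    unfold pr
    rw [div_mul_div_comm, div_le_div_iff₀ (by positivity) h3]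
    calc (A.card : ℚ) * B.card * 2 ^ Fintype.card (Sym2 V)
        ≤ (2 ^ Fintype.card (Sym2 V) * (A ∩ B).card) * 2 ^ Fintype.card (Sym2 V) :=
          mul_le_mul_of_nonneg_right h1' h3.le
      _ = _ := by ring
  have h5 : pr (A ∪ B) + pr (A ∩ B) = pr A + pr B := by
    unfold pr
    rw [← add_div, h2', add_div]
  linarith

lemma half_count {α : Type} [Fintype α] [DecidableEq α] (e : α) (U : Finset α → Prop)
    (hU : ∀ F, U (insert e F) ↔ U F) :
    2 * ((univ : Finset (Finset α)).filter fun F => e ∈ F ∧ U F).card =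
      ((univ : Finset (Finset α)).filter U).card := by
  have h1 : ((univ : Finset (Finset α)).filter fun F => e ∈ F ∧ U F).card =
      ((univ : Finset (Finset α)).filter fun F => e ∉ F ∧ U F).card := by
    refine card_nbij' (fun F => F.erase e) (fun F => insert e F) ?_ ?_ ?_ ?_
    · intro F hF
      simp only [coe_filter, mem_univ, true_and, Set.mem_setOf_eq] at hF ⊢
      refine ⟨notMem_erase e F, (hU (F.erase e)).mp ?_⟩
      rw [insert_erase hF.1]
      exact hF.2
    · intro F hF
      simp only [coe_filter, mem_univ, true_and, Set.mem_setOf_eq] at hF ⊢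
      exact ⟨mem_insert_self e F, (hU F).mpr hF.2⟩
    · intro F hF
      simp only [coe_filter, mem_univ, true_and, Set.mem_setOf_eq] at hF
      exact insert_erase hF.1
    · intro F hF
      simp only [coe_filter, mem_univ, true_and, Set.mem_setOf_eq] at hF
      exact erase_insert hF.1
  have h2 : ((univ : Finset (Finset α)).filter U).card =
      ((univ : Finset (Finset α)).filter fun F => e ∈ F ∧ U F).card +
        ((univ : Finset (Finset α)).filter fun F => e ∉ F ∧ U F).card := by
    rw [← card_union_of_disjoint]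
    · congr 1
      ext F
      simp only [mem_filter, mem_univ, true_and, mem_union]
      tauto
    · rw [disjoint_left]
      intro F hF hF'
      simp only [mem_filter, mem_univ, true_and] at hF hF'
      exact hF'.1 hF.1
  omega

/-- the event that there is a long path -/
noncomputable def Up (G : SimpleGraph V) (L : ℕ) (X : Finset V) (v : V) :
    Finset (Finset (Sym2 V)) := univ.filter fun F => LongP G F L X v

lemma Up_upper (G : SimpleGraph V) (L : ℕ) (X : Finset V) (v : V) :
    IsUpperSet (Up G L X v : Set (Finset (Sym2 V))) := by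
  intro F F' h hF
  unfold Up at hF ⊢
  rw [mem_coe, mem_filter] at hF ⊢
  exact ⟨mem_univ _, LongP_mono h _ _ _ hF.2⟩

/-- the event that there is a long path through the edge `vc` -/
noncomputable def Ev (G : SimpleGraph V) (L : ℕ) (X : Finset V) (v c : V) :
    Finset (Finset (Sym2 V)) := univ.filter fun F => s(v, c) ∈ F ∧ LongP G F L (insert v X) c

lemma Ev_upper (G : SimpleGraph V) (L : ℕ) (X : Finset V) (v c : V) :
    IsUpperSet (Ev G L X v c : Set (Finset (Sym2 V))) := by
  intro F F' h hF
  unfold Ev at hF ⊢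
  rw [mem_coe, mem_filter] at hF ⊢
  exact ⟨mem_univ _, h hF.2.1, LongP_mono h _ _ _ hF.2.2⟩

lemma pr_Ev {G : SimpleGraph V} {L : ℕ} {X : Finset V} {v c : V} (hc : c ∉ insert v X) :
    pr (Ev G L X v c) = pr (Up G L (insert v X) c) / 2 := by
  have h1 := half_count s(v, c) (fun F => LongP G F L (insert v X) c) (by
    intro F
    have hmem : ∀ e : Sym2 V, v ∉ e → (e ∈ insert s(v, c) F ↔ e ∈ F) := by
      intro e he
      rw [mem_insert]
      constructor
      · rintro (h | h)
        · exact absurd (h ▸ Sym2.mem_mk_left v c) he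
        · exact h
      · exact Or.inr
    exact ⟨LongP_indep hmem L _ _ (mem_insert_self v X) hc,
      LongP_indep (fun e he => (hmem e he).symm) L _ _ (mem_insert_self v X) hc⟩)
  unfold pr Ev Up
  rw [← h1]
  push_cast
  ring

/-- long paths are unlikely in subcubic graphs -/
theorem pr_Up {G : SimpleGraph V} (hG : ∀ v, (nbr G v).card ≤ 3) : ∀ (L : ℕ) (X : Finset V)
    (v w : V), v ∉ X → w ∈ X → G.Adj v w → pr (Up G L X v) ≤ 4 / (L + 4) := by
  intro L
  induction L with
  | zero =>
    intro X v w _ _ _
    refine (pr_mono (subset_univ _)).trans ?_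
    rw [pr_univ]
    norm_num
  | succ L ih =>
    intro X v w hv hw hvw
    have hL : (0 : ℚ) ≤ L := Nat.cast_nonneg L
    obtain ⟨C, hC⟩ : ∃ C, C = (nbr G v).filter fun c => c ∉ insert v X := ⟨_, rfl⟩
    have hCcard : C.card ≤ 2 := by
      have h1 : C ⊆ (nbr G v).erase w := by
        intro c hc
        rw [hC, mem_filter] at hc
        rw [mem_erase]
        refine ⟨?_, hc.1⟩
        rintro rfl
        exact hc.2 (mem_insert_of_mem hw)
      have h2 := card_le_card h1
      rw [card_erase_of_mem (mem_nbr.mpr hvw)] at h2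
      have := hG v
      omega
    have hsub : ∀ F ∈ Up G (L + 1) X v, ∃ c ∈ C, F ∈ Ev G L X v c := by
      intro F hF
      unfold Up at hF
      rw [mem_filter] at hF
      obtain ⟨c, h1, h2, h3, h4⟩ := hF.2
      refine ⟨c, ?_, ?_⟩
      · rw [hC, mem_filter]
        exact ⟨mem_nbr.mpr h1, h3⟩
      · unfold Ev
        rw [mem_filter]
        exact ⟨mem_univ _, h2, h4⟩
    have hEv : ∀ c ∈ C, pr (Ev G L X v c) ≤ 2 / (L + 4) := by
      intro c hc
      rw [hC, mem_filter] at hc
      rw [pr_Ev hc.2]
      have := ih (insert v X) c v hc.2 (mem_insert_self v X) (mem_nbr.mp hc.1).symm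
      calc pr (Up G L (insert v X) c) / 2 ≤ (4 / (L + 4)) / 2 := by linarith
        _ = 2 / (L + 4) := by ring
    have hkey : ∀ a b : ℚ, 0 ≤ a → 0 ≤ b → a ≤ 2 / (L + 4) → b ≤ 2 / (L + 4) →
        a + b - a * b ≤ 4 / (((L + 1 : ℕ) : ℚ) + 4) := by
      intro a b ha hb ha' hb'
      obtain ⟨h, hh⟩ : ∃ h : ℚ, h = 2 / (L + 4) := ⟨_, rfl⟩
      rw [← hh] at ha' hb'
      have h1 : h ≤ 1 := by
        rw [hh, div_le_one (by positivity)]
        linarith
      have h2 : a + b - a * b ≤ 2 * h - h ^ 2 := by
        nlinarith [mul_nonneg (sub_nonneg.mpr (ha'.trans h1)) (sub_nonneg.mpr hb'),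
          mul_nonneg (sub_nonneg.mpr h1) (sub_nonneg.mpr ha')]
      refine h2.trans ?_
      rw [hh]
      push_cast
      have h4 : (0 : ℚ) < L + 4 := by positivity
      have h5 : (0 : ℚ) < L + 1 + 4 := by positivity
      have e1 : 2 * (2 / ((L : ℚ) + 4)) - (2 / ((L : ℚ) + 4)) ^ 2 =
          (4 * (L + 3)) / (L + 4) ^ 2 := by
        field_simp
        ring
      rw [e1, div_le_div_iff₀ (by positivity) h5]
      nlinarith
    rcases C.eq_empty_or_nonempty with h0 | ⟨c, hc⟩
    · have : Up G (L + 1) X v = ∅ := by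
        rw [eq_empty_iff_forall_notMem]
        intro F hF
        obtain ⟨c, hc, _⟩ := hsub F hF
        rw [h0] at hc
        simp at hc
      rw [this]
      unfold pr
      rw [card_empty]
      simp only [Nat.cast_zero, zero_div]
      positivity
    · obtain ⟨c', hc', hcc'⟩ : ∃ c' ∈ C, ∀ d ∈ C, d = c ∨ d = c' := by
        by_cases h1 : ∃ c' ∈ C, c' ≠ c
        · obtain ⟨c', hc', hne⟩ := h1
          refine ⟨c', hc', fun d hd => ?_⟩
          by_contra hcon
          push Not at hcon
          have h2 : ({c, c', d} : Finset V) ⊆ C := by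
            intro z hz
            rw [mem_insert, mem_insert, mem_singleton] at hz
            rcases hz with rfl | rfl | rfl
            · exact hc
            · exact hc'
            · exact hd
          have h3 := card_le_card h2
          have h4 : ({c, c', d} : Finset V).card = 3 := by
            rw [card_insert_of_notMem, card_insert_of_notMem, card_singleton]
            · rw [mem_singleton]; exact hcon.2.symm
            · rw [mem_insert, mem_singleton]
              push Not
              exact ⟨hne.symm, hcon.1.symm⟩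
          omega
        · push Not at h1
          exact ⟨c, hc, fun d hd => Or.inl (h1 d hd)⟩
      have h1 : Up G (L + 1) X v ⊆ Ev G L X v c ∪ Ev G L X v c' := by
        intro F hF
        obtain ⟨d, hd, hFd⟩ := hsub F hF
        rw [mem_union]
        rcases hcc' d hd with rfl | rfl
        · exact Or.inl hFd
        · exact Or.inr hFd
      refine (pr_mono h1).trans ((pr_union (Ev_upper _ _ _ _ _) (Ev_upper _ _ _ _ _)).trans ?_)
      exact hkey _ _ (pr_nonneg _) (pr_nonneg _) (hEv c hc) (hEv c' hc')

/-! ### Broken-cycle-free sets -/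

lemma bcf_lower (G : SimpleGraph V) (ord : LinearOrder (Sym2 V)) :
    IsLowerSet (brokenCycleFree G ord : Set (Finset (Sym2 V))) := by
  intro F F' h hF
  unfold brokenCycleFree at hF ⊢
  rw [mem_coe, mem_filter] at hF ⊢
  exact ⟨mem_univ _, fun e he => hF.2.1 e (h he), fun B hB hsub => hF.2.2 B hB (hsub.trans h)⟩

/-- the mean number of edges, per edge -/
lemma eps_sum (G : SimpleGraph V) (ord : LinearOrder (Sym2 V)) :
    eps G ord * (brokenCycleFree G ord).card =
      ∑ e ∈ edg G, (((brokenCycleFree G ord).filter fun F => e ∈ F).card : ℚ) := by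
  have ha : (0 : ℚ) < aa G ord := by exact_mod_cast aa_pos G ord
  have ha' : (aa G ord : ℚ) = (brokenCycleFree G ord).card := by
    unfold aa
    push_cast
    rfl
  have h1 : eps G ord * aa G ord = ∑ F ∈ brokenCycleFree G ord, (F.card : ℚ) := by
    rw [eps_eq, bb]
    push_cast
    rw [sum_sub_distrib, sum_const, nsmul_eq_mul, ← ha', sub_mul, div_mul_cancel₀ _ ha.ne']
    ring
  rw [← ha', h1]
  have h2 : ∀ F ∈ brokenCycleFree G ord, (F.card : ℚ) = ∑ e ∈ edg G, if e ∈ F then 1 else 0 := by
    intro F hF
    unfold brokenCycleFree at hF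
    rw [mem_filter] at hF
    rw [← sum_filter, sum_const, nsmul_eq_mul, mul_one]
    congr 2
    ext e
    rw [mem_filter, mem_edg]
    exact ⟨fun h => ⟨hF.2.1 e h, h⟩, fun h => h.2⟩
  rw [sum_congr rfl h2, sum_comm]
  refine sum_congr rfl fun e _ => ?_
  rw [← sum_filter, sum_const, nsmul_eq_mul, mul_one]

/-- each edge: `2 N_e + D_e = |F|` -/
lemma edge_count (G : SimpleGraph V) (ord : LinearOrder (Sym2 V)) (e : Sym2 V) :
    2 * ((brokenCycleFree G ord).filter fun F => e ∈ F).card +
      ((brokenCycleFree G ord).filter fun F => e ∉ F ∧ insert e F ∉ brokenCycleFree G ord).card =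
      (brokenCycleFree G ord).card := by
  have h1 : ((brokenCycleFree G ord).filter fun F => e ∈ F).card =
      ((brokenCycleFree G ord).filter fun F => e ∉ F ∧ insert e F ∈ brokenCycleFree G ord).card := by
    refine card_nbij' (fun F => F.erase e) (fun F => insert e F) ?_ ?_ ?_ ?_
    · intro F hF
      rw [mem_coe, mem_filter] at hF ⊢
      refine ⟨bcf_lower G ord (erase_subset e F) hF.1, notMem_erase e F, ?_⟩
      rw [insert_erase hF.2]
      exact hF.1
    · intro F hF
      rw [mem_coe, mem_filter] at hF ⊢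
      exact ⟨hF.2.2, mem_insert_self e F⟩
    · intro F hF
      rw [mem_coe, mem_filter] at hF
      exact insert_erase hF.2
    · intro F hF
      rw [mem_coe, mem_filter] at hF
      exact erase_insert hF.2.1
  have h2 := card_filter_add_card_filter_not (s := brokenCycleFree G ord) (fun F => e ∈ F)
  have h3 := card_filter_add_card_filter_not
    (s := (brokenCycleFree G ord).filter fun F => ¬ e ∈ F)
    (fun F => insert e F ∈ brokenCycleFree G ord)
  rw [filter_filter, filter_filter] at h3
  omega

theorem eps_le_half (G : SimpleGraph V) (ord : LinearOrder (Sym2 V)) :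
    eps G ord ≤ (edg G).card / 2 := by
  have ha : (0 : ℚ) < (brokenCycleFree G ord).card := by
    have : (0 : ℚ) < aa G ord := by exact_mod_cast aa_pos G ord
    unfold aa at this
    exact_mod_cast this
  have h1 := eps_sum G ord
  have h2 : ∑ e ∈ edg G, (((brokenCycleFree G ord).filter fun F => e ∈ F).card : ℚ) ≤
      ∑ e ∈ edg G, ((brokenCycleFree G ord).card : ℚ) / 2 := by
    refine sum_le_sum fun e _ => ?_
    have h3 := edge_count G ord e
    have h4 : (2 : ℚ) * ((brokenCycleFree G ord).filter fun F => e ∈ F).card ≤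
        (brokenCycleFree G ord).card := by exact_mod_cast (by omega : 2 *
          ((brokenCycleFree G ord).filter fun F => e ∈ F).card ≤ (brokenCycleFree G ord).card)
    linarith
  rw [sum_const, nsmul_eq_mul, ← h1] at h2
  refine le_of_mul_le_mul_right ?_ ha
  calc eps G ord * (brokenCycleFree G ord).card ≤ _ := h2
    _ = _ := by ring

/-- the bad sets contain a long path at one of the ends of `e` -/
lemma bad_sub {G : SimpleGraph V} (ord : LinearOrder (Sym2 V)) {g L : ℕ} (hL : 2 * L + 1 ≤ g)
    (hg : ∀ (v : V) (c : G.Walk v v), c.IsCycle → g ≤ c.length) {x y : V} (hxy : G.Adj x y) :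
    ((brokenCycleFree G ord).filter fun F => s(x, y) ∉ F ∧
      insert s(x, y) F ∉ brokenCycleFree G ord) ⊆
      (brokenCycleFree G ord ∩ Up G L {y} x) ∪ (brokenCycleFree G ord ∩ Up G L {x} y) := by
  intro F hF
  rw [mem_filter] at hF
  obtain ⟨hFF, heF, hins⟩ := hF
  have hFF' := hFF
  unfold brokenCycleFree at hFF' hins
  rw [mem_filter] at hFF' hins
  obtain ⟨_, hsubG, hno⟩ := hFF'
  have h1 : ∃ B, IsBrokenCycle G ord B ∧ B ⊆ insert s(x, y) F := by
    by_contra hcon
    push Not at hcon
    refine hins ⟨mem_univ _, fun e he => ?_, hcon⟩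
    rcases mem_insert.mp he with rfl | he
    · exact hxy
    · exact hsubG e he
  obtain ⟨B, hB, hBsub⟩ := h1
  have heB : s(x, y) ∈ B := by
    by_contra hcon
    refine hno B hB fun e he => ?_
    rcases mem_insert.mp (hBsub he) with rfl | he'
    · exact absurd he hcon
    · exact he'
  obtain ⟨v, c, f, hc, hf, _, rfl⟩ := hB
  rw [mem_erase, List.mem_toFinset] at heB
  obtain ⟨p, hp, hep, hpc⟩ := cycle_path c hc heB.2
  have hlen : g ≤ p.length + 1 := by
    have h2 := hg y (SimpleGraph.Walk.cons hxy.symm p)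
      ((SimpleGraph.Walk.cons_isCycle_iff p hxy.symm).mpr ⟨hp, by rw [Sym2.eq_swap]; exact hep⟩)
    rwa [SimpleGraph.Walk.length_cons] at h2
  have hFp : ∀ e ∈ p.edges, e ≠ f → e ∈ F := by
    intro e he hef
    have h3 : e ∈ insert s(x, y) F :=
      hBsub (mem_erase.mpr ⟨hef, List.mem_toFinset.mpr (hpc e he)⟩)
    rcases mem_insert.mp h3 with rfl | h4
    · exact absurd he hep
    · exact h4
  rw [mem_union, mem_inter, mem_inter]
  rcases split_path p hp hFp (L := L) (by omega) with h | h
  · left
    refine ⟨hFF, ?_⟩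
    unfold Up
    rw [mem_filter]
    exact ⟨mem_univ _, h⟩
  · right
    refine ⟨hFF, ?_⟩
    unfold Up
    rw [mem_filter]
    exact ⟨mem_univ _, h⟩

lemma inter_le {A U : Finset (Finset (Sym2 V))} (hA : IsLowerSet (A : Set (Finset (Sym2 V))))
    (hU : IsUpperSet (U : Set (Finset (Sym2 V)))) : ((A ∩ U).card : ℚ) ≤ A.card * pr U := by
  have h1 := hA.card_inter_le_finset hU
  have h1' : (2 : ℚ) ^ Fintype.card (Sym2 V) * (A ∩ U).card ≤ A.card * U.card := by
    exact_mod_cast h1
  unfold pr
  rw [← mul_div_assoc, le_div_iff₀ (by positivity)]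
  linarith

/-- **subcubic graphs of girth at least `2 L + 1`** -/
theorem eps_ge {G : SimpleGraph V} (ord : LinearOrder (Sym2 V)) (hG : ∀ v, (nbr G v).card ≤ 3)
    {g L : ℕ} (hL : 2 * L + 1 ≤ g)
    (hg : ∀ (v : V) (c : G.Walk v v), c.IsCycle → g ≤ c.length) :
    ((edg G).card : ℚ) / 2 * (1 - 8 / (L + 4)) ≤ eps G ord := by
  have ha : (0 : ℚ) < (brokenCycleFree G ord).card := by
    have : (0 : ℚ) < aa G ord := by exact_mod_cast aa_pos G ord
    unfold aa at this
    exact_mod_cast this
  have h1 := eps_sum G ord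
  have h2 : ∑ e ∈ edg G, ((brokenCycleFree G ord).card : ℚ) / 2 * (1 - 8 / (L + 4)) ≤
      ∑ e ∈ edg G, (((brokenCycleFree G ord).filter fun F => e ∈ F).card : ℚ) := by
    refine sum_le_sum fun e he => ?_
    rw [mem_edg] at he
    induction e using Sym2.ind with
    | _ x y =>
      rw [SimpleGraph.mem_edgeSet] at he
      have h3 := edge_count G ord s(x, y)
      have h4 : (2 : ℚ) * ((brokenCycleFree G ord).filter fun F => s(x, y) ∈ F).card +
          ((brokenCycleFree G ord).filter fun F => s(x, y) ∉ F ∧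
            insert s(x, y) F ∉ brokenCycleFree G ord).card =
          (brokenCycleFree G ord).card := by exact_mod_cast h3
      have h5 : (((brokenCycleFree G ord).filter fun F => s(x, y) ∉ F ∧
            insert s(x, y) F ∉ brokenCycleFree G ord).card : ℚ) ≤
          (brokenCycleFree G ord).card * (8 / (L + 4)) := by
        have h6 := Nat.cast_le (α := ℚ).mpr
          ((card_le_card (bad_sub ord hL hg he)).trans (card_union_le _ _))
        push_cast at h6
        have h7 := inter_le (bcf_lower G ord) (Up_upper G L {y} x)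
        have h8 := inter_le (bcf_lower G ord) (Up_upper G L {x} y)
        have h9 := pr_Up hG L {y} x y (by rw [mem_singleton]; exact he.ne) (mem_singleton_self y) he
        have h10 := pr_Up hG L {x} y x (by rw [mem_singleton]; exact he.ne') (mem_singleton_self x)
          he.symm
        have h11 := mul_le_mul_of_nonneg_left h9 ha.le
        have h12 := mul_le_mul_of_nonneg_left h10 ha.le
        calc _ ≤ _ := h6
          _ ≤ ((brokenCycleFree G ord).card : ℚ) * (4 / (L + 4)) +
              (brokenCycleFree G ord).card * (4 / (L + 4)) := by linarith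
          _ = _ := by ring
      linarith
  rw [sum_const, nsmul_eq_mul, ← h1] at h2
  refine le_of_mul_le_mul_right ?_ ha
  calc ((edg G).card : ℚ) / 2 * (1 - 8 / (L + 4)) * (brokenCycleFree G ord).card = _ := by ring
    _ ≤ _ := h2

end Pool.Agent.Work.MP_6229d2_co
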