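import Pool.Agent.Work.MP_6229d2_co.Sparse
import Pool.Agent.Work.MP_6229d2_co.MaxMatching

set_option autoImplicit false

/-! The mean broken-cycle-free size of subcubic graphs with few short cycles. -/

namespace Pool.Agent.Work.MP_6229d2_co

open scoped Classical
open Finset

variable {V : Type} [Fintype V]

/-! ### Cycles through an edge -/

omit [Fintype V] in
/-- a cycle through the edge `xy` is the edge together with a path from `y` to `x` -/
lemma cycle_exact {G : SimpleGraph V} {v : V} (c : G.Walk v v) (hc : c.IsCycle) {x y : V}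
    (he : s(x, y) ∈ c.edges) :
    ∃ p : G.Walk y x, p.IsPath ∧ s(x, y) ∉ p.edges ∧
      insert s(x, y) p.edges.toFinset = c.edges.toFinset := by
  have hx : x ∈ c.support := SimpleGraph.Walk.fst_mem_support_of_mem_edges c he
  have hxy : x ≠ y := (c.adj_of_mem_edges he).ne
  have hc' := hc.rotate hx
  have hE : (c.rotate x hx).edges.toFinset = c.edges.toFinset := by
    ext e
    rw [List.mem_toFinset, List.mem_toFinset, (c.rotate_edges x hx).mem_iff]
  have he' : s(x, y) ∈ (c.rotate x hx).edges := (c.rotate_edges x hx).mem_iff.mpr he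
  rw [← hE]
  generalize c.rotate x hx = d at hc' he'
  cases d with
  | nil => simp at he'
  | cons h q =>
    rename_i z
    rw [SimpleGraph.Walk.cons_isCycle_iff] at hc'
    obtain ⟨hq, hxz⟩ := hc'
    by_cases hzy : z = y
    · subst hzy
      exact ⟨q, hq, hxz, by rw [SimpleGraph.Walk.edges_cons, List.toFinset_cons]⟩
    · have h1 : s(x, y) ∈ q.edges := by
        rw [SimpleGraph.Walk.edges_cons, List.mem_cons] at he'
        rcases he' with h' | h'
        · rw [Sym2.eq_iff] at h'
          rcases h' with ⟨_, h'⟩ | ⟨_, h'⟩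
          · exact absurd h'.symm hzy
          · exact absurd h'.symm hxy
        · exact h'
      have h2 : s(x, y) ∈ q.reverse.edges := by
        rw [SimpleGraph.Walk.edges_reverse, List.mem_reverse]
        exact h1
      have hqr := hq.reverse
      have hqe : q.edges.toFinset = q.reverse.edges.toFinset := by
        rw [SimpleGraph.Walk.edges_reverse, List.toFinset_reverse]
      rw [SimpleGraph.Walk.edges_cons, List.toFinset_cons, hqe]
      clear hqe
      generalize q.reverse = r at h2 hqr
      cases r with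
      | nil => simp at h2
      | cons h' r =>
        rename_i y'
        rw [SimpleGraph.Walk.cons_isPath_iff] at hqr
        obtain ⟨hr, hxr⟩ := hqr
        have hy : y' = y := by
          rw [SimpleGraph.Walk.edges_cons, List.mem_cons] at h2
          rcases h2 with h2 | h2
          · rw [Sym2.eq_iff] at h2
            rcases h2 with ⟨_, h2⟩ | ⟨_, h2⟩
            · exact h2.symm
            · exact absurd h2.symm hxy
          · exact absurd (SimpleGraph.Walk.fst_mem_support_of_mem_edges r h2) hxr
        subst hy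
        refine ⟨r.concat h.symm, hr.concat hxr h.symm, ?_, ?_⟩
        · rw [SimpleGraph.Walk.edges_concat, List.concat_eq_append, List.mem_append,
            List.mem_singleton]
          rintro (h3 | h3)
          · exact hxr (SimpleGraph.Walk.fst_mem_support_of_mem_edges r h3)
          · rw [Sym2.eq_iff] at h3
            rcases h3 with ⟨h3, h4⟩ | ⟨_, h3⟩
            · exact hxy h4.symm
            · exact hzy h3.symm
        · rw [SimpleGraph.Walk.edges_concat, List.concat_eq_append, List.toFinset_append,
            SimpleGraph.Walk.edges_cons, List.toFinset_cons]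
          ext e
          simp only [mem_insert, mem_union, List.mem_toFinset, List.mem_cons, List.not_mem_nil, or_false]
          rw [Sym2.eq_swap (a := z) (b := x)]
          tauto

/-! ### Containing a given set -/

lemma pr_sup (S : Finset (Sym2 V)) : pr (univ.filter fun F => S ⊆ F) = 1 / 2 ^ S.card := by
  have h1 : (univ.filter fun F => S ⊆ F) = Icc S univ := by
    ext F
    rw [mem_filter, mem_Icc]
    exact ⟨fun h => ⟨h.2, subset_univ _⟩, fun h => ⟨mem_univ _, h.1⟩⟩
  have h : S.card ≤ Fintype.card (Sym2 V) := card_le_univ S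
  unfold pr
  rw [h1, card_Icc_finset (subset_univ S), card_univ]
  push_cast
  rw [div_eq_div_iff (by positivity) (by positivity), one_mul, ← pow_add, Nat.sub_add_cancel h]

/-- `F` contains the cycle `B`, except perhaps its largest edge and `e` -/
noncomputable def ZB (ord : LinearOrder (Sym2 V)) (B : Finset (Sym2 V)) (e : Sym2 V) :
    Finset (Finset (Sym2 V)) :=
  univ.filter fun F => ∃ f ∈ B, (∀ h ∈ B, ord.le h f) ∧ (B.erase f).erase e ⊆ F

lemma ZB_upper (ord : LinearOrder (Sym2 V)) (B : Finset (Sym2 V)) (e : Sym2 V) :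
    IsUpperSet (ZB ord B e : Set (Finset (Sym2 V))) := by
  intro F F' h hF
  unfold ZB at hF ⊢
  rw [mem_coe, mem_filter] at hF ⊢
  obtain ⟨_, f, h1, h2, h3⟩ := hF
  exact ⟨mem_univ _, f, h1, h2, h3.trans h⟩

lemma pr_ZB (ord : LinearOrder (Sym2 V)) (B : Finset (Sym2 V)) (e : Sym2 V) :
    pr (ZB ord B e) ≤ 4 / 2 ^ B.card := by
  by_cases hf : ∃ f ∈ B, ∀ h ∈ B, ord.le h f
  · obtain ⟨f, hf, hmax⟩ := hf
    have h1 : ZB ord B e ⊆ univ.filter fun F => (B.erase f).erase e ⊆ F := by
      intro F hF
      unfold ZB at hF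
      rw [mem_filter] at hF ⊢
      obtain ⟨_, f', h1, h2, h3⟩ := hF
      have : f' = f := ord.le_antisymm _ _ (hmax f' h1) (h2 f hf)
      subst this
      exact ⟨mem_univ _, h3⟩
    refine (pr_mono h1).trans ?_
    rw [pr_sup, div_le_div_iff₀ (by positivity) (by positivity), one_mul]
    have h2 : B.card ≤ ((B.erase f).erase e).card + 2 := by
      have h3 := card_erase_add_one hf
      have h4 := pred_card_le_card_erase (s := B.erase f) (a := e)
      omega
    calc (2 : ℚ) ^ B.card ≤ 2 ^ (((B.erase f).erase e).card + 2) :=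
          pow_le_pow_right₀ (by norm_num) h2
      _ = _ := by rw [pow_add]; ring
  · have h1 : ZB ord B e = ∅ := by
      rw [eq_empty_iff_forall_notMem]
      intro F hF
      unfold ZB at hF
      rw [mem_filter] at hF
      obtain ⟨_, f', h1, h2, h3⟩ := hF
      exact hf ⟨f', h1, h2⟩
    rw [h1]
    unfold pr
    rw [card_empty]
    simp only [Nat.cast_zero, zero_div]
    positivity

/-! ### The cycle potential -/

/-- the edge sets of the cycles with at most `M` edges -/
noncomputable def Cyc (G : SimpleGraph V) (M : ℕ) : Finset (Finset (Sym2 V)) :=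
  univ.filter fun B => B.card ≤ M ∧ ∃ (v : V) (c : G.Walk v v), c.IsCycle ∧ B = c.edges.toFinset

lemma mem_Cyc {G : SimpleGraph V} {M : ℕ} {B : Finset (Sym2 V)} : B ∈ Cyc G M ↔
    B.card ≤ M ∧ ∃ (v : V) (c : G.Walk v v), c.IsCycle ∧ B = c.edges.toFinset := by
  unfold Cyc
  rw [mem_filter]
  exact ⟨fun h => h.2, fun h => ⟨mem_univ _, h⟩⟩

/-- the weight of a cycle with `j` edges -/
noncomputable def wt (j : ℕ) : ℚ := j * (4 / 2 ^ j)

lemma wt_nonneg (j : ℕ) : 0 ≤ wt j := by unfold wt; positivity

/-- the cycle potential -/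
noncomputable def Phi (G : SimpleGraph V) (M : ℕ) : ℚ := ∑ B ∈ Cyc G M, wt B.card

lemma bad_sub2 {G : SimpleGraph V} (ord : LinearOrder (Sym2 V)) (L : ℕ) {x y : V}
    (hxy : G.Adj x y) :
    ((brokenCycleFree G ord).filter fun F => s(x, y) ∉ F ∧
      insert s(x, y) F ∉ brokenCycleFree G ord) ⊆
      (((Cyc G (2 * L)).filter fun B => s(x, y) ∈ B).biUnion fun B =>
        brokenCycleFree G ord ∩ ZB ord B s(x, y)) ∪
      ((brokenCycleFree G ord ∩ Up G L {y} x) ∪ (brokenCycleFree G ord ∩ Up G L {x} y)) := by
  intro F hF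
  rw [mem_filter] at hF
  obtain ⟨hFF, heF, hins⟩ := hF
  have hFF' := hFF
  unfold brokenCycleFree at hFF' hins
  rw [mem_filter] at hFF' hins
  obtain ⟨_, hsubG, hno⟩ := hFF'
  have h1 : ∃ B, IsBrokenCycle G ord B ∧ B ⊆ insert s(x, y) F := by
    by_contra hcon
    push Not at hcon
    refine hins ⟨mem_univ _, fun e he => ?_, hcon⟩
    rcases mem_insert.mp he with rfl | he
    · exact hxy
    · exact hsubG e he
  obtain ⟨B, hB, hBsub⟩ := h1
  have heB : s(x, y) ∈ B := by
    by_contra hcon
    refine hno B hB fun e he => ?_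
    rcases mem_insert.mp (hBsub he) with rfl | he'
    · exact absurd he hcon
    · exact he'
  obtain ⟨v, c, f, hc, hf, hmax, rfl⟩ := hB
  rw [mem_erase, List.mem_toFinset] at heB
  obtain ⟨p, hp, hep, hpc⟩ := cycle_exact c hc heB.2
  have hFp : ∀ e ∈ c.edges.toFinset, e ≠ f → e ≠ s(x, y) → e ∈ F := by
    intro e he hef hexy
    have h3 : e ∈ insert s(x, y) F := hBsub (mem_erase.mpr ⟨hef, he⟩)
    rcases mem_insert.mp h3 with h4 | h4
    · exact absurd h4 hexy
    · exact h4
  rw [mem_union]
  by_cases hlen : c.edges.toFinset.card ≤ 2 * L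
  · left
    rw [mem_biUnion]
    refine ⟨c.edges.toFinset, ?_, ?_⟩
    · rw [mem_filter]
      unfold Cyc
      rw [mem_filter]
      exact ⟨⟨mem_univ _, hlen, v, c, hc, rfl⟩, List.mem_toFinset.mpr heB.2⟩
    · rw [mem_inter]
      refine ⟨hFF, ?_⟩
      unfold ZB
      rw [mem_filter]
      refine ⟨mem_univ _, f, List.mem_toFinset.mpr hf, fun h hh => hmax h (List.mem_toFinset.mp hh),
        fun e he => ?_⟩
      rw [mem_erase, mem_erase] at he
      exact hFp e he.2.2 he.2.1 he.1
  · right
    have hlenp : 2 * L ≤ p.length := by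
      have h2 : c.edges.toFinset.card = p.length + 1 := by
        rw [← hpc, card_insert_of_notMem (by rwa [List.mem_toFinset]),
          List.toFinset_card_of_nodup hp.isTrail.edges_nodup, SimpleGraph.Walk.length_edges]
      omega
    have hFp' : ∀ e ∈ p.edges, e ≠ f → e ∈ F := by
      intro e he hef
      refine hFp e ?_ hef ?_
      · rw [← hpc]
        exact mem_insert_of_mem (List.mem_toFinset.mpr he)
      · rintro rfl
        exact hep he
    rw [mem_union, mem_inter, mem_inter]
    rcases split_path p hp hFp' hlenp with h | h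
    · right
      refine ⟨hFF, ?_⟩
      unfold Up
      rw [mem_filter]
      exact ⟨mem_univ _, h⟩
    · left
      refine ⟨hFF, ?_⟩
      unfold Up
      rw [mem_filter]
      exact ⟨mem_univ _, h⟩

/-- **subcubic graphs with few short cycles** -/
theorem eps_ge2 {G : SimpleGraph V} (ord : LinearOrder (Sym2 V)) (hG : ∀ v, (nbr G v).card ≤ 3)
    (L : ℕ) :
    ((edg G).card : ℚ) / 2 - Phi G (2 * L) / 2 - (edg G).card * (4 / (L + 4)) ≤ eps G ord := by
  have ha : (0 : ℚ) < (brokenCycleFree G ord).card := by
    have : (0 : ℚ) < aa G ord := by exact_mod_cast aa_pos G ord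
    unfold aa at this
    exact_mod_cast this
  have h1 := eps_sum G ord
  have h2 : ∑ e ∈ edg G, ((brokenCycleFree G ord).card : ℚ) * (1 / 2 -
      (∑ B ∈ (Cyc G (2 * L)).filter fun B => e ∈ B, (4 : ℚ) / 2 ^ B.card) / 2 - 4 / (L + 4)) ≤
      ∑ e ∈ edg G, (((brokenCycleFree G ord).filter fun F => e ∈ F).card : ℚ) := by
    refine sum_le_sum fun e he => ?_
    rw [mem_edg] at he
    induction e using Sym2.ind with
    | _ x y =>
      rw [SimpleGraph.mem_edgeSet] at he
      have h3 := edge_count G ord s(x, y)
      have h4 : (2 : ℚ) * ((brokenCycleFree G ord).filter fun F => s(x, y) ∈ F).card +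
          ((brokenCycleFree G ord).filter fun F => s(x, y) ∉ F ∧
            insert s(x, y) F ∉ brokenCycleFree G ord).card =
          (brokenCycleFree G ord).card := by exact_mod_cast h3
      have h5 : (((brokenCycleFree G ord).filter fun F => s(x, y) ∉ F ∧
            insert s(x, y) F ∉ brokenCycleFree G ord).card : ℚ) ≤
          (brokenCycleFree G ord).card *
            (∑ B ∈ (Cyc G (2 * L)).filter fun B => s(x, y) ∈ B, (4 : ℚ) / 2 ^ B.card) +
          (brokenCycleFree G ord).card * (8 / (L + 4)) := by
        have h6 := Nat.cast_le (α := ℚ).mpr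
          ((card_le_card (bad_sub2 ord L he)).trans ((card_union_le _ _).trans
            (add_le_add card_biUnion_le (card_union_le _ _))))
        push_cast at h6
        have h6' : ∑ B ∈ (Cyc G (2 * L)).filter fun B => s(x, y) ∈ B,
            ((brokenCycleFree G ord ∩ ZB ord B s(x, y)).card : ℚ) ≤
            (brokenCycleFree G ord).card *
            (∑ B ∈ (Cyc G (2 * L)).filter fun B => s(x, y) ∈ B, (4 : ℚ) / 2 ^ B.card) := by
          rw [mul_sum]
          refine sum_le_sum fun B _ => ?_
          exact (inter_le (bcf_lower G ord) (ZB_upper ord B _)).trans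
            (mul_le_mul_of_nonneg_left (pr_ZB ord B _) ha.le)
        have h7 := inter_le (bcf_lower G ord) (Up_upper G L {y} x)
        have h8 := inter_le (bcf_lower G ord) (Up_upper G L {x} y)
        have h9 := pr_Up hG L {y} x y (by rw [mem_singleton]; exact he.ne) (mem_singleton_self y) he
        have h10 := pr_Up hG L {x} y x (by rw [mem_singleton]; exact he.ne') (mem_singleton_self x)
          he.symm
        have h11 := mul_le_mul_of_nonneg_left h9 ha.le
        have h12 := mul_le_mul_of_nonneg_left h10 ha.le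
        have e1 : ((brokenCycleFree G ord).card : ℚ) * (8 / (L + 4)) =
            ((brokenCycleFree G ord).card : ℚ) * (4 / (L + 4)) +
              (brokenCycleFree G ord).card * (4 / (L + 4)) := by ring
        rw [e1]
        linarith
      have e2 : ((brokenCycleFree G ord).card : ℚ) * (8 / (L + 4)) =
            2 * (((brokenCycleFree G ord).card : ℚ) * (4 / (L + 4))) := by ring
      rw [e2] at h5
      calc ((brokenCycleFree G ord).card : ℚ) * (1 / 2 -
          (∑ B ∈ (Cyc G (2 * L)).filter fun B => s(x, y) ∈ B, (4 : ℚ) / 2 ^ B.card) / 2 -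
            4 / (L + 4)) = ((brokenCycleFree G ord).card : ℚ) / 2 -
            ((brokenCycleFree G ord).card *
            (∑ B ∈ (Cyc G (2 * L)).filter fun B => s(x, y) ∈ B, (4 : ℚ) / 2 ^ B.card)) / 2 -
            ((brokenCycleFree G ord).card : ℚ) * (4 / (L + 4)) := by ring
        _ ≤ _ := by linarith
  have h3 : ∑ e ∈ edg G, ∑ B ∈ (Cyc G (2 * L)).filter fun B => e ∈ B, (4 : ℚ) / 2 ^ B.card ≤
      Phi G (2 * L) := by
    simp_rw [sum_filter]
    rw [sum_comm]
    unfold Phi
    refine sum_le_sum fun B _ => ?_
    rw [← sum_filter, sum_const, nsmul_eq_mul]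
    unfold wt
    refine mul_le_mul_of_nonneg_right ?_ (by positivity)
    exact_mod_cast card_le_card (fun e he => (mem_filter.mp he).2)
  rw [← mul_sum, sum_sub_distrib, sum_sub_distrib, sum_const, sum_const, nsmul_eq_mul,
    nsmul_eq_mul, ← sum_div, ← h1] at h2
  refine le_of_mul_le_mul_right ?_ ha
  calc (((edg G).card : ℚ) / 2 - Phi G (2 * L) / 2 - (edg G).card * (4 / (L + 4))) *
        (brokenCycleFree G ord).card ≤ ((brokenCycleFree G ord).card : ℚ) *
        ((edg G).card * (1 / 2) - (∑ e ∈ edg G,
          ∑ B ∈ (Cyc G (2 * L)).filter fun B => e ∈ B, (4 : ℚ) / 2 ^ B.card) / 2 -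
          (edg G).card * (4 / (L + 4))) := by
        rw [mul_comm]
        refine mul_le_mul_of_nonneg_left ?_ ha.le
        linarith
    _ ≤ _ := h2

end Pool.Agent.Work.MP_6229d2_co
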