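import Pool.Agent.Work.MP_6229d2_co.SparseGreedy

set_option autoImplicit false

/-! The maximum of the mean broken-cycle-free size of sparse graphs. -/

namespace Pool.Agent.Work.MP_6229d2_co

open scoped Classical
open Finset

/-! ### Attaching a small graph -/

/-- the graph `G`, where the vertices `z + i` with `0 < i` and `z + i < t` are joined to the first
`d i` of the vertices `z, z + 1, …` -/
def ext2 (n : ℕ) (G : SimpleGraph (Fin n)) (z : ℕ) (d : ℕ → ℕ) (t : ℕ) : SimpleGraph (Fin n) where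
  Adj i j := G.Adj i j ∨ (j < i ∧ i.val < t ∧ z ≤ j.val ∧ j.val < z + d (i.val - z)) ∨
    (i < j ∧ j.val < t ∧ z ≤ i.val ∧ i.val < z + d (j.val - z))
  symm := ⟨fun i j h => by
    rcases h with h | h | h
    · exact Or.inl h.symm
    · exact Or.inr (Or.inr h)
    · exact Or.inr (Or.inl h)⟩
  loopless := ⟨fun i h => by
    rcases h with h | h | h
    · exact G.loopless.irrefl i h
    · exact lt_irrefl _ h.1
    · exact lt_irrefl _ h.1⟩

lemma ext2_base (n : ℕ) (G : SimpleGraph (Fin n)) (z : ℕ) (d : ℕ → ℕ) :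
    ext2 n G z d (z + 1) = G := by
  ext i j
  simp only [ext2, Fin.lt_def]
  constructor
  · rintro (h | h | h)
    · exact h
    · omega
    · omega
  · exact Or.inl

section
variable {n : ℕ} {G : SimpleGraph (Fin n)} {z : ℕ} {d : ℕ → ℕ}
  (hin : ∀ i j, G.Adj i j → i.val < z + 1) (hd : ∀ i, d i ≤ i)
  (hcl : ∀ i a b, a < b → b < d i → a < d b)

include hin in
lemma iso_ext2 {t : ℕ} (hzt : z + 1 ≤ t) (ht : t < n) :
    iso (ext2 n G z d (t + 1)) ⟨t, ht⟩ = ext2 n G z d t := by
  ext i j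
  rw [iso_adj]
  simp only [ext2, Fin.lt_def, ne_eq, Fin.ext_iff]
  constructor
  · rintro ⟨h | h | h, h1, h2⟩
    · exact Or.inl h
    · exact Or.inr (Or.inl ⟨h.1, by omega, h.2.2⟩)
    · exact Or.inr (Or.inr ⟨h.1, by omega, h.2.2⟩)
  · rintro (h | h | h)
    · have h1 := hin i j h
      have h2 := hin j i h.symm
      exact ⟨Or.inl h, by omega, by omega⟩
    · exact ⟨Or.inr (Or.inl ⟨h.1, by omega, h.2.2⟩), by omega, by omega⟩
    · exact ⟨Or.inr (Or.inr ⟨h.1, by omega, h.2.2⟩), by omega, by omega⟩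

include hin hd in
lemma nbr_ext2 {t : ℕ} (hzt : z + 1 ≤ t) (ht : t < n) :
    nbr (ext2 n G z d (t + 1)) ⟨t, ht⟩ =
      univ.filter fun j : Fin n => z ≤ j.val ∧ j.val < z + d (t - z) := by
  ext j
  rw [mem_nbr, mem_filter]
  simp only [ext2, Fin.lt_def, mem_univ, true_and]
  have h0 := hd (t - z)
  constructor
  · rintro (h | h | h)
    · have := hin _ _ h
      simp only at this
      omega
    · exact h.2.2
    · omega
  · intro h
    exact Or.inr (Or.inl ⟨by omega, by omega, h⟩)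

lemma card_filter_between {n z c : ℕ} (h : z + c ≤ n) :
    (univ.filter fun j : Fin n => z ≤ j.val ∧ j.val < z + c).card = c := by
  have h1 := card_filter_lt n (z + c) h
  have h2 := card_filter_lt n z (by omega)
  have h3 : (univ.filter fun j : Fin n => j.val < z + c) =
      (univ.filter fun j : Fin n => j.val < z) ∪
        univ.filter fun j : Fin n => z ≤ j.val ∧ j.val < z + c := by
    ext j
    simp only [mem_filter, mem_univ, true_and, mem_union]
    omega
  rw [h3, card_union_of_disjoint] at h1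
  · omega
  · rw [disjoint_left]
    intro j hj hj'
    rw [mem_filter] at hj hj'
    omega

include hin hd hcl in
lemma ext2_step (ord : LinearOrder (Sym2 (Fin n))) {t : ℕ} (hzt : z + 1 ≤ t) (ht : t < n) :
    eps (ext2 n G z d t) ord ≤ eps (ext2 n G z d (t + 1)) ord := by
  have h0 := hd (t - z)
  obtain ⟨h1, h2⟩ := clique_v ord ⟨t, ht⟩ (ext2 n G z d t) (d (t - z)) (ext2 n G z d (t + 1))
    (iso_ext2 hin hzt ht) (by
      rw [nbr_ext2 hin hd hzt ht]
      exact card_filter_between (by omega)) (by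
      intro x hx y hy hxy
      rw [nbr_ext2 hin hd hzt ht, mem_filter] at hx hy
      rcases lt_or_gt_of_ne hxy with h | h
      · refine Or.inr (Or.inr ⟨h, by omega, hx.2.1, ?_⟩)
        rw [Fin.lt_def] at h
        have := hcl (t - z) (x.val - z) (y.val - z) (by omega) (by omega)
        omega
      · refine Or.inr (Or.inl ⟨h, by omega, hy.2.1, ?_⟩)
        rw [Fin.lt_def] at h
        have := hcl (t - z) (y.val - z) (x.val - z) (by omega) (by omega)
        omega)
  have ha : (0 : ℚ) < aa (ext2 n G z d t) ord := by exact_mod_cast aa_pos _ ord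
  rw [eps_eq, eps_eq, h1, h2]
  push_cast
  have h3 : (0 : ℚ) < 1 + d (t - z) := by positivity
  have h4 : ((1 + (d (t - z) : ℚ)) * bb (ext2 n G z d t) ord -
      d (t - z) * aa (ext2 n G z d t) ord) / ((1 + (d (t - z) : ℚ)) * aa (ext2 n G z d t) ord) =
      bb (ext2 n G z d t) ord / aa (ext2 n G z d t) ord - d (t - z) / (1 + d (t - z)) := by
    field_simp
  rw [h4]
  have h5 : (0 : ℚ) ≤ d (t - z) / (1 + d (t - z)) := by positivity
  linarith

include hin hd hcl in
lemma ext2_eps (ord : LinearOrder (Sym2 (Fin n))) {t : ℕ} (hzt : z + 1 ≤ t) (ht : t ≤ n) :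
    eps G ord ≤ eps (ext2 n G z d t) ord := by
  induction t, hzt using Nat.le_induction with
  | base => rw [ext2_base]
  | succ t hzt ih => exact (ih (by omega)).trans (ext2_step hin hd hcl ord hzt (by omega))

include hin hd in
lemma ext2_edges {t : ℕ} (hzt : z + 1 ≤ t) (ht : t ≤ n) :
    (edg (ext2 n G z d t)).card = (edg G).card + ∑ i ∈ range (t - z), d i := by
  induction t, hzt using Nat.le_induction with
  | base =>
    rw [ext2_base, show z + 1 - z = 1 by omega, sum_range_one]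
    have := hd 0
    omega
  | succ t hzt ih =>
    have h0 := hd (t - z)
    rw [card_edg_iso (ext2 n G z d (t + 1)) ⟨t, by omega⟩, iso_ext2 hin hzt (by omega),
      nbr_ext2 hin hd hzt (by omega), card_filter_between (by omega), ih (by omega),
      show t + 1 - z = (t - z) + 1 by omega, sum_range_succ]
    omega

lemma ext2_connected (hz : z < n) (hP : pathG n (z + 1) ≤ G) (h1 : ∀ i, 1 ≤ i → 1 ≤ d i) :
    (ext2 n G z d n).Connected := by
  have hn : 0 < n := by omega
  have hle : G ≤ ext2 n G z d n := fun _ _ h => Or.inl h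
  have h0 : ∀ i : Fin n, (ext2 n G z d n).Reachable ⟨0, hn⟩ i := by
    intro i
    by_cases hi : i.val < z + 1
    · exact (pathG_reach hn i hi).mono (hP.trans hle)
    · have h2 : (ext2 n G z d n).Reachable ⟨0, hn⟩ ⟨z, hz⟩ :=
        (pathG_reach (m := z + 1) hn ⟨z, hz⟩ (by simp)).mono (hP.trans hle)
      refine h2.trans (SimpleGraph.Adj.reachable ?_)
      refine Or.inr (Or.inr ⟨?_, i.isLt, le_rfl, ?_⟩)
      · rw [Fin.lt_def]
        simp only
        omega
      · have := h1 (i.val - z) (by omega)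
        simp only
        omega
  have : Nonempty (Fin n) := ⟨⟨0, hn⟩⟩
  exact ⟨fun i j => (h0 i).symm.trans (h0 j)⟩

end

lemma eps_nonneg {V : Type} [Fintype V] (G : SimpleGraph V) (ord : LinearOrder (Sym2 V)) :
    0 ≤ eps G ord := by
  unfold eps
  exact div_nonneg (sum_nonneg fun i _ => by positivity) (sum_nonneg fun i _ => by positivity)

lemma harmonic_mono {a b : ℕ} (h : a ≤ b) : harmonic a ≤ harmonic b := by
  unfold harmonic
  refine sum_le_sum_of_subset_of_nonneg ?_ fun i _ _ => by positivity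
  intro i hi
  rw [mem_range] at hi ⊢
  omega

/-- **the construction** -/
theorem sparse_exists {n k : ℕ} (L : ℕ) (hn : 20 ≤ n) (hk : n - 1 < k) (hk2 : 2 * k ≤ 3 * n) :
    ∃ G : SimpleGraph (Fin n), G.Connected ∧ G.edgeSet.ncard = k ∧ ∀ ord,
      (k : ℚ) / 2 - 17 / 2 - 3 * (L * (2 * L + 1)) * harmonic (3 * n) - 4 * k / (L + 4) ≤
        eps G ord := by
  obtain ⟨j, hj11, hjA, hjB⟩ : ∃ j, j ≤ 11 ∧ (j + n ≤ k + 1) ∧
      (2 * (k - 6 - j) + 16 ≤ 3 * (n - 6)) := by
    by_cases h : k + 1 ≤ n + 10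
    · exact ⟨k + 1 - n, by omega, by omega, by omega⟩
    · exact ⟨11, le_rfl, by omega, by omega⟩
  obtain ⟨s, p, hp, hj⟩ := exists_params j
  have hs4 : s ≤ 4 := by
    by_contra hcon
    have h1 : 5 ≤ s := by omega
    have h2 : 5 * 6 / 2 ≤ s * (s + 1) / 2 := Nat.div_le_div_right (Nat.mul_le_mul h1 (by omega))
    omega
  obtain ⟨r, hr⟩ : ∃ r, r = k + 1 - n - j := ⟨_, rfl⟩
  obtain ⟨G, hP, hin, hG, hE, hPhi⟩ := greedy (n := n) (m := n - 6) (2 * L) (by omega) (by omega) r
    (by omega)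
  have hin' : ∀ i j, G.Adj i j → i.val < (n - 7) + 1 := by
    intro i j h
    have := hin i j h
    omega
  have hd := dseq_le s p hp
  have hcl := dseq_cl s p hp
  refine ⟨ext2 n G (n - 7) (dseq s p) n, ext2_connected (by omega) ?_ ?_, ?_, ?_⟩
  · rw [show n - 7 + 1 = n - 6 by omega]
    exact hP
  · intro i hi
    unfold dseq
    split_ifs <;> omega
  · rw [ncard_edgeSet, ext2_edges hin' hd (by omega) le_rfl, hE]
    have h1 := sum_dseq s p (4 - s)
    rw [show s + 3 + (4 - s) = n - (n - 7) by omega] at h1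
    rw [h1]
    clear hd hcl hPhi h1
    interval_cases s <;> omega
  · intro ord
    refine le_trans ?_ (ext2_eps hin' hd hcl ord (by omega) le_rfl)
    refine le_trans ?_ (eps_ge2 ord hG L)
    have hk1 : k ≤ (edg G).card + 17 := by omega
    have hk1' : (edg G).card ≤ k := by omega
    have hk1q : (k : ℚ) ≤ (edg G).card + 17 := by exact_mod_cast hk1
    have hk1q' : ((edg G).card : ℚ) ≤ k := by exact_mod_cast hk1'
    have h1 : Phi G (2 * L) ≤ 6 * (L * (2 * L + 1)) * harmonic (3 * n) := by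
      refine hPhi.trans ?_
      push_cast
      have h2 := harmonic_mono (a := 3 * (n - 6)) (b := 3 * n) (by omega)
      have h3 : 0 ≤ harmonic (3 * (n - 6) - 2 * (n - 6 - 1 + r)) := by
        unfold harmonic
        exact sum_nonneg fun i _ => by positivity
      calc 3 * (2 * (L : ℚ) * (2 * L + 1)) *
            (harmonic (3 * (n - 6)) - harmonic (3 * (n - 6) - 2 * (n - 6 - 1 + r))) ≤
            3 * (2 * (L : ℚ) * (2 * L + 1)) * harmonic (3 * n) :=
            mul_le_mul_of_nonneg_left (by linarith) (by positivity)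
        _ = _ := by ring
    have h2 : ((edg G).card : ℚ) * (4 / (L + 4)) ≤ 4 * k / (L + 4) := by
      calc ((edg G).card : ℚ) * (4 / (L + 4)) ≤ k * (4 / (L + 4)) :=
            mul_le_mul_of_nonneg_right hk1q' (by positivity)
        _ = _ := by ring
    linarith

/-- **the maximum for `k ≤ 3 n / 2`** -/
theorem sparse_lower {n k : ℕ} (hk : n - 1 < k) (hlt : k < n.choose 2) (hk2 : 2 * k ≤ 3 * n) :
    ∃ G : SimpleGraph (Fin n), G.Connected ∧ G.edgeSet.ncard = k ∧ ∀ ord,
      (k : ℝ) / 2 - 90 * ((n : ℝ) ^ (2 / 3 : ℝ) * Real.log n ^ (1 / 3 : ℝ)) ≤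
        (eps G ord : ℝ) := by
  have hn2 : 2 ≤ n := by
    by_contra hcon
    have : n ≤ 1 := by omega
    interval_cases n <;> simp at hlt
  have hnR : (2 : ℝ) ≤ n := by exact_mod_cast hn2
  have hn0 : (0 : ℝ) < n := by linarith
  have hlog : 0 < Real.log n := Real.log_pos (by linarith)
  obtain ⟨a, ha⟩ : ∃ a, a = (n : ℝ) ^ (1 / 3 : ℝ) := ⟨_, rfl⟩
  obtain ⟨b, hb⟩ : ∃ b, b = Real.log n ^ (1 / 3 : ℝ) := ⟨_, rfl⟩
  have ha0 : 0 < a := by rw [ha]; positivity
  have hb0 : 0 < b := by rw [hb]; positivity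
  have ha3 : a ^ 3 = n := by
    rw [ha, ← Real.rpow_natCast, ← Real.rpow_mul hn0.le]
    norm_num
  have hb3 : b ^ 3 = Real.log n := by
    rw [hb, ← Real.rpow_natCast, ← Real.rpow_mul hlog.le]
    norm_num
  have ha2 : (n : ℝ) ^ (2 / 3 : ℝ) = a ^ 2 := by
    rw [ha, ← Real.rpow_natCast, ← Real.rpow_mul hn0.le]
    norm_num
  rw [ha2, ← hb]
  have hkR : (k : ℝ) ≤ 3 / 2 * n := by
    have : (2 : ℝ) * k ≤ 3 * n := by exact_mod_cast hk2
    linarith
  by_cases hn : 20 ≤ n
  · have hn20 : (20 : ℝ) ≤ n := by exact_mod_cast hn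
    have he : Real.exp 1 < 2.7182818286 := Real.exp_one_lt_d9
    have h3e : 1 + Real.log 3 ≤ Real.log n := by
      have h1 : Real.log (Real.exp 1 * 3) ≤ Real.log n :=
        Real.log_le_log (by positivity) (by linarith)
      rwa [Real.log_mul (by positivity) (by norm_num), Real.log_exp] at h1
    have hlog1 : 1 ≤ Real.log n := by
      have : 0 ≤ Real.log 3 := Real.log_nonneg (by norm_num)
      linarith
    have hb1 : 1 ≤ b := by
      by_contra hcon
      push Not at hcon
      have : b ^ 3 < 1 := pow_lt_one₀ hb0.le hcon (by norm_num)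
      linarith
    have hab : b ≤ a := by
      have h1 : b ^ 3 ≤ a ^ 3 := by
        rw [ha3, hb3]
        have := Real.log_le_sub_one_of_pos hn0
        linarith
      exact le_of_pow_le_pow_left₀ (by norm_num) ha0.le h1
    have ha1 : 1 ≤ a := hb1.trans hab
    obtain ⟨x, hx⟩ : ∃ x, x = a / b := ⟨_, rfl⟩
    have hx1 : 1 ≤ x := by rw [hx, one_le_div hb0]; exact hab
    obtain ⟨G, hG1, hG2, hG3⟩ := sparse_exists ⌈x⌉₊ hn hk hk2
    refine ⟨G, hG1, hG2, fun ord => ?_⟩
    have h1 : (((k : ℚ) / 2 - 17 / 2 - 3 * ((⌈x⌉₊ : ℚ) * (2 * ⌈x⌉₊ + 1)) * harmonic (3 * n) -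
        4 * k / (⌈x⌉₊ + 4) : ℚ) : ℝ) ≤ ((eps G ord : ℚ) : ℝ) := Rat.cast_le.mpr (hG3 ord)
    push_cast at h1
    refine le_trans ?_ h1
    have hL1 : x ≤ (⌈x⌉₊ : ℝ) := Nat.le_ceil x
    have hL2 : (⌈x⌉₊ : ℝ) ≤ 2 * x := by
      have := (Nat.ceil_lt_add_one (by linarith : (0 : ℝ) ≤ x)).le
      linarith
    have hxlog : x ^ 2 * Real.log n = a ^ 2 * b := by
      rw [hx, ← hb3]
      field_simp
    have hnx : (n : ℝ) / x = a ^ 2 * b := by
      rw [hx, ← ha3]
      field_simp
    have hy1 : 1 ≤ a ^ 2 * b := by nlinarith [mul_nonneg ha0.le hb0.le, sq_nonneg a]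
    have hharm : ((harmonic (3 * n) : ℚ) : ℝ) ≤ 2 * Real.log n := by
      refine (harmonic_le_one_add_log (3 * n)).trans ?_
      push_cast
      rw [Real.log_mul (by norm_num) hn0.ne']
      linarith
    have hT1 : 3 * ((⌈x⌉₊ : ℝ) * (2 * ⌈x⌉₊ + 1)) * (harmonic (3 * n) : ℚ) ≤ 72 * (a ^ 2 * b) := by
      have hc : (⌈x⌉₊ : ℝ) * (2 * ⌈x⌉₊ + 1) ≤ 12 * x ^ 2 := by
        have h2 : (0 : ℝ) ≤ ⌈x⌉₊ := by positivity
        calc (⌈x⌉₊ : ℝ) * (2 * ⌈x⌉₊ + 1) ≤ (2 * x) * (2 * (2 * x) + 2 * x) := by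
              refine mul_le_mul hL2 ?_ (by linarith) (by linarith)
              linarith
          _ = 12 * x ^ 2 := by ring
      calc 3 * ((⌈x⌉₊ : ℝ) * (2 * ⌈x⌉₊ + 1)) * (harmonic (3 * n) : ℚ) ≤
            3 * (12 * x ^ 2) * (2 * Real.log n) := by
            refine mul_le_mul (by linarith) hharm ?_ (by positivity)
            have : (0 : ℚ) ≤ harmonic (3 * n) := by
              unfold harmonic
              exact sum_nonneg fun i _ => by positivity
            exact_mod_cast this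
        _ = 72 * (x ^ 2 * Real.log n) := by ring
        _ = _ := by rw [hxlog]
    have hT2 : 4 * (k : ℝ) / (⌈x⌉₊ + 4) ≤ 6 * (a ^ 2 * b) := by
      calc 4 * (k : ℝ) / (⌈x⌉₊ + 4) ≤ (6 * n) / x := by
            refine div_le_div₀ (by positivity) (by linarith) (by linarith) (by linarith)
        _ = 6 * (n / x) := by ring
        _ = _ := by rw [hnx]
    linarith
  · push Not at hn
    obtain ⟨s, p, hp, hj⟩ := exists_params (k - (n - 1))
    obtain ⟨G, hG1, hG2, _⟩ := attained n k s p hp (by omega) hlt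
    refine ⟨G, hG1, hG2, fun ord => ?_⟩
    have h0 : (0 : ℝ) ≤ ((eps G ord : ℚ) : ℝ) := by exact_mod_cast eps_nonneg G ord
    refine le_trans ?_ h0
    have hn20 : (n : ℝ) ≤ 20 := by exact_mod_cast hn.le
    have ha3' : a ≤ 3 := by
      by_contra hcon
      push Not at hcon
      have : (3 : ℝ) ^ 3 < a ^ 3 := pow_lt_pow_left₀ hcon (by norm_num) (by norm_num)
      rw [ha3] at this
      linarith
    have hb' : 1 / 4 ≤ b := by
      by_contra hcon
      push Not at hcon
      have h1 : b ^ 3 < (1 / 4) ^ 3 := pow_lt_pow_left₀ hcon hb0.le (by norm_num)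
      rw [hb3] at h1
      have h2 : Real.log 2 ≤ Real.log n := Real.log_le_log (by norm_num) hnR
      have h3 : (0.6931471803 : ℝ) < Real.log 2 := Real.log_two_gt_d9
      norm_num at h1 h3
      linarith
    have h1 : (k : ℝ) / 2 ≤ 3 / 4 * (a ^ 2 * a) := by
      have : a ^ 2 * a = n := by rw [← ha3]; ring
      rw [this]
      linarith
    have h2 : 3 / 4 * (a ^ 2 * a) ≤ 90 * (a ^ 2 * b) := by
      have h3 : 3 / 4 * a ≤ 90 * b := by linarith
      calc 3 / 4 * (a ^ 2 * a) = a ^ 2 * (3 / 4 * a) := by ring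
        _ ≤ a ^ 2 * (90 * b) := mul_le_mul_of_nonneg_left h3 (by positivity)
        _ = _ := by ring
    linarith

end Pool.Agent.Work.MP_6229d2_co
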