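import Pool.Agent.Work.MP_6229d2_co.SparseCycle

set_option autoImplicit false

/-! Subcubic graphs with few short cycles: a greedy construction. -/

namespace Pool.Agent.Work.MP_6229d2_co

open scoped Classical
open Finset

section
variable {V : Type} [Fintype V]

/-! ### Paths as edge sets -/

/-- the edge sets of the paths with `l` edges from `x` to `y` that avoid `X` -/
noncomputable def PS (G : SimpleGraph V) : ℕ → Finset V → V → V → Finset (Finset (Sym2 V))
  | 0, _, x, y => if x = y then {∅} else ∅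
  | l + 1, X, x, y => ((nbr G x).filter fun c => c ∉ insert x X).biUnion fun c =>
      (PS G l (insert x X) c y).image (insert s(x, c))

lemma PS_mem {G : SimpleGraph V} {x y : V} (p : G.Walk x y) : ∀ (X : Finset V), p.IsPath →
    (∀ z ∈ p.support, z ∉ X) → p.edges.toFinset ∈ PS G p.length X x y := by
  induction p with
  | nil =>
    intro X _ _
    rw [SimpleGraph.Walk.length_nil, PS]
    simp
  | @cons u v w h p ih =>
    intro X hp hX
    rw [SimpleGraph.Walk.cons_isPath_iff] at hp
    have hX' : ∀ z ∈ p.support, z ∉ insert u X := by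
      intro z hz
      rw [mem_insert, not_or]
      refine ⟨?_, hX z (by rw [SimpleGraph.Walk.support_cons]; exact List.mem_cons_of_mem _ hz)⟩
      rintro rfl
      exact hp.2 hz
    rw [SimpleGraph.Walk.length_cons, PS, mem_biUnion]
    refine ⟨v, ?_, ?_⟩
    · rw [mem_filter]
      exact ⟨mem_nbr.mpr h, hX' v p.start_mem_support⟩
    · rw [mem_image]
      refine ⟨p.edges.toFinset, ih _ hp.1 hX', ?_⟩
      rw [SimpleGraph.Walk.edges_cons, List.toFinset_cons]

lemma PS_sum_succ (G : SimpleGraph V) (l : ℕ) (X : Finset V) (x : V) :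
    ∑ y, (PS G (l + 1) X x y).card ≤
      ∑ c ∈ (nbr G x).filter fun c => c ∉ insert x X, ∑ y, (PS G l (insert x X) c y).card := by
  rw [sum_comm]
  refine sum_le_sum fun y _ => ?_
  rw [PS]
  refine card_biUnion_le.trans (sum_le_sum fun c _ => card_image_le)

lemma PS_card {G : SimpleGraph V} (hG : ∀ v, (nbr G v).card ≤ 3) : ∀ (l : ℕ) (X : Finset V)
    (x w : V), w ∈ X → G.Adj x w → ∑ y, (PS G l X x y).card ≤ 2 ^ l := by
  intro l
  induction l with
  | zero =>
    intro X x w _ _
    have : ∀ y, (PS G 0 X x y).card = if x = y then 1 else 0 := by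
      intro y
      rw [PS]
      split_ifs <;> simp
    simp_rw [this]
    simp
  | succ l ih =>
    intro X x w hw hxw
    refine (PS_sum_succ G l X x).trans ?_
    have h1 : ((nbr G x).filter fun c => c ∉ insert x X).card ≤ 2 := by
      have h1 : ((nbr G x).filter fun c => c ∉ insert x X) ⊆ (nbr G x).erase w := by
        intro c hc
        rw [mem_filter] at hc
        rw [mem_erase]
        refine ⟨?_, hc.1⟩
        rintro rfl
        exact hc.2 (mem_insert_of_mem hw)
      have h2 := card_le_card h1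
      rw [card_erase_of_mem (mem_nbr.mpr hxw)] at h2
      have := hG x
      omega
    calc ∑ c ∈ (nbr G x).filter fun c => c ∉ insert x X, ∑ y, (PS G l (insert x X) c y).card
        ≤ ∑ c ∈ (nbr G x).filter fun c => c ∉ insert x X, 2 ^ l := by
          refine sum_le_sum fun c hc => ?_
          rw [mem_filter] at hc
          exact ih _ c x (mem_insert_self x X) (mem_nbr.mp hc.1).symm
      _ = ((nbr G x).filter fun c => c ∉ insert x X).card * 2 ^ l := by
          rw [sum_const, smul_eq_mul]
      _ ≤ 2 * 2 ^ l := Nat.mul_le_mul_right _ h1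
      _ = 2 ^ (l + 1) := by rw [pow_succ]; ring

/-- paths from a vertex of degree at most two -/
lemma PS_card' {G : SimpleGraph V} (hG : ∀ v, (nbr G v).card ≤ 3) {x : V}
    (hx : (nbr G x).card ≤ 2) (l : ℕ) : ∑ y, (PS G l ∅ x y).card ≤ 2 ^ l := by
  cases l with
  | zero =>
    have : ∀ y, (PS G 0 ∅ x y).card = if x = y then 1 else 0 := by
      intro y
      rw [PS]
      split_ifs <;> simp
    simp_rw [this]
    simp
  | succ l =>
    refine (PS_sum_succ G l ∅ x).trans ?_
    calc ∑ c ∈ (nbr G x).filter fun c => c ∉ insert x ∅, ∑ y, (PS G l (insert x ∅) c y).card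
        ≤ ∑ c ∈ (nbr G x).filter fun c => c ∉ insert x ∅, 2 ^ l := by
          refine sum_le_sum fun c hc => ?_
          rw [mem_filter] at hc
          exact PS_card hG l _ c x (mem_insert_self x ∅) (mem_nbr.mp hc.1).symm
      _ = ((nbr G x).filter fun c => c ∉ insert x ∅).card * 2 ^ l := by
          rw [sum_const, smul_eq_mul]
      _ ≤ 2 * 2 ^ l := Nat.mul_le_mul_right _ ((card_filter_le _ _).trans hx)
      _ = 2 ^ (l + 1) := by rw [pow_succ]; ring

lemma PS_isolated {G : SimpleGraph V} {y : V} (hy : ∀ z, ¬ G.Adj z y) : ∀ (l : ℕ) (X : Finset V)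
    (x : V), x ≠ y → PS G l X x y = ∅ := by
  intro l
  induction l with
  | zero =>
    intro X x hxy
    rw [PS, if_neg hxy]
  | succ l ih =>
    intro X x _
    rw [PS, eq_empty_iff_forall_notMem]
    intro F hF
    rw [mem_biUnion] at hF
    obtain ⟨c, hc, hF⟩ := hF
    rw [mem_filter] at hc
    rw [mem_image] at hF
    obtain ⟨F', hF', _⟩ := hF
    rw [ih _ c ?_] at hF'
    · simp at hF'
    · rintro rfl
      exact hy x (mem_nbr.mp hc.1)

/-! ### Adding an edge -/

/-- the cycles that appear when the edge `xy` is added -/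
lemma Cyc_addE {G : SimpleGraph V} (M : ℕ) {x y : V} {B : Finset (Sym2 V)}
    (hB : B ∈ Cyc (addE G x y) M) :
    B ∈ Cyc G M ∨ B ∈ (PS G (B.card - 1) ∅ x y).image (insert s(y, x)) := by
  unfold Cyc at hB
  rw [mem_filter] at hB
  obtain ⟨_, hcard, v, c, hc, rfl⟩ := hB
  have hE : ∀ e ∈ (addE G x y).edgeSet, e ≠ s(y, x) → e ∈ G.edgeSet := by
    intro e he hne
    induction e using Sym2.ind with
    | _ a b =>
      rw [SimpleGraph.mem_edgeSet, addE_adj] at he
      rcases he with he | ⟨_, ⟨rfl, rfl⟩ | ⟨rfl, rfl⟩⟩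
      · exact he
      · exact absurd Sym2.eq_swap hne
      · exact absurd rfl hne
  by_cases hmem : s(y, x) ∈ c.edges
  · right
    obtain ⟨p, hp, hep, hpc⟩ := cycle_exact c hc hmem
    have hpG : ∀ e ∈ p.edges, e ∈ G.edgeSet := by
      intro e he
      refine hE e (p.edges_subset_edgeSet he) ?_
      rintro rfl
      exact hep he
    have h2 : c.edges.toFinset.card = p.length + 1 := by
      rw [← hpc, card_insert_of_notMem (by rwa [List.mem_toFinset]),
        List.toFinset_card_of_nodup hp.isTrail.edges_nodup, SimpleGraph.Walk.length_edges]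
    rw [mem_image]
    refine ⟨p.edges.toFinset, ?_, hpc⟩
    have h3 := PS_mem (p.transfer G hpG) ∅ (hp.transfer hpG) (fun z _ => notMem_empty z)
    rw [SimpleGraph.Walk.edges_transfer, SimpleGraph.Walk.length_transfer] at h3
    rw [h2, Nat.add_sub_cancel]
    exact h3
  · left
    have hcG : ∀ e ∈ c.edges, e ∈ G.edgeSet := by
      intro e he
      refine hE e (c.edges_subset_edgeSet he) ?_
      rintro rfl
      exact hmem he
    unfold Cyc
    rw [mem_filter]
    refine ⟨mem_univ _, hcard, v, c.transfer G hcG, hc.transfer hcG, ?_⟩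
    rw [SimpleGraph.Walk.edges_transfer]

lemma Phi_add (G : SimpleGraph V) (M : ℕ) (x y : V) :
    Phi (addE G x y) M ≤
      Phi G M + ∑ j ∈ range (M + 1), wt j * ((PS G (j - 1) ∅ x y).card : ℚ) := by
  have h1 : Phi (addE G x y) M =
      ∑ B ∈ (Cyc (addE G x y) M).filter (fun B => B ∈ Cyc G M), wt B.card +
      ∑ B ∈ (Cyc (addE G x y) M).filter (fun B => B ∉ Cyc G M), wt B.card := by
    unfold Phi
    rw [sum_filter_add_sum_filter_not]
  have h2 : ∑ B ∈ (Cyc (addE G x y) M).filter (fun B => B ∈ Cyc G M), wt B.card ≤ Phi G M := by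
    unfold Phi
    refine sum_le_sum_of_subset_of_nonneg (fun B hB => (mem_filter.mp hB).2)
      fun B _ _ => wt_nonneg _
  have h3 : ∑ B ∈ (Cyc (addE G x y) M).filter (fun B => B ∉ Cyc G M), wt B.card ≤
      ∑ j ∈ range (M + 1), wt j * ((PS G (j - 1) ∅ x y).card : ℚ) := by
    rw [← sum_fiberwise_of_maps_to (t := range (M + 1)) (g := fun B => B.card)]
    · refine sum_le_sum fun j _ => ?_
      rw [sum_congr rfl (g := fun _ => wt j) (fun B hB => by rw [(mem_filter.mp hB).2]),
        sum_const, nsmul_eq_mul, mul_comm]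
      refine mul_le_mul_of_nonneg_left ?_ (wt_nonneg j)
      have h4 : (((Cyc (addE G x y) M).filter (fun B => B ∉ Cyc G M)).filter fun B => B.card = j) ⊆
          (PS G (j - 1) ∅ x y).image (insert s(y, x)) := by
        intro B hB
        rw [mem_filter, mem_filter] at hB
        obtain ⟨⟨hB1, hB2⟩, rfl⟩ := hB
        rcases Cyc_addE M hB1 with h | h
        · exact absurd h hB2
        · exact h
      exact_mod_cast (card_le_card h4).trans card_image_le
    · intro B hB
      rw [mem_filter] at hB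
      have h5 := hB.1
      unfold Cyc at h5
      rw [mem_filter] at h5
      rw [mem_range]
      omega
  linarith

/-- the average of the increments -/
lemma inc_sum {G : SimpleGraph V} (hG : ∀ v, (nbr G v).card ≤ 3) {x : V}
    (hx : (nbr G x).card ≤ 2) (M : ℕ) (D : Finset V) :
    ∑ y ∈ D, ∑ j ∈ range (M + 1), wt j * ((PS G (j - 1) ∅ x y).card : ℚ) ≤ M * (M + 1) := by
  rw [sum_comm]
  calc ∑ j ∈ range (M + 1), ∑ y ∈ D, wt j * ((PS G (j - 1) ∅ x y).card : ℚ)
      ≤ ∑ j ∈ range (M + 1), (2 * j : ℚ) := by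
        refine sum_le_sum fun j _ => ?_
        rw [← mul_sum]
        rcases Nat.eq_zero_or_pos j with rfl | hj
        · unfold wt
          simp
        · obtain ⟨i, rfl⟩ : ∃ i, j = i + 1 := ⟨j - 1, by omega⟩
          rw [Nat.add_sub_cancel]
          have h1 : ∑ y ∈ D, ((PS G i ∅ x y).card : ℚ) ≤ 2 ^ i := by
            have h2 := (sum_le_sum_of_subset (f := fun y => (PS G i ∅ x y).card)
              (subset_univ D)).trans (PS_card' hG hx i)
            exact_mod_cast h2
          calc wt (i + 1) * ∑ y ∈ D, ((PS G i ∅ x y).card : ℚ) ≤ wt (i + 1) * 2 ^ i :=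
                mul_le_mul_of_nonneg_left h1 (wt_nonneg _)
            _ = 2 * ((i + 1 : ℕ) : ℚ) := by
                unfold wt
                rw [pow_succ]
                field_simp
                ring
    _ = M * (M + 1) := by
        rw [← mul_sum]
        have h1 := sum_range_id_mul_two (M + 1)
        rw [Nat.add_sub_cancel] at h1
        have h2 : ((∑ j ∈ range (M + 1), j : ℕ) : ℚ) * 2 = (M + 1) * M := by exact_mod_cast h1
        push_cast at h2
        linarith

lemma edg_addE {G : SimpleGraph V} {x y : V} (hxy : x ≠ y) (hn : ¬ G.Adj x y) :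
    (edg (addE G x y)).card = (edg G).card + 1 := by
  have h1 : edg (addE G x y) = insert s(x, y) (edg G) := by
    ext e
    induction e using Sym2.ind with
    | _ a b =>
      rw [mem_insert, mem_edg, mem_edg, SimpleGraph.mem_edgeSet, SimpleGraph.mem_edgeSet, addE_adj,
        Sym2.eq_iff]
      constructor
      · rintro (h | ⟨_, h⟩)
        · exact Or.inr h
        · exact Or.inl h
      · rintro (h | h)
        · refine Or.inr ⟨?_, h⟩
          rcases h with ⟨rfl, rfl⟩ | ⟨rfl, rfl⟩
          · exact hxy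
          · exact hxy.symm
        · exact Or.inl h
  rw [h1, card_insert_of_notMem]
  rw [mem_edg, SimpleGraph.mem_edgeSet]
  exact hn

lemma nbr_addE {G : SimpleGraph V} {x y : V} (hG : ∀ v, (nbr G v).card ≤ 3)
    (hx : (nbr G x).card ≤ 2) (hy : (nbr G y).card ≤ 2) (v : V) :
    (nbr (addE G x y) v).card ≤ 3 := by
  by_cases hvx : v = x
  · subst hvx
    have : nbr (addE G v y) v ⊆ insert y (nbr G v) := by
      intro z hz
      rw [mem_nbr, addE_adj] at hz
      rw [mem_insert, mem_nbr]
      rcases hz with hz | ⟨hvz, ⟨_, hz⟩ | ⟨h1, h2⟩⟩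
      · exact Or.inr hz
      · exact Or.inl hz
      · exact absurd h2.symm hvz
    have := (card_le_card this).trans (card_insert_le _ _)
    omega
  · by_cases hvy : v = y
    · subst hvy
      have : nbr (addE G x v) v ⊆ insert x (nbr G v) := by
        intro z hz
        rw [mem_nbr, addE_adj] at hz
        rw [mem_insert, mem_nbr]
        rcases hz with hz | ⟨hvz, ⟨h1, h2⟩ | ⟨_, hz⟩⟩
        · exact Or.inr hz
        · exact absurd h1 hvx
        · exact Or.inl hz
      have := (card_le_card this).trans (card_insert_le _ _)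
      omega
    · have : nbr (addE G x y) v ⊆ nbr G v := by
        intro z hz
        rw [mem_nbr, addE_adj] at hz
        rw [mem_nbr]
        rcases hz with hz | ⟨_, ⟨h1, _⟩ | ⟨h1, _⟩⟩
        · exact hz
        · exact absurd h1 hvx
        · exact absurd h1 hvy
      exact (card_le_card this).trans (hG v)

end

/-! ### The path -/

/-- the path on the vertices smaller than `m` -/
def pathG (n m : ℕ) : SimpleGraph (Fin n) where
  Adj i j := (i.val + 1 = j.val ∧ j.val < m) ∨ (j.val + 1 = i.val ∧ i.val < m)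
  symm := ⟨fun _ _ h => h.symm⟩
  loopless := ⟨fun i h => by
    rcases h with h | h <;> omega⟩

lemma pathG_succ {n m : ℕ} (hm : m < n) (h1 : 1 ≤ m) :
    pathG n (m + 1) = addE (pathG n m) ⟨m - 1, by omega⟩ ⟨m, hm⟩ := by
  ext i j
  rw [addE_adj]
  simp only [pathG, ne_eq, Fin.ext_iff]
  omega

lemma pathG_card {n : ℕ} : ∀ {m : ℕ}, m ≤ n → 1 ≤ m → (edg (pathG n m)).card = m - 1 := by
  intro m
  induction m with
  | zero => intro _ h; omega
  | succ m ih =>
    intro hmn _
    rcases Nat.eq_zero_or_pos m with rfl | hm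
    · rw [card_eq_zero, eq_empty_iff_forall_notMem]
      intro e
      induction e using Sym2.ind with
      | _ a b =>
        rw [mem_edg, SimpleGraph.mem_edgeSet]
        simp only [pathG]
        omega
    · rw [pathG_succ (by omega) hm, edg_addE, ih (by omega) hm]
      · omega
      · intro h
        rw [Fin.ext_iff] at h
        simp only at h
        omega
      · simp only [pathG]
        omega

lemma pathG_Phi {n : ℕ} (M : ℕ) : ∀ {m : ℕ}, m ≤ n → 1 ≤ m → Phi (pathG n m) M ≤ 0 := by
  intro m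
  induction m with
  | zero => intro _ h; omega
  | succ m ih =>
    intro hmn _
    rcases Nat.eq_zero_or_pos m with rfl | hm
    · have : Cyc (pathG n (0 + 1)) M = ∅ := by
        rw [eq_empty_iff_forall_notMem]
        intro B hB
        rw [mem_Cyc] at hB
        obtain ⟨_, v, c, hc, _⟩ := hB
        cases c with
        | nil => exact hc.ne_nil rfl
        | cons h q =>
          simp only [pathG] at h
          omega
      unfold Phi
      rw [this, sum_empty]
    · rw [pathG_succ (by omega) hm]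
      refine (Phi_add _ M _ _).trans ?_
      have h1 : ∀ j, PS (pathG n m) (j - 1) ∅ (⟨m - 1, by omega⟩ : Fin n) ⟨m, by omega⟩ = ∅ := by
        intro j
        apply PS_isolated
        · intro z h
          simp only [pathG] at h
          omega
        · intro h
          rw [Fin.ext_iff] at h
          simp only at h
          omega
      simp_rw [h1]
      simp only [card_empty, Nat.cast_zero, mul_zero, sum_const_zero, add_zero]
      exact ih (by omega) hm

lemma pathG_nbr (n m : ℕ) (v : Fin n) : (nbr (pathG n m) v).card ≤ 2 := by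
  have h1 : (nbr (pathG n m) v).image Fin.val ⊆ {v.val - 1, v.val + 1} := by
    intro z hz
    rw [mem_image] at hz
    obtain ⟨w, hw, rfl⟩ := hz
    rw [mem_nbr] at hw
    simp only [pathG] at hw
    rw [mem_insert, mem_singleton]
    omega
  have h2 := card_le_card h1
  rw [card_image_of_injective _ Fin.val_injective] at h2
  exact h2.trans card_le_two

lemma pathG_reach {n m : ℕ} (hn : 0 < n) (i : Fin n) (hi : i.val < m) :
    (pathG n m).Reachable ⟨0, hn⟩ i := by
  obtain ⟨k, hk⟩ : ∃ k, k = i.val := ⟨_, rfl⟩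
  induction k generalizing i with
  | zero =>
    have : i = ⟨0, hn⟩ := Fin.ext hk.symm
    rw [this]
  | succ k ih =>
    have h1 := ih ⟨k, by omega⟩ (by simp only; omega) rfl
    refine h1.trans (SimpleGraph.Adj.reachable ?_)
    left
    exact ⟨hk, hi⟩

/-! ### The greedy construction -/

lemma greedy_step {n m M u : ℕ} (hmn : m ≤ n) {G : SimpleGraph (Fin n)} (hP : pathG n m ≤ G)
    (hin : ∀ i j, G.Adj i j → i.val < m) (hG : ∀ v, (nbr G v).card ≤ 3) (hu : 18 ≤ u)
    (hE : 2 * (edg G).card + u = 3 * m) :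
    ∃ G' : SimpleGraph (Fin n), pathG n m ≤ G' ∧ (∀ i j, G'.Adj i j → i.val < m) ∧
      (∀ v, (nbr G' v).card ≤ 3) ∧ (edg G').card = (edg G).card + 1 ∧
      Phi G' M ≤ Phi G M + 6 * (M * (M + 1)) / u := by
  obtain ⟨S, hS⟩ : ∃ S, S = univ.filter fun v : Fin n => v.val < m := ⟨_, rfl⟩
  obtain ⟨D, hD⟩ : ∃ D, D = S.filter fun v => (nbr G v).card ≤ 2 := ⟨_, rfl⟩
  have hScard : S.card = m := by rw [hS]; exact card_filter_lt n m hmn
  have h1 : 3 * m ≤ 2 * (edg G).card + 3 * D.card := by
    have h2 : ∑ v ∈ S, 3 ≤ ∑ v ∈ S, ((nbr G v).card + 3 * if (nbr G v).card ≤ 2 then 1 else 0) := by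
      refine sum_le_sum fun v _ => ?_
      split_ifs <;> omega
    rw [sum_const, smul_eq_mul, hScard, sum_add_distrib, ← mul_sum, ← sum_filter,
      sum_const, smul_eq_mul, mul_one, ← hD] at h2
    have h3 : ∑ v ∈ S, (nbr G v).card ≤ ∑ v, (nbr G v).card :=
      sum_le_sum_of_subset (subset_univ S)
    rw [handshake] at h3
    omega
  obtain ⟨x, hx⟩ : ∃ x, x ∈ D := card_pos.mp (by omega)
  have hx' := hx
  rw [hD, mem_filter, hS, mem_filter] at hx'
  obtain ⟨D', hD'⟩ : ∃ D', D' = D \ insert x (nbr G x) := ⟨_, rfl⟩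
  have hD'card : D.card ≤ D'.card + 3 := by
    have h2 := card_le_card_sdiff_add_card (s := D) (t := insert x (nbr G x))
    have h3 := card_insert_le x (nbr G x)
    rw [hD']
    omega
  have hpos : (0 : ℚ) < D'.card := by
    have : 0 < D'.card := by omega
    exact_mod_cast this
  have hne : D'.Nonempty := by
    rw [← card_pos]
    omega
  obtain ⟨y, hy, hyinc⟩ : ∃ y ∈ D', ∑ j ∈ range (M + 1), wt j * ((PS G (j - 1) ∅ x y).card : ℚ) ≤
      (M * (M + 1)) / D'.card := by
    refine exists_le_of_sum_le hne ?_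
    refine (inc_sum hG hx'.2 M D').trans ?_
    rw [sum_const, nsmul_eq_mul, mul_div_cancel₀ _ hpos.ne']
  rw [hD', mem_sdiff, hD, mem_filter, hS, mem_filter, mem_insert, not_or, mem_nbr] at hy
  obtain ⟨⟨⟨_, hym⟩, hy2⟩, hyx, hadj⟩ := hy
  refine ⟨addE G x y, hP.trans (le_addE G x y), ?_, nbr_addE hG hx'.2 hy2,
    edg_addE (Ne.symm hyx) hadj, ?_⟩
  · rintro i j (h | ⟨_, ⟨rfl, _⟩ | ⟨rfl, _⟩⟩)
    · exact hin i j h
    · exact hx'.1.2
    · exact hym
  · refine (Phi_add G M x y).trans ?_
    have hup : (0 : ℚ) < u := by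
      have : 0 < u := by omega
      exact_mod_cast this
    have h2 : ((M : ℚ) * (M + 1)) / D'.card ≤ 6 * (M * (M + 1)) / u := by
      rw [div_le_div_iff₀ hpos hup]
      have h3 : (u : ℚ) ≤ 6 * D'.card := by
        have : u ≤ 6 * D'.card := by omega
        exact_mod_cast this
      calc (M : ℚ) * (M + 1) * u ≤ M * (M + 1) * (6 * D'.card) :=
            mul_le_mul_of_nonneg_left h3 (by positivity)
        _ = _ := by ring
    linarith

lemma harmonic_diff {u : ℕ} (hu : 2 ≤ u) : (2 : ℚ) / u ≤ harmonic u - harmonic (u - 2) := by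
  obtain ⟨w, rfl⟩ : ∃ w, u = w + 2 := ⟨u - 2, by omega⟩
  rw [Nat.add_sub_cancel, harmonic_succ, harmonic_succ]
  push_cast
  have h1 : (0 : ℚ) < w + 1 := by positivity
  have h3 : ((w : ℚ) + 1 + 1)⁻¹ ≤ ((w : ℚ) + 1)⁻¹ := inv_anti₀ h1 (by linarith)
  have h4 : (2 : ℚ) / (w + 2) = ((w : ℚ) + 1 + 1)⁻¹ + ((w : ℚ) + 1 + 1)⁻¹ := by
    rw [show (w : ℚ) + 1 + 1 = w + 2 by ring]
    ring
  rw [h4]
  linarith

/-- **subcubic graphs with few short cycles and any number of edges** -/
theorem greedy {n m : ℕ} (M : ℕ) (hmn : m ≤ n) (hm : 1 ≤ m) : ∀ r : ℕ,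
    2 * (m - 1 + r) + 16 ≤ 3 * m →
    ∃ G : SimpleGraph (Fin n), pathG n m ≤ G ∧ (∀ i j, G.Adj i j → i.val < m) ∧
      (∀ v, (nbr G v).card ≤ 3) ∧ (edg G).card = m - 1 + r ∧
      Phi G M ≤ 3 * (M * (M + 1)) * (harmonic (3 * m) - harmonic (3 * m - 2 * (m - 1 + r))) := by
  intro r
  induction r with
  | zero =>
    intro _
    refine ⟨pathG n m, le_rfl, ?_, fun v => (pathG_nbr n m v).trans (by norm_num),
      by rw [pathG_card hmn hm, add_zero], (pathG_Phi M hmn hm).trans ?_⟩
    · intro i j h
      simp only [pathG] at h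
      omega
    · have h1 : harmonic (3 * m - 2 * (m - 1 + 0)) ≤ harmonic (3 * m) := by
        unfold harmonic
        refine sum_le_sum_of_subset_of_nonneg ?_ fun i _ _ => by positivity
        intro i hi
        rw [mem_range] at hi ⊢
        omega
      have h2 : (0 : ℚ) ≤ 3 * (M * (M + 1)) := by positivity
      exact mul_nonneg h2 (by linarith)
  | succ r ih =>
    intro hr
    obtain ⟨G, h1, h2, h3, h4, h5⟩ := ih (by omega)
    obtain ⟨u, hu⟩ : ∃ u, u = 3 * m - 2 * (m - 1 + r) := ⟨_, rfl⟩
    obtain ⟨G', g1, g2, g3, g4, g5⟩ := greedy_step (M := M) (u := u) hmn h1 h2 h3 (by omega)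
      (by omega)
    refine ⟨G', g1, g2, g3, by omega, g5.trans ?_⟩
    have h6 := harmonic_diff (u := u) (by omega)
    rw [← hu] at h5
    have h7 : 3 * m - 2 * (m - 1 + (r + 1)) = u - 2 := by omega
    rw [h7]
    have h8 : (0 : ℚ) ≤ 3 * (M * (M + 1)) := by positivity
    have h9 := mul_le_mul_of_nonneg_left h6 h8
    have h10 : (6 : ℚ) * (M * (M + 1)) / u = 3 * (M * (M + 1)) * (2 / u) := by ring
    rw [h10]
    calc Phi G M + 3 * (M * (M + 1)) * (2 / (u : ℚ)) ≤
          3 * (M * (M + 1)) * (harmonic (3 * m) - harmonic u) +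
            3 * (M * (M + 1)) * (harmonic u - harmonic (u - 2)) := add_le_add h5 h9
      _ = _ := by ring

end Pool.Agent.Work.MP_6229d2_co
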