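import Pool.Agent.Work.MP_6229d2_co.Defs

set_option autoImplicit false

namespace Pool.Agent.Work.MP_6229d2_co

open scoped Classical
open Finset

variable {V : Type} [Fintype V]

/-- `f` is constant on the ends of the edge `e` -/
def Mono {C : Type} (f : V → C) (e : Sym2 V) : Prop := ∀ u ∈ e, ∀ v ∈ e, f u = f v

omit [Fintype V] in
lemma mono_mk {C : Type} (f : V → C) (u v : V) : Mono f s(u, v) ↔ f u = f v := by
  unfold Mono
  constructor
  · intro h; exact h u (by simp) v (by simp)
  · intro h x hx y hy
    rw [Sym2.mem_iff] at hx hy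
    rcases hx with rfl | rfl <;> rcases hy with rfl | rfl <;> simp [h]

/-- colourings that are constant along all edges of `F` -/
noncomputable def monoSet (C : Type) [Fintype C] (F : Finset (Sym2 V)) : Finset (V → C) :=
  univ.filter fun f => ∀ e ∈ F, Mono f e

/-- proper colourings -/
noncomputable def col (C : Type) [Fintype C] (G : SimpleGraph V) : Finset (V → C) :=
  univ.filter fun f => ∀ u v, G.Adj u v → f u ≠ f v

lemma mem_col {C : Type} [Fintype C] {G : SimpleGraph V} {f : V → C} :
    f ∈ col C G ↔ ∀ u v, G.Adj u v → f u ≠ f v := by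
  simp [col]

lemma mem_col' {C : Type} [Fintype C] {G : SimpleGraph V} {f : V → C} :
    f ∈ col C G ↔ ∀ e ∈ G.edgeSet, ¬ Mono f e := by
  rw [mem_col]
  constructor
  · intro h e
    induction e using Sym2.ind with
    | _ u v =>
      intro he
      rw [mono_mk]
      exact h u v he
  · intro h u v huv
    have := h s(u, v) huv
    rwa [mono_mk] at this

omit [Fintype V] in
/-- if `f` is constant along the edges of `F` then it is constant along paths -/
lemma mono_of_reachable {C : Type} (f : V → C) (S : Set (Sym2 V)) (hf : ∀ e ∈ S, Mono f e)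
    {u v : V} (h : (SimpleGraph.fromEdgeSet S).Reachable u v) : f u = f v := by
  obtain ⟨p⟩ := h
  induction p with
  | nil => rfl
  | cons hadj p ih =>
    rw [← ih]
    rw [SimpleGraph.fromEdgeSet_adj] at hadj
    exact (mono_mk f _ _).1 (hf _ hadj.1)

omit [Fintype V] in
/-- if `f` is constant along all edges of a cycle but one, it is constant along that one too -/
lemma mono_of_cycle {C : Type} (f : V → C) {G : SimpleGraph V} {x : V} (c : G.Walk x x)
    (hc : c.IsCycle) (e : Sym2 V) (he : e ∈ c.edges)
    (hf : ∀ g ∈ c.edges, g ≠ e → Mono f g) : Mono f e := by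
  have hG : ∀ g ∈ c.edges, g ∈ (SimpleGraph.fromEdgeSet {g | g ∈ c.edges}).edgeSet := by
    intro g hg
    rw [SimpleGraph.edgeSet_fromEdgeSet]
    refine ⟨hg, ?_⟩
    exact SimpleGraph.not_isDiag_of_mem_edgeSet G (c.edges_subset_edgeSet hg)
  induction e using Sym2.ind with
  | _ u v =>
    have h1 : ∃ (w : V) (p : (SimpleGraph.fromEdgeSet {g | g ∈ c.edges}).Walk w w),
        p.IsCycle ∧ s(u, v) ∈ p.edges := by
      refine ⟨x, c.transfer _ hG, hc.transfer hG, ?_⟩
      rw [SimpleGraph.Walk.edges_transfer]
      exact he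
    rw [← SimpleGraph.adj_and_reachable_delete_edges_iff_exists_cycle] at h1
    rw [mono_mk]
    have h2 := h1.2
    rw [SimpleGraph.deleteEdges_fromEdgeSet] at h2
    refine mono_of_reachable f _ ?_ h2
    intro g hg
    exact hf g hg.1 hg.2

/-! ### Counting the functions constant along a forest -/

lemma mem_monoSet {C : Type} [Fintype C] {F : Finset (Sym2 V)} {f : V → C} :
    f ∈ monoSet C F ↔ ∀ e ∈ F, Mono f e := by
  simp [monoSet]

lemma card_monoSet_insert (m : ℕ) [NeZero m] (F : Finset (Sym2 V)) (u v : V)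
    (hr : ¬ (SimpleGraph.fromEdgeSet (F : Set (Sym2 V))).Reachable u v) :
    (monoSet (ZMod m) F).card = (monoSet (ZMod m) (insert s(u, v) F)).card * m := by
  have hm : (univ : Finset (ZMod m)).card = m := by rw [Finset.card_univ, ZMod.card]
  suffices h : ((monoSet (ZMod m) (insert s(u, v) F)) ×ˢ (univ : Finset (ZMod m))).card =
      (monoSet (ZMod m) F).card by
    rw [← h, Finset.card_product, hm]
  have key : ∀ (f : V → ZMod m) (t : ZMod m), (∀ e ∈ F, Mono f e) → ∀ e ∈ F,
      Mono (fun w => if (SimpleGraph.fromEdgeSet (F : Set (Sym2 V))).Reachable u w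
        then f w + t else f w) e := by
    intro f t hf e he
    induction e using Sym2.ind with
    | _ x y =>
      rw [mono_mk]
      have hxy : f x = f y := (mono_mk f x y).1 (hf _ he)
      by_cases hne : x = y
      · rw [hne]
      · have hadj : (SimpleGraph.fromEdgeSet (F : Set (Sym2 V))).Adj x y := by
          rw [SimpleGraph.fromEdgeSet_adj]
          exact ⟨he, hne⟩
        have hiff : (SimpleGraph.fromEdgeSet (F : Set (Sym2 V))).Reachable u x ↔
            (SimpleGraph.fromEdgeSet (F : Set (Sym2 V))).Reachable u y :=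
          ⟨fun h => h.trans hadj.reachable, fun h => h.trans hadj.symm.reachable⟩
        simp only [hiff, hxy]
  refine Finset.card_nbij'
    (fun p => fun w => if (SimpleGraph.fromEdgeSet (F : Set (Sym2 V))).Reachable u w
        then p.1 w + p.2 else p.1 w)
    (fun f => (fun w => if (SimpleGraph.fromEdgeSet (F : Set (Sym2 V))).Reachable u w
        then f w + (f v - f u) else f w, f u - f v)) ?_ ?_ ?_ ?_
  · rintro ⟨f, t⟩ hp
    rw [Finset.mem_coe, Finset.mem_product] at hp
    have h1 := mem_monoSet.1 hp.1
    rw [Finset.mem_coe, mem_monoSet]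
    exact key f t (fun e he => h1 e (Finset.mem_insert_of_mem he))
  · intro f hf
    rw [Finset.mem_coe, mem_monoSet] at hf
    rw [Finset.mem_coe, Finset.mem_product, mem_monoSet]
    refine ⟨?_, Finset.mem_univ _⟩
    intro e he
    rw [Finset.mem_insert] at he
    rcases he with rfl | he
    · rw [mono_mk]
      simp [hr]
    · exact key f _ hf e he
  · rintro ⟨f, t⟩ hp
    rw [Finset.mem_coe, Finset.mem_product] at hp
    have h1 := mem_monoSet.1 hp.1
    have h2 : f u = f v := (mono_mk f u v).1 (h1 _ (Finset.mem_insert_self _ _))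
    ext1
    · funext w
      by_cases hw : (SimpleGraph.fromEdgeSet (F : Set (Sym2 V))).Reachable u w
      · simp [hw, hr, h2]
      · simp [hw]
    · simp [hr, h2]
  · intro f _
    funext w
    by_cases hw : (SimpleGraph.fromEdgeSet (F : Set (Sym2 V))).Reachable u w
    · simp [hw]
      ring
    · simp [hw]

lemma card_monoSet_forest (m : ℕ) [NeZero m] (F : Finset (Sym2 V))
    (hF : (SimpleGraph.fromEdgeSet (F : Set (Sym2 V))).IsAcyclic)
    (hd : ∀ e ∈ F, ¬ e.IsDiag) :
    (monoSet (ZMod m) F).card * m ^ F.card = m ^ Fintype.card V := by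
  induction F using Finset.induction_on with
  | empty =>
    have : monoSet (ZMod m) (∅ : Finset (Sym2 V)) = univ := by
      ext f; simp [monoSet]
    rw [this, Finset.card_univ, Finset.card_empty, pow_zero, mul_one, Fintype.card_fun, ZMod.card]
  | insert e F he ih =>
    induction e using Sym2.ind with
    | _ u v =>
      have hacy : (SimpleGraph.fromEdgeSet (F : Set (Sym2 V))).IsAcyclic := by
        refine hF.anti ?_
        apply SimpleGraph.fromEdgeSet_mono
        rw [Finset.coe_insert]
        exact Set.subset_insert _ _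
      have huv : u ≠ v := by
        have := hd _ (Finset.mem_insert_self _ _)
        simpa using this
      have hr : ¬ (SimpleGraph.fromEdgeSet (F : Set (Sym2 V))).Reachable u v := by
        intro hr
        rw [SimpleGraph.isAcyclic_iff_forall_adj_isBridge] at hF
        have hadj : (SimpleGraph.fromEdgeSet ((insert s(u, v) F : Finset (Sym2 V)) :
            Set (Sym2 V))).Adj u v := by
          rw [SimpleGraph.fromEdgeSet_adj]
          exact ⟨by simp, huv⟩
        have hb := hF hadj
        rw [SimpleGraph.isBridge_iff] at hb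
        apply hb
        rw [SimpleGraph.deleteEdges_fromEdgeSet]
        refine hr.mono ?_
        apply SimpleGraph.fromEdgeSet_mono
        intro x hx
        refine ⟨by simp [Finset.mem_coe.1 hx], ?_⟩
        rintro rfl
        exact he hx
      have h1 := ih hacy (fun e he => hd e (Finset.mem_insert_of_mem he))
      rw [Finset.card_insert_of_notMem he, pow_succ']
      rw [card_monoSet_insert m F u v hr] at h1
      rw [← h1]
      ring

/-! ### Inclusion-exclusion -/

/-- the edges of `G` as a finset -/
noncomputable def edg (G : SimpleGraph V) : Finset (Sym2 V) := univ.filter fun e => e ∈ G.edgeSet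

lemma mem_edg {G : SimpleGraph V} {e : Sym2 V} : e ∈ edg G ↔ e ∈ G.edgeSet := by simp [edg]

lemma card_col_eq (C : Type) [Fintype C] (G : SimpleGraph V) :
    ((col C G).card : ℤ) =
      ∑ F ∈ (edg G).powerset, (-1) ^ F.card * ((monoSet C F).card : ℤ) := by
  have h1 : ((col C G).card : ℤ) =
      ∑ f : V → C, ∏ e ∈ edg G, ((if Mono f e then (-1 : ℤ) else 0) + 1) := by
    rw [Finset.card_eq_sum_ones, Nat.cast_sum, col, Finset.sum_filter]
    apply Finset.sum_congr rfl
    intro f _
    by_cases hf : ∀ u v, G.Adj u v → f u ≠ f v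
    · rw [if_pos hf]
      have hf' := mem_col'.1 (mem_col.2 hf)
      rw [Finset.prod_eq_one]
      · simp
      · intro e he
        rw [if_neg (hf' e (mem_edg.1 he))]
        simp
    · rw [if_neg hf]
      have : ¬ ∀ e ∈ G.edgeSet, ¬ Mono f e := fun h => hf (mem_col.1 (mem_col'.2 h))
      push Not at this
      obtain ⟨e, he, hm⟩ := this
      symm
      apply Finset.prod_eq_zero (mem_edg.2 he)
      rw [if_pos hm]; norm_num
  rw [h1]
  have h2 : ∀ f : V → C, ∏ e ∈ edg G, ((if Mono f e then (-1 : ℤ) else 0) + 1) =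
      ∑ F ∈ (edg G).powerset, (-1) ^ F.card * (if ∀ e ∈ F, Mono f e then (1 : ℤ) else 0) := by
    intro f
    rw [Finset.prod_add]
    apply Finset.sum_congr rfl
    intro F _
    rw [Finset.prod_const_one, mul_one]
    by_cases hF : ∀ e ∈ F, Mono f e
    · rw [if_pos hF, mul_one, Finset.prod_congr rfl (fun e he => if_pos (hF e he)),
        Finset.prod_const]
    · rw [if_neg hF, mul_zero]
      push Not at hF
      obtain ⟨e, he, hm⟩ := hF
      exact Finset.prod_eq_zero he (if_neg hm)
  simp only [h2]
  rw [Finset.sum_comm]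
  apply Finset.sum_congr rfl
  intro F _
  rw [← Finset.mul_sum]
  congr 1
  rw [Finset.card_eq_sum_ones, Nat.cast_sum, monoSet, Finset.sum_filter]
  simp

/-! ### Whitney's broken cycle theorem -/

/-- missing (largest) edges of the broken cycles contained in `F` -/
noncomputable def missing (G : SimpleGraph V) (ord : LinearOrder (Sym2 V))
    (F : Finset (Sym2 V)) : Finset (Sym2 V) :=
  univ.filter fun e => ∃ (v : V) (c : G.Walk v v), c.IsCycle ∧ e ∈ c.edges ∧
    (∀ f ∈ c.edges, ord.le f e) ∧ c.edges.toFinset.erase e ⊆ F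

lemma mem_missing {G : SimpleGraph V} {ord : LinearOrder (Sym2 V)} {F : Finset (Sym2 V)}
    {e : Sym2 V} : e ∈ missing G ord F ↔ ∃ (v : V) (c : G.Walk v v), c.IsCycle ∧ e ∈ c.edges ∧
    (∀ f ∈ c.edges, ord.le f e) ∧ c.edges.toFinset.erase e ⊆ F := by simp [missing]

lemma mem_bcf {G : SimpleGraph V} {ord : LinearOrder (Sym2 V)} {F : Finset (Sym2 V)} :
    F ∈ brokenCycleFree G ord ↔ F ∈ (edg G).powerset ∧ missing G ord F = ∅ := by
  unfold brokenCycleFree
  rw [Finset.mem_filter, Finset.mem_powerset]
  constructor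
  · rintro ⟨-, h1, h2⟩
    refine ⟨fun e he => mem_edg.2 (h1 e he), ?_⟩
    rw [Finset.eq_empty_iff_forall_notMem]
    intro e he
    obtain ⟨v, c, hc, hec, hmax, hsub⟩ := mem_missing.1 he
    exact h2 _ ⟨v, c, e, hc, hec, hmax, rfl⟩ hsub
  · rintro ⟨h1, h2⟩
    refine ⟨Finset.mem_univ _, fun e he => mem_edg.1 (h1 he), ?_⟩
    rintro B ⟨v, c, e, hc, hec, hmax, rfl⟩ hsub
    have : e ∈ missing G ord F := mem_missing.2 ⟨v, c, hc, hec, hmax, hsub⟩
    rw [h2] at this
    simp at this

/-- add `b` if it is absent, remove it if it is present -/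
noncomputable def toggle (F : Finset (Sym2 V)) (b : Sym2 V) : Finset (Sym2 V) :=
  if b ∈ F then F.erase b else insert b F

omit [Fintype V] in
lemma toggle_ne (F : Finset (Sym2 V)) (b : Sym2 V) : toggle F b ≠ F := by
  unfold toggle
  split_ifs with h
  · intro h2; rw [← h2] at h; simp at h
  · intro h2; rw [← h2] at h; simp at h

omit [Fintype V] in
lemma toggle_toggle (F : Finset (Sym2 V)) (b : Sym2 V) : toggle (toggle F b) b = F := by
  unfold toggle
  by_cases h : b ∈ F
  · simp [h]
  · simp [h]

omit [Fintype V] in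
lemma mem_toggle {F : Finset (Sym2 V)} {b e : Sym2 V} (h : e ≠ b) : e ∈ toggle F b ↔ e ∈ F := by
  unfold toggle
  split_ifs <;> simp [h]

omit [Fintype V] in
lemma pow_toggle (F : Finset (Sym2 V)) (b : Sym2 V) :
    (-1 : ℤ) ^ (toggle F b).card = - (-1) ^ F.card := by
  unfold toggle
  split_ifs with h
  · have h2 := Finset.card_erase_add_one h
    rw [← h2, pow_succ]; ring
  · rw [Finset.card_insert_of_notMem h, pow_succ]; ring

lemma missing_toggle {G : SimpleGraph V} {ord : LinearOrder (Sym2 V)} {F : Finset (Sym2 V)}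
    {b e : Sym2 V} (h : ord.le e b) : e ∈ missing G ord (toggle F b) ↔ e ∈ missing G ord F := by
  rw [mem_missing, mem_missing]
  have key : ∀ (v : V) (c : G.Walk v v), (∀ f ∈ c.edges, ord.le f e) →
      (c.edges.toFinset.erase e ⊆ toggle F b ↔ c.edges.toFinset.erase e ⊆ F) := by
    intro v c hmax
    have : ∀ f ∈ c.edges.toFinset.erase e, (f ∈ toggle F b ↔ f ∈ F) := by
      intro f hf
      apply mem_toggle
      rintro rfl
      rw [Finset.mem_erase, List.mem_toFinset] at hf
      exact hf.1 (ord.le_antisymm _ _ (hmax f hf.2) h)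
    constructor
    · intro hs f hf; exact (this f hf).1 (hs hf)
    · intro hs f hf; exact (this f hf).2 (hs hf)
  constructor
  · rintro ⟨v, c, hc, hec, hmax, hsub⟩
    exact ⟨v, c, hc, hec, hmax, (key v c hmax).1 hsub⟩
  · rintro ⟨v, c, hc, hec, hmax, hsub⟩
    exact ⟨v, c, hc, hec, hmax, (key v c hmax).2 hsub⟩

/-- the least missing edge -/
noncomputable def least (G : SimpleGraph V) (ord : LinearOrder (Sym2 V))
    (F : Finset (Sym2 V)) (h : (missing G ord F).Nonempty) : Sym2 V :=
  @Finset.min' _ ord (missing G ord F) h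

lemma least_mem (G : SimpleGraph V) (ord : LinearOrder (Sym2 V))
    (F : Finset (Sym2 V)) (h : (missing G ord F).Nonempty) :
    least G ord F h ∈ missing G ord F := @Finset.min'_mem _ ord _ h

lemma least_le (G : SimpleGraph V) (ord : LinearOrder (Sym2 V))
    (F : Finset (Sym2 V)) (h : (missing G ord F).Nonempty) (e : Sym2 V)
    (he : e ∈ missing G ord F) : ord.le (least G ord F h) e :=
  @Finset.min'_le _ ord _ e he

lemma mem_missing_least {G : SimpleGraph V} {ord : LinearOrder (Sym2 V)} {F : Finset (Sym2 V)}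
    (h : (missing G ord F).Nonempty) :
    least G ord F h ∈ missing G ord (toggle F (least G ord F h)) :=
  (missing_toggle (ord.le_refl _)).2 (least_mem G ord F h)

lemma least_toggle {G : SimpleGraph V} {ord : LinearOrder (Sym2 V)} {F : Finset (Sym2 V)}
    (h : (missing G ord F).Nonempty)
    (h' : (missing G ord (toggle F (least G ord F h))).Nonempty) :
    least G ord (toggle F (least G ord F h)) h' = least G ord F h := by
  have h1 := least_le G ord _ h' _ (mem_missing_least h)
  have h2 := least_mem G ord _ h'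
  rw [missing_toggle h1] at h2
  exact ord.le_antisymm _ _ h1 (least_le G ord F h _ h2)

lemma monoSet_toggle (C : Type) [Fintype C] {G : SimpleGraph V} {ord : LinearOrder (Sym2 V)}
    {F : Finset (Sym2 V)} {b : Sym2 V} (hb : b ∈ missing G ord F) :
    monoSet C (toggle F b) = monoSet C F := by
  obtain ⟨v, c, hc, hec, hmax, hsub⟩ := mem_missing.1 hb
  have key : ∀ f : V → C, (∀ e ∈ F, e ≠ b → Mono f e) → Mono f b := by
    intro f hf
    apply mono_of_cycle f c hc b hec
    intro g hg hgb
    exact hf g (hsub (by rw [Finset.mem_erase, List.mem_toFinset]; exact ⟨hgb, hg⟩)) hgb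
  ext f
  rw [mem_monoSet, mem_monoSet]
  constructor
  · intro h e he
    by_cases heb : e = b
    · rw [heb]
      apply key
      intro g hg hgb
      exact h g ((mem_toggle hgb).2 hg)
    · exact h e ((mem_toggle heb).2 he)
  · intro h e he
    by_cases heb : e = b
    · rw [heb]
      apply key
      intro g hg hgb
      exact h g hg
    · exact h e ((mem_toggle heb).1 he)

lemma card_col_bcf (C : Type) [Fintype C] (G : SimpleGraph V) (ord : LinearOrder (Sym2 V)) :
    ((col C G).card : ℤ) =
      ∑ F ∈ brokenCycleFree G ord, (-1) ^ F.card * ((monoSet C F).card : ℤ) := by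
  rw [card_col_eq]
  have hsplit : brokenCycleFree G ord =
      (edg G).powerset.filter fun F => missing G ord F = ∅ := by
    ext F; rw [mem_bcf, Finset.mem_filter]
  rw [hsplit, ← Finset.sum_filter_add_sum_filter_not (edg G).powerset
    (fun F => missing G ord F = ∅)]
  rw [add_eq_left]
  have hne : ∀ F ∈ (edg G).powerset.filter (fun F => ¬ missing G ord F = ∅),
      (missing G ord F).Nonempty := by
    intro F hF
    exact Finset.nonempty_iff_ne_empty.2 (Finset.mem_filter.1 hF).2
  refine Finset.sum_involution (fun F hF => toggle F (least G ord F (hne F hF))) ?_ ?_ ?_ ?_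
  · intro F hF
    rw [monoSet_toggle C (least_mem G ord F (hne F hF)), pow_toggle]
    ring
  · intro F hF _
    exact toggle_ne _ _
  · intro F hF
    have hF' := Finset.mem_filter.1 hF
    rw [Finset.mem_filter]
    refine ⟨?_, ?_⟩
    · rw [Finset.mem_powerset]
      have hsub := Finset.mem_powerset.1 hF'.1
      obtain ⟨v, c, hc, hec, hmax, hs⟩ := mem_missing.1 (least_mem G ord F (hne F hF))
      have hE : least G ord F (hne F hF) ∈ edg G := mem_edg.2 (c.edges_subset_edgeSet hec)
      intro e he
      by_cases heb : e = least G ord F (hne F hF)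
      · rw [heb]; exact hE
      · exact hsub ((mem_toggle heb).1 he)
    · rw [← Ne, ← Finset.nonempty_iff_ne_empty]
      exact ⟨_, mem_missing_least (hne F hF)⟩
  · intro F hF
    rw [least_toggle, toggle_toggle]

lemma bcf_acyclic {G : SimpleGraph V} {ord : LinearOrder (Sym2 V)} {F : Finset (Sym2 V)}
    (hF : F ∈ brokenCycleFree G ord) :
    (SimpleGraph.fromEdgeSet (F : Set (Sym2 V))).IsAcyclic := by
  rw [mem_bcf] at hF
  obtain ⟨hE, hm⟩ := hF
  rw [Finset.mem_powerset] at hE
  intro v c hc
  have hcG : ∀ e ∈ c.edges, e ∈ G.edgeSet := by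
    intro e he
    have h1 := c.edges_subset_edgeSet he
    rw [SimpleGraph.edgeSet_fromEdgeSet] at h1
    exact mem_edg.1 (hE (Finset.mem_coe.1 h1.1))
  have hcF : ∀ e ∈ c.edges, e ∈ F := by
    intro e he
    have h1 := c.edges_subset_edgeSet he
    rw [SimpleGraph.edgeSet_fromEdgeSet] at h1
    exact Finset.mem_coe.1 h1.1
  have hne : c.edges.toFinset.Nonempty := by
    rw [List.toFinset_nonempty_iff]
    intro h
    have := hc.three_le_length
    rw [← SimpleGraph.Walk.length_edges, h] at this
    simp at this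
  have hmem := @Finset.max'_mem _ ord _ hne
  have hmax := fun x hx => @Finset.le_max' _ ord c.edges.toFinset x hx
  have : @Finset.max' _ ord _ hne ∈ missing G ord F := by
    rw [mem_missing]
    refine ⟨v, c.transfer G hcG, hc.transfer hcG, ?_, ?_, ?_⟩
    · rw [SimpleGraph.Walk.edges_transfer]
      exact List.mem_toFinset.1 hmem
    · intro f hf
      rw [SimpleGraph.Walk.edges_transfer] at hf
      exact hmax f (List.mem_toFinset.2 hf)
    · intro f hf
      rw [SimpleGraph.Walk.edges_transfer] at hf
      exact hcF f (List.mem_toFinset.1 (Finset.mem_of_mem_erase hf))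
  rw [hm] at this
  simp at this

lemma bcf_not_isDiag {G : SimpleGraph V} {ord : LinearOrder (Sym2 V)} {F : Finset (Sym2 V)}
    (hF : F ∈ brokenCycleFree G ord) : ∀ e ∈ F, ¬ e.IsDiag := by
  intro e he
  rw [mem_bcf, Finset.mem_powerset] at hF
  exact SimpleGraph.not_isDiag_of_mem_edgeSet G (mem_edg.1 (hF.1 he))

lemma card_le_of_bcf {G : SimpleGraph V} {ord : LinearOrder (Sym2 V)} {F : Finset (Sym2 V)}
    (hF : F ∈ brokenCycleFree G ord) : F.card ≤ Fintype.card V := by
  have h := card_monoSet_forest 2 F (bcf_acyclic hF) (bcf_not_isDiag hF)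
  have h2 : 2 ^ F.card ∣ 2 ^ Fintype.card V := ⟨_, by rw [mul_comm]; exact h.symm⟩
  exact (Nat.pow_dvd_pow_iff_le_right (by norm_num)).1 h2

lemma card_monoSet_bcf (m : ℕ) [NeZero m] {G : SimpleGraph V} {ord : LinearOrder (Sym2 V)}
    {F : Finset (Sym2 V)} (hF : F ∈ brokenCycleFree G ord) :
    (monoSet (ZMod m) F).card = m ^ (Fintype.card V - F.card) := by
  have h := card_monoSet_forest m F (bcf_acyclic hF) (bcf_not_isDiag hF)
  have hm : 0 < m := Nat.pos_of_ne_zero (NeZero.ne m)
  have h2 : m ^ Fintype.card V = m ^ (Fintype.card V - F.card) * m ^ F.card := by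
    rw [← pow_add, Nat.sub_add_cancel (card_le_of_bcf hF)]
  rw [h2] at h
  exact Nat.eq_of_mul_eq_mul_right (pow_pos hm _) h

/-- the chromatic polynomial, read off from the broken-cycle-free sets -/
noncomputable def chrom (G : SimpleGraph V) (ord : LinearOrder (Sym2 V)) : Polynomial ℤ :=
  ∑ F ∈ brokenCycleFree G ord,
    Polynomial.C ((-1 : ℤ) ^ F.card) * Polynomial.X ^ (Fintype.card V - F.card)

/-- **Whitney's broken cycle theorem** -/
lemma eval_chrom (m : ℕ) [NeZero m] (G : SimpleGraph V) (ord : LinearOrder (Sym2 V)) :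
    (chrom G ord).eval (m : ℤ) = (col (ZMod m) G).card := by
  rw [card_col_bcf (ZMod m) G ord, chrom, Polynomial.eval_finsetSum]
  apply Finset.sum_congr rfl
  intro F hF
  rw [card_monoSet_bcf m hF]
  simp

end Pool.Agent.Work.MP_6229d2_co
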